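import Pool.Agent.Lib.MP_7b7e48_nt.T3E.Def

/-!
# T3E / Rng (45 minutes): the numbers `Z` in `(a, b]` which are multiples of `g`

PROOF. `rng`: `Z = g n`; `a < g n ≤ b` iff `a/g < n ≤ b/g` (floors; `Nat.div_lt_iff_lt_mul`, `Nat.le_div_iff_mul_le`), and `Icc 1 (b/g) = Icc 1 (a/g) ∪ Ioc (a/g) (b/g)` disjoint. `cls`: Chinese remainder: for `g` coprime to `q m`, `q` coprime to `m`: the conditions `g n ≡ r (q)`, `m ∣ g n + H` (`H` coprime to `m`) are `n ≡ cl` modulo `q m`, `cl` coprime to `q m`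
(`r` coprime to `q`).
-/

set_option autoImplicit false

open Finset

namespace Pool.Agent.Lib.T3E

open Classical in
theorem rng (g a b : ℕ) (hg : 1 ≤ g) (hab : a ≤ b) (Q : ℕ → Prop) (f : ℕ → ℝ) :
    ∑ Z ∈ (Ioc a b).filter (fun Z => g ∣ Z ∧ Q Z), f Z =
      ∑ n ∈ (Icc 1 (b / g)).filter (fun n => Q (g * n)), f (g * n) - ∑ n ∈ (Icc 1 (a / g)).filter (fun n => Q (g * n)), f (g * n) := by
  have hdiv : ∀ x y : ℕ, (g * x ≤ y ↔ x ≤ y / g) := by
    intro x y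
    rw [Nat.le_div_iff_mul_le (by omega), mul_comm]
  have hsub : (Icc 1 (a / g)).filter (fun n => Q (g * n)) ⊆ (Icc 1 (b / g)).filter (fun n => Q (g * n)) := by
    intro n hn
    simp only [mem_filter, mem_Icc] at hn ⊢
    exact ⟨⟨hn.1.1, hn.1.2.trans (Nat.div_le_div_right hab)⟩, hn.2⟩
  rw [eq_sub_iff_add_eq, ← Finset.sum_sdiff hsub]
  congr 1
  symm
  refine Finset.sum_nbij' (fun n => g * n) (fun Z => Z / g) ?_ ?_ ?_ ?_ ?_
  · intro n hn
    simp only [mem_sdiff, mem_filter, mem_Icc, mem_Ioc] at hn ⊢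
    obtain ⟨⟨⟨h1, h2⟩, h3⟩, h4⟩ := hn
    refine ⟨⟨?_, (hdiv n b).2 h2⟩, dvd_mul_right g n, h3⟩
    by_contra h5
    exact h4 ⟨⟨h1, (hdiv n a).1 (by omega)⟩, h3⟩
  · intro Z hZ
    simp only [mem_sdiff, mem_filter, mem_Icc, mem_Ioc] at hZ ⊢
    obtain ⟨⟨h1, h2⟩, h3, h4⟩ := hZ
    have h5 : g * (Z / g) = Z := Nat.mul_div_cancel' h3
    rw [h5]
    refine ⟨⟨⟨?_, Nat.div_le_div_right h2⟩, h4⟩, ?_⟩
    · exact Nat.div_pos (Nat.le_of_dvd (by omega) h3) (by omega)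
    · rintro ⟨⟨-, h6⟩, -⟩
      have := (hdiv (Z / g) a).2 h6
      omega
  · intro n _
    exact Nat.mul_div_cancel_left n (by omega)
  · intro Z hZ
    simp only [mem_filter] at hZ
    exact Nat.mul_div_cancel' hZ.2.1
  · intro n _
    rfl

theorem cls (g m q r : ℕ) (H : ℤ) (hm : 1 ≤ m) (hq : 1 ≤ q) (hg : g.Coprime (q * m)) (hqm : q.Coprime m) (hr : r.Coprime q)
    (hH : IsCoprime H (m : ℤ)) :
    ∃ cl : ℕ, cl.Coprime (q * m) ∧ ∀ n : ℕ, (n ≡ cl [MOD q * m] ↔ g * n ≡ r [MOD q] ∧ (m : ℤ) ∣ ((g * n : ℕ) : ℤ) + H) := by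
  have hgq : g.Coprime q := hg.coprime_mul_right_right
  have hgm : g.Coprime m := hg.coprime_mul_left_right
  obtain ⟨x, -, hx⟩ := Nat.exists_mul_mod_eq_of_coprime r hgq (by omega)
  have hm0 : (m : ℤ) ≠ 0 := by exact_mod_cast (show m ≠ 0 by omega)
  set s : ℕ := ((-H) % (m : ℤ)).toNat with hs
  have hs1 : (s : ℤ) = (-H) % (m : ℤ) := Int.toNat_of_nonneg (Int.emod_nonneg _ hm0)
  have hs2 : (s : ℤ) ≡ -H [ZMOD (m : ℤ)] := by rw [hs1]; exact Int.mod_modEq _ _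
  obtain ⟨y, -, hy⟩ := Nat.exists_mul_mod_eq_of_coprime s hgm (by omega)
  have hx' : g * x ≡ r [MOD q] := hx
  have hy' : g * y ≡ s [MOD m] := hy
  have hkey : ∀ n : ℕ, ((m : ℤ) ∣ ((g * n : ℕ) : ℤ) + H ↔ g * n ≡ s [MOD m]) := by
    intro n
    rw [← Int.natCast_modEq_iff]
    constructor
    · intro h
      have h1 : -H ≡ ((g * n : ℕ) : ℤ) [ZMOD (m : ℤ)] := by
        rw [Int.modEq_iff_dvd, sub_neg_eq_add]
        exact h
      exact (hs2.trans h1).symm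
    · intro h
      have h1 := (h.trans hs2).symm
      rw [Int.modEq_iff_dvd, sub_neg_eq_add] at h1
      exact h1
  have hscop : s.Coprime m := by
    have h1 : IsCoprime (s : ℤ) (m : ℤ) := by
      obtain ⟨k, hk⟩ := (Int.modEq_iff_dvd.1 hs2)
      have h2 : (s : ℤ) = -H + (-k) * (m : ℤ) := by linarith
      rw [h2]
      have h3 : IsCoprime (-H) (m : ℤ) := hH.neg_left
      exact IsCoprime.add_mul_right_left h3 (-k)
    exact Nat.isCoprime_iff_coprime.1 h1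
  obtain ⟨cl, hc1, hc2⟩ := Nat.chineseRemainder hqm x y
  have hcq : g * cl ≡ r [MOD q] := (hc1.mul_left g).trans hx'
  have hcm : g * cl ≡ s [MOD m] := (hc2.mul_left g).trans hy'
  refine ⟨cl, ?_, ?_⟩
  · refine Nat.Coprime.mul_right ?_ ?_
    · have h1 : (g * cl).Coprime q := by
        unfold Nat.Coprime
        rw [hcq.gcd_eq]
        exact hr
      exact h1.coprime_mul_left
    · have h1 : (g * cl).Coprime m := by
        unfold Nat.Coprime
        rw [hcm.gcd_eq]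
        exact hscop
      exact h1.coprime_mul_left
  · intro n
    rw [hkey n, ← Nat.modEq_and_modEq_iff_modEq_mul hqm]
    constructor
    · rintro ⟨h1, h2⟩
      exact ⟨(h1.mul_left g).trans hcq, (h2.mul_left g).trans hcm⟩
    · rintro ⟨h1, h2⟩
      exact ⟨Nat.ModEq.cancel_left_of_coprime (by rw [Nat.gcd_comm]; exact hgq) (h1.trans hcq.symm),
        Nat.ModEq.cancel_left_of_coprime (by rw [Nat.gcd_comm]; exact hgm) (h2.trans hcm.symm)⟩

end Pool.Agent.Lib.T3E
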