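import Pool.Agent.Lib.MP_7b7e48_nt.RG.A2

/-!
# T3E / Tr (60 minutes): change of the modulus from `W N` to `W 2^i N`

PROOF. `N` is even, so `W N` and `W 2^i N` have the same prime factors. `lvl`: `χ1 = DirichletCharacter.changeLevel (W N ∣ W 2^i N) χ`: for `n` coprime to the modulus `χ1 n = χ n` (`DirichletCharacter.changeLevel_eq_cast_of_dvd`), otherwise both values are `0` (`MulChar.map_nonunit`); `χ1 ^ 2 = 1` (`changeLevel` is a homomorphism), `χ1 ≠ 1`
(there is `n` coprime to `W N` with `χ n ≠ 1`). `lv_mono`: `PB M ≤ PB M'` for `M ∣ M'` (`PB` contains the number of divisors, so divisibility is needed). `pow_range`: the smallest `i` with `2^i ≥ x`.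
-/

set_option autoImplicit false

open Finset
open Pool.Agent.Lib.RG (LV RC)

namespace Pool.Agent.Lib.T3E

theorem lvl (W N i : ℕ) (hN : Even N) (hN0 : 0 < N) (hW : 0 < W) (χ : DirichletCharacter ℂ (W * N)) (hχ : χ ^ 2 = 1) (h1 : χ ≠ 1) :
    ∃ χ1 : DirichletCharacter ℂ (W * (2 ^ i * N)), χ1 ^ 2 = 1 ∧ χ1 ≠ 1 ∧
      ∀ n : ℕ, χ1 (n : ZMod (W * (2 ^ i * N))) = χ (n : ZMod (W * N)) := by
  have hdvd : W * N ∣ W * (2 ^ i * N) := Nat.mul_dvd_mul_left W (dvd_mul_left N _)
  have hM1 : 0 < W * (2 ^ i * N) := by positivity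
  haveI : NeZero (W * (2 ^ i * N)) := ⟨hM1.ne'⟩
  have hcop : ∀ n : ℕ, (n.Coprime (W * (2 ^ i * N)) ↔ n.Coprime (W * N)) := by
    intro n
    constructor
    · intro h
      exact Nat.Coprime.coprime_dvd_right hdvd h
    · intro h
      have h1 : n.Coprime W := h.coprime_mul_right_right
      have h2 : n.Coprime N := h.coprime_mul_left_right
      have h3 : n.Coprime 2 := Nat.Coprime.coprime_dvd_right hN.two_dvd h2
      exact Nat.Coprime.mul_right h1 (Nat.Coprime.mul_right (Nat.Coprime.pow_right i h3) h2)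
  refine ⟨DirichletCharacter.changeLevel hdvd χ, ?_, ?_, ?_⟩
  · rw [← map_pow, hχ, map_one]
  · intro h
    exact h1 ((DirichletCharacter.changeLevel_eq_one_iff hdvd).1 h)
  · intro n
    by_cases hn : n.Coprime (W * (2 ^ i * N))
    · have h2 := DirichletCharacter.changeLevel_eq_cast_of_dvd χ hdvd (ZMod.unitOfCoprime n hn)
      rw [ZMod.coe_unitOfCoprime] at h2
      rw [h2, ZMod.cast_natCast hdvd]
    · rw [MulChar.map_nonunit, MulChar.map_nonunit]
      · rw [ZMod.isUnit_iff_coprime]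
        exact fun h => hn ((hcop n).2 h)
      · rw [ZMod.isUnit_iff_coprime]
        exact hn

theorem lv_mono {M M' : ℕ} {c : ℕ → ℝ} {L : ℝ} (h : LV M c L) (hM : 1 ≤ M') (hMM : M ∣ M') : LV M' c L := by
  have hPB : Pool.Agent.Lib.RG.PB M ≤ Pool.Agent.Lib.RG.PB M' := by
    unfold Pool.Agent.Lib.RG.PB
    have hM0 : 0 < M := Nat.pos_of_dvd_of_pos hMM (by omega)
    have hle : M ≤ M' := Nat.le_of_dvd (by omega) hMM
    have h1 : (M.divisors.card : ℝ) ≤ (M'.divisors.card : ℝ) := by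
      exact_mod_cast Finset.card_le_card (Nat.divisors_subset_of_dvd (by omega) hMM)
    have h2 : Real.sqrt M ≤ Real.sqrt M' := Real.sqrt_le_sqrt (by exact_mod_cast hle)
    have h3 : Real.log M ≤ Real.log M' := Real.log_le_log (by exact_mod_cast hM0) (by exact_mod_cast hle)
    have h4 : 0 ≤ Real.log M := Real.log_natCast_nonneg M
    have h5 : 0 ≤ Real.sqrt M := Real.sqrt_nonneg _
    gcongr
  refine ⟨h.1, fun y hy => (h.2 y hy).trans ?_⟩
  gcongr

theorem pow_range (x : ℝ) (hx : 1 ≤ x) : ∃ i : ℕ, x ≤ (2 : ℝ) ^ i ∧ (2 : ℝ) ^ i ≤ 2 * x := by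
  have hex : ∃ i : ℕ, x ≤ (2 : ℝ) ^ i := by
    obtain ⟨i, hi⟩ := pow_unbounded_of_one_lt x (by norm_num : (1 : ℝ) < 2)
    exact ⟨i, hi.le⟩
  classical
  refine ⟨Nat.find hex, Nat.find_spec hex, ?_⟩
  rcases Nat.eq_zero_or_pos (Nat.find hex) with h0 | h0
  · rw [h0, pow_zero]
    linarith
  · have h1 := Nat.find_min hex (m := Nat.find hex - 1) (by omega)
    push Not at h1
    have h2 : (2 : ℝ) ^ (Nat.find hex) = 2 * 2 ^ (Nat.find hex - 1) := by
      rw [← pow_succ', Nat.sub_add_cancel h0]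
    rw [h2]
    linarith

end Pool.Agent.Lib.T3E
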