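import Pool.Agent.Lib.MP_7b7e48_nt.T3E.Sid3
import Pool.Agent.Lib.MP_7b7e48_nt.T3E.Sid4

/-!
# T3E / Fin (90 minutes): the balance of the two kinds of bad pairs

`R = W^2 N`, `K = log N`, `M = MM P R`, `PSW`: the numbers `X` of `(a, b]` with `X ≡ r` modulo `W`, `t ∣ X`, `t' ∣ Y = X - D' R`, `X` and `Y` coprime to `R` and free of primes `≤ M`. PROOF of `bal`. For `X ∈ PSW`: `(1/2)(lam Y - lam X)` is `1` if `lam X = -1, lam Y = 1`, `-1` if `lam X = 1, lam Y = -1`, `0` otherwise (`LS.abs_lam`), so the difference is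
`(1/2) ∑_{X ∈ PSW} (lam Y - lam X)`. `sidG1 (A + 2) Cj` twice, for each of the `W` classes `r'` modulo `W^2` with `r' ≡ r` modulo `W` (`X ≡ r` modulo `W` iff `X ≡ r'` for exactly one of them): (X) `Z = X`, `H = - D' R`, `B1 = BX`, `B2 = BY`: for `X > a ≥ D' R`: `(X : ℤ) + H = (Y : ℤ)`, `RZ M Y` iff `Rough M Y`; `Y` is coprime to `R` as `X` is;
(Y) `Z = Y`, `H = D' R`, `B1 = BY`, `B2 = BX`, interval `(a - D' R, b - D' R]`, class `r'` (`W^2 ∣ D' R`). Conditions: `hD.y1`: `JJ^4 MM^4 J1 ≤ y0`, so `JJ MM ≤ y0`, `D' ≤ J1 ≤ y0`; `rho ≥ 1/J1 ≥ 1/y0 ≥ R^(-kap/1000) ≥ N^(-1/10000)` (`jx`, `jy`, `y2`). The total is `≤ W · 2 · rho rho N / K^(A+2) ≤ rho rho N/K^A`.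
`balc`: the same with `lam - Re χ` (`sidG2 (A + 2) Cj`): `(1/2)(lam Y - lam X) = (1/2)((lam Y - Re χ Y) - (lam X - Re χ X))` because `X ≡ Y` modulo `R`.
-/

set_option autoImplicit false

open Finset
open Pool.Agent.Lib.MP_45349e_nt.LS (lam)
open Pool.Agent.Lib.GT (Rough)
open Pool.Agent.Lib.RG (LV RC)
open Pool.Agent.Lib.OW (QP)
open Pool.Agent.Lib.TCF (TUP rho FamOk Rgh1)
open Pool.Agent.Lib.RH (Prm MM JJ)

namespace Pool.Agent.Lib.T3E

open Classical in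
/-- the numbers `X ∈ (a, b]`, `X ≡ r` modulo `W`, `t ∣ X`, `t' ∣ X - D' R`, `X` and `X - D' R` coprime to `R` and rough -/
noncomputable def PSW (P : Prm) (W N D' a b r t t' : ℕ) : Finset ℕ :=
  (Ioc a b).filter fun X => t ∣ X ∧ t' ∣ X - D' * (W ^ 2 * N) ∧ X ≡ r [MOD W] ∧ Rgh1 P (W ^ 2 * N) X ∧
    Rgh1 P (W ^ 2 * N) (X - D' * (W ^ 2 * N))

private theorem fin_half {x y : ℝ} (hx : |x| = 1) (hy : |y| = 1) :
    (if x = -1 ∧ y = 1 then (1 : ℝ) else 0) - (if x = 1 ∧ y = -1 then 1 else 0) = (y - x) / 2 := by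
  have h1 : x = 1 ∨ x = -1 := by
    rcases abs_cases x with h | h
    · left; linarith [h.1]
    · right; linarith [h.1]
  have h2 : y = 1 ∨ y = -1 := by
    rcases abs_cases y with h | h
    · left; linarith [h.1]
    · right; linarith [h.1]
  rcases h1 with rfl | rfl <;> rcases h2 with rfl | rfl <;> norm_num

private theorem fin_dvd {m X c : ℕ} (h : c < X) : (m : ℤ) ∣ (X : ℤ) + (-(c : ℤ)) ↔ m ∣ X - c := by
  rw [← sub_eq_add_neg, ← Nat.cast_sub h.le, Int.natCast_dvd_natCast]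

private theorem fin_rz {M X c : ℕ} (h : c < X) : RZ M ((X : ℤ) + (-(c : ℤ))) ↔ Rough M (X - c) := by
  unfold RZ Rough
  constructor
  · intro h1 p hp hd
    exact h1 p hp ((fin_dvd h).mpr hd)
  · intro h1 p hp hd
    exact h1 p hp ((fin_dvd h).mp hd)

private theorem fin_rz2 {M Z c : ℕ} : RZ M ((Z : ℤ) + (c : ℤ)) ↔ Rough M (Z + c) := by
  unfold RZ Rough
  constructor
  · intro h1 p hp hd
    refine h1 p hp ?_
    exact_mod_cast hd
  · intro h1 p hp hd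
    refine h1 p hp ?_
    exact_mod_cast hd

private theorem fin_cop {X D' R : ℕ} (h : D' * R < X) : (X - D' * R).Coprime R ↔ X.Coprime R := by
  conv_rhs => rw [show X = (X - D' * R) + D' * R from by omega]
  rw [Nat.coprime_add_mul_right_left]

open Classical in
private theorem fin_core (P : Prm) (W N D' a b r : ℕ) (hW : 0 < W) (hDa : D' * (W ^ 2 * N) ≤ a)
    (TX TY : Finset ℕ) (f : ℕ → ℝ) (E : ℝ)
    (hX : ∀ r' : ℕ, ∑ g ∈ TX, ∑ m ∈ TY, |∑ Z ∈ (Ioc a b).filter (fun Z => g ∣ Z ∧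
      (m : ℤ) ∣ (Z : ℤ) + (-((D' * (W ^ 2 * N) : ℕ) : ℤ)) ∧ Z ≡ r' [MOD W ^ 2] ∧
      Z.Coprime (W ^ 2 * N) ∧ Rough (MM P (W ^ 2 * N)) Z ∧
        RZ (MM P (W ^ 2 * N)) ((Z : ℤ) + (-((D' * (W ^ 2 * N) : ℕ) : ℤ)))), f Z| ≤ E)
    (hY : ∀ r' : ℕ, ∑ g ∈ TY, ∑ m ∈ TX,
      |∑ Z ∈ (Ioc (a - D' * (W ^ 2 * N)) (b - D' * (W ^ 2 * N))).filter (fun Z => g ∣ Z ∧
      (m : ℤ) ∣ (Z : ℤ) + ((D' * (W ^ 2 * N) : ℕ) : ℤ) ∧ Z ≡ r' [MOD W ^ 2] ∧
      Z.Coprime (W ^ 2 * N) ∧ Rough (MM P (W ^ 2 * N)) Z ∧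
        RZ (MM P (W ^ 2 * N)) ((Z : ℤ) + ((D' * (W ^ 2 * N) : ℕ) : ℤ))), f Z| ≤ E)
    (hf : ∀ X, D' * (W ^ 2 * N) < X →
      f (X - D' * (W ^ 2 * N)) - f X = lam (X - D' * (W ^ 2 * N)) - lam X) :
    ∑ t ∈ TX, ∑ t' ∈ TY,
      |(((PSW P W N D' a b r t t').filter fun X => lam X = -1 ∧ lam (X - D' * (W ^ 2 * N)) = 1).card : ℝ) -
        ((PSW P W N D' a b r t t').filter fun X => lam X = 1 ∧ lam (X - D' * (W ^ 2 * N)) = -1).card| ≤
      (W : ℝ) ^ 2 * E := by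
  set c : ℕ := D' * (W ^ 2 * N) with hc
  have hW2 : 0 < W ^ 2 := by positivity
  have hmem : ∀ t t' X, X ∈ PSW P W N D' a b r t t' ↔ (a < X ∧ X ≤ b) ∧ t ∣ X ∧ t' ∣ X - c ∧
      X ≡ r [MOD W] ∧ Rgh1 P (W ^ 2 * N) X ∧ Rgh1 P (W ^ 2 * N) (X - c) := by
    intro t t' X
    unfold PSW
    rw [Finset.mem_filter, Finset.mem_Ioc]
  have hcW : c ≡ 0 [MOD W ^ 2] := by
    rw [Nat.modEq_zero_iff_dvd]
    exact ⟨D' * N, by rw [hc]; ring⟩
  -- the two sums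
  set S1 : ℕ → ℕ → ℕ → ℝ := fun t t' r' => ∑ Z ∈ (Ioc a b).filter (fun Z => t ∣ Z ∧
      (t' : ℤ) ∣ (Z : ℤ) + (-(c : ℤ)) ∧ Z ≡ r' [MOD W ^ 2] ∧
      Z.Coprime (W ^ 2 * N) ∧ Rough (MM P (W ^ 2 * N)) Z ∧
        RZ (MM P (W ^ 2 * N)) ((Z : ℤ) + (-(c : ℤ)))), f Z with hS1
  set S2 : ℕ → ℕ → ℕ → ℝ := fun t' t r' => ∑ Z ∈ (Ioc (a - c) (b - c)).filter (fun Z => t' ∣ Z ∧
      (t : ℤ) ∣ (Z : ℤ) + (c : ℤ) ∧ Z ≡ r' [MOD W ^ 2] ∧
      Z.Coprime (W ^ 2 * N) ∧ Rough (MM P (W ^ 2 * N)) Z ∧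
        RZ (MM P (W ^ 2 * N)) ((Z : ℤ) + (c : ℤ))), f Z with hS2
  have hA : ∀ t t', |∑ X ∈ PSW P W N D' a b r t t', f X| ≤ ∑ r' ∈ range (W ^ 2), |S1 t t' r'| := by
    intro t t'
    rw [← Finset.sum_fiberwise_of_maps_to (s := PSW P W N D' a b r t t') (t := range (W ^ 2))
      (g := fun X => X % W ^ 2) (fun X _ => Finset.mem_range.mpr (Nat.mod_lt _ hW2))]
    refine (Finset.abs_sum_le_sum_abs _ _).trans (Finset.sum_le_sum fun r' hr' => ?_)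
    have hr'2 : r' % W ^ 2 = r' := Nat.mod_eq_of_lt (Finset.mem_range.mp hr')
    by_cases h : r' ≡ r [MOD W]
    · apply le_of_eq
      congr 1
      rw [hS1]
      apply Finset.sum_congr _ (fun _ _ => rfl)
      ext X
      rw [Finset.mem_filter, hmem, Finset.mem_filter, Finset.mem_Ioc]
      constructor
      · rintro ⟨⟨⟨h1, h2⟩, h3, h4, h5, h6, h7⟩, h8⟩
        have hcX : c < X := lt_of_le_of_lt hDa h1
        refine ⟨⟨h1, h2⟩, h3, (fin_dvd hcX).mpr h4, ?_, h6.1, h6.2, (fin_rz hcX).mpr h7.2⟩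
        unfold Nat.ModEq
        rw [h8, hr'2]
      · rintro ⟨⟨h1, h2⟩, h3, h4, h5, h6, h7, h8⟩
        have hcX : c < X := lt_of_le_of_lt hDa h1
        refine ⟨⟨⟨h1, h2⟩, h3, (fin_dvd hcX).mp h4, ?_, ⟨h6, h7⟩, ⟨(fin_cop hcX).mpr h6, (fin_rz hcX).mp h8⟩⟩, ?_⟩
        · exact (Nat.ModEq.of_dvd (Dvd.intro_left W (by ring)) h5).trans h
        · have h9 : X % W ^ 2 = r' % W ^ 2 := h5
          rw [h9, hr'2]
    · have : (PSW P W N D' a b r t t').filter (fun X => X % W ^ 2 = r') = ∅ := by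
        rw [Finset.filter_eq_empty_iff]
        intro X hX' h8
        apply h
        have h9 : X ≡ r' [MOD W ^ 2] := by
          unfold Nat.ModEq
          rw [h8, hr'2]
        exact (Nat.ModEq.of_dvd (Dvd.intro_left W (by ring)) h9.symm).trans (((hmem _ _ _).mp hX').2.2.2.1)
      rw [this, Finset.sum_empty, abs_zero]
      exact abs_nonneg _
  have hB : ∀ t t', |∑ X ∈ PSW P W N D' a b r t t', f (X - c)| ≤ ∑ r' ∈ range (W ^ 2), |S2 t' t r'| := by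
    intro t t'
    rw [← Finset.sum_fiberwise_of_maps_to (s := PSW P W N D' a b r t t') (t := range (W ^ 2))
      (g := fun X => X % W ^ 2) (fun X _ => Finset.mem_range.mpr (Nat.mod_lt _ hW2))]
    refine (Finset.abs_sum_le_sum_abs _ _).trans (Finset.sum_le_sum fun r' hr' => ?_)
    have hr'2 : r' % W ^ 2 = r' := Nat.mod_eq_of_lt (Finset.mem_range.mp hr')
    by_cases h : r' ≡ r [MOD W]
    · apply le_of_eq
      congr 1
      rw [hS2]
      refine Finset.sum_nbij' (fun X => X - c) (fun Z => Z + c) ?_ ?_ ?_ ?_ ?_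
      · intro X hX'
        rw [Finset.mem_filter, hmem] at hX'
        obtain ⟨⟨⟨h1, h2⟩, h3, h4, h5, h6, h7⟩, h8⟩ := hX'
        have hcX : c < X := lt_of_le_of_lt hDa h1
        rw [Finset.mem_filter, Finset.mem_Ioc]
        have h9 : (((X - c : ℕ) : ℤ) + (c : ℤ)) = (X : ℤ) := by
          rw [Nat.cast_sub hcX.le]; ring
        refine ⟨⟨by omega, by omega⟩, h4, ?_, ?_, h7.1, h7.2, ?_⟩
        · rw [h9]; exact_mod_cast h3
        · have h10 : X - c + c ≡ r' + 0 [MOD W ^ 2] := by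
            rw [Nat.sub_add_cancel hcX.le, add_zero]
            unfold Nat.ModEq
            rw [h8, hr'2]
          exact Nat.ModEq.add_right_cancel hcW h10
        · rw [fin_rz2, Nat.sub_add_cancel hcX.le]
          exact h6.2
      · intro Z hZ
        rw [Finset.mem_filter, Finset.mem_Ioc] at hZ
        obtain ⟨⟨h1, h2⟩, h3, h4, h5, h6, h7, h8⟩ := hZ
        rw [Finset.mem_filter, hmem]
        have h10 : Z + c - c = Z := by omega
        have hcb : c < b := by omega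
        have hcop : (Z + c).Coprime (W ^ 2 * N) := by
          rw [hc, Nat.coprime_add_mul_right_left]; exact h6
        have h11 : Z + c ≡ r' [MOD W ^ 2] := by
          have := Nat.ModEq.add h5 hcW
          rwa [add_zero] at this
        refine ⟨⟨⟨by omega, by omega⟩, by exact_mod_cast h4, by rw [h10]; exact h3, ?_, ⟨hcop, fin_rz2.mp h8⟩,
          by rw [h10]; exact ⟨h6, h7⟩⟩, ?_⟩
        · exact (Nat.ModEq.of_dvd (Dvd.intro_left W (by ring)) h11).trans h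
        · have h12 : (Z + c) % W ^ 2 = r' % W ^ 2 := h11
          rw [h12, hr'2]
      · intro X hX'
        rw [Finset.mem_filter, hmem] at hX'
        have hcX : c < X := lt_of_le_of_lt hDa hX'.1.1.1
        exact Nat.sub_add_cancel hcX.le
      · intro Z _
        exact Nat.add_sub_cancel Z c
      · intro X _
        rfl
    · have : (PSW P W N D' a b r t t').filter (fun X => X % W ^ 2 = r') = ∅ := by
        rw [Finset.filter_eq_empty_iff]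
        intro X hX' h8
        apply h
        have h9 : X ≡ r' [MOD W ^ 2] := by
          unfold Nat.ModEq
          rw [h8, hr'2]
        exact (Nat.ModEq.of_dvd (Dvd.intro_left W (by ring)) h9.symm).trans (((hmem _ _ _).mp hX').2.2.2.1)
      rw [this, Finset.sum_empty, abs_zero]
      exact abs_nonneg _
  have hC : ∀ t t', |(((PSW P W N D' a b r t t').filter fun X => lam X = -1 ∧ lam (X - c) = 1).card : ℝ) -
        ((PSW P W N D' a b r t t').filter fun X => lam X = 1 ∧ lam (X - c) = -1).card| ≤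
      1 / 2 * (∑ r' ∈ range (W ^ 2), |S1 t t' r'| + ∑ r' ∈ range (W ^ 2), |S2 t' t r'|) := by
    intro t t'
    have h1 : (((PSW P W N D' a b r t t').filter fun X => lam X = -1 ∧ lam (X - c) = 1).card : ℝ) -
        ((PSW P W N D' a b r t t').filter fun X => lam X = 1 ∧ lam (X - c) = -1).card =
        1 / 2 * (∑ X ∈ PSW P W N D' a b r t t', f (X - c) - ∑ X ∈ PSW P W N D' a b r t t', f X) := by
      rw [Finset.card_filter, Finset.card_filter]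
      push_cast
      rw [← Finset.sum_sub_distrib, ← Finset.sum_sub_distrib, Finset.mul_sum]
      apply Finset.sum_congr rfl
      intro X hX'
      have hcX : c < X := lt_of_le_of_lt hDa ((hmem _ _ _).mp hX').1.1
      rw [hf X hcX, fin_half (Pool.Agent.Lib.MP_45349e_nt.LS.abs_lam X) (Pool.Agent.Lib.MP_45349e_nt.LS.abs_lam (X - c))]
      ring
    rw [h1, abs_mul, abs_of_pos (by norm_num : (0 : ℝ) < 1 / 2)]
    apply mul_le_mul_of_nonneg_left _ (by norm_num)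
    refine (abs_sub _ _).trans ?_
    rw [add_comm]
    exact add_le_add (hA t t') (hB t t')
  calc ∑ t ∈ TX, ∑ t' ∈ TY,
      |(((PSW P W N D' a b r t t').filter fun X => lam X = -1 ∧ lam (X - c) = 1).card : ℝ) -
        ((PSW P W N D' a b r t t').filter fun X => lam X = 1 ∧ lam (X - c) = -1).card|
      ≤ ∑ t ∈ TX, ∑ t' ∈ TY, 1 / 2 * (∑ r' ∈ range (W ^ 2), |S1 t t' r'| + ∑ r' ∈ range (W ^ 2), |S2 t' t r'|) :=
        Finset.sum_le_sum fun t _ => Finset.sum_le_sum fun t' _ => hC t t'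
    _ = 1 / 2 * (∑ r' ∈ range (W ^ 2), ∑ t ∈ TX, ∑ t' ∈ TY, |S1 t t' r'| +
          ∑ r' ∈ range (W ^ 2), ∑ t' ∈ TY, ∑ t ∈ TX, |S2 t' t r'|) := by
        simp_rw [← Finset.mul_sum, Finset.sum_add_distrib]
        congr 1
        congr 1
        · rw [Finset.sum_comm' (s := range (W ^ 2)) (t := fun _ => TX) (t' := TX) (s' := fun _ => range (W ^ 2))
            (by intro x y; tauto)]
          apply Finset.sum_congr rfl
          intro t _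
          rw [Finset.sum_comm]
        · rw [Finset.sum_comm]
          rw [Finset.sum_comm' (s := range (W ^ 2)) (t := fun _ => TY) (t' := TY) (s' := fun _ => range (W ^ 2))
            (by intro x y; tauto)]
          apply Finset.sum_congr rfl
          intro t _
          rw [Finset.sum_comm]
    _ ≤ 1 / 2 * (∑ r' ∈ range (W ^ 2), E + ∑ r' ∈ range (W ^ 2), E) := by
        apply mul_le_mul_of_nonneg_left _ (by norm_num)
        exact add_le_add (Finset.sum_le_sum fun r' _ => hX r') (Finset.sum_le_sum fun r' _ => hY r')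
    _ = (W : ℝ) ^ 2 * E := by
        rw [Finset.sum_const, Finset.card_range]
        simp only [nsmul_eq_mul]
        push_cast
        ring

/-- the numerical conditions -/
private theorem fin_num (P : Prm) (hP : P.Ok) (W : ℕ) (hW : 0 < W) : ∃ N0 : ℕ, ∀ N : ℕ, N0 ≤ N →
    (W : ℝ) ^ 2 ≤ (Real.log N) ^ 2 ∧ 0 < Real.log N ∧ ∀ D : TCF.Dat, D.Ok P (W ^ 2 * N) →
      JJ (W ^ 2 * N) * MM P (W ^ 2 * N) ≤ D.y0 ∧ D.J1 ≤ D.y0 ∧
      (N : ℝ) ^ (-(1 / 10000) : ℝ) ≤ rho D.BX ∧ (N : ℝ) ^ (-(1 / 10000) : ℝ) ≤ rho D.BY := by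
  have h1 : Filter.Tendsto (fun N : ℕ => Real.log N) Filter.atTop Filter.atTop :=
    Real.tendsto_log_atTop.comp tendsto_natCast_atTop_atTop
  obtain ⟨N1, hN1⟩ := Filter.eventually_atTop.mp (h1.eventually_ge_atTop (max (W : ℝ) 1))
  refine ⟨max N1 (max 3 (W ^ 2)), fun N hN => ?_⟩
  have hNN1 : N1 ≤ N := (le_max_left _ _).trans hN
  have hN3 : 3 ≤ N := (le_max_left _ _).trans ((le_max_right _ _).trans hN)
  have hNW : W ^ 2 ≤ N := (le_max_right _ _).trans ((le_max_right _ _).trans hN)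
  have hlog := hN1 N hNN1
  have hlW : (W : ℝ) ≤ Real.log N := (le_max_left _ _).trans hlog
  have hl1 : 1 ≤ Real.log N := (le_max_right _ _).trans hlog
  refine ⟨pow_le_pow_left₀ (Nat.cast_nonneg W) hlW 2, by linarith, fun D hD => ?_⟩
  have hW2 : 0 < W ^ 2 := by positivity
  have hR3 : 3 ≤ W ^ 2 * N := by nlinarith
  have hJJ : 1 ≤ JJ (W ^ 2 * N) := by
    unfold JJ
    rw [Nat.one_le_ceil_iff]
    apply pow_pos
    apply Real.log_pos
    exact_mod_cast (by omega : 1 < W ^ 2 * N)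
  have hMM : 1 ≤ MM P (W ^ 2 * N) := by
    unfold MM
    exact Nat.one_le_two_pow
  have hJ2 : 0 < D.J2 := by
    have := hD.j02
    have h2 : 0 < 8 * JJ (W ^ 2 * N) * MM P (W ^ 2 * N) ^ 2 * D.J0 := by
      have := hD.j0
      positivity
    omega
  have hJ1 : 0 < D.J1 := by
    have := hD.j21
    have h2 : 0 < JJ (W ^ 2 * N) * D.J2 := by positivity
    omega
  have hJ21 : D.J2 ≤ D.J1 := by
    have h2 := hD.j21
    calc D.J2 = 1 * D.J2 := (one_mul _).symm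
      _ ≤ JJ (W ^ 2 * N) * D.J2 := Nat.mul_le_mul_right _ hJJ
      _ ≤ D.J1 := h2
  have hJ02 : D.J0 ≤ D.J2 := by
    have h2 := hD.j02
    have h3 : 1 ≤ 8 * JJ (W ^ 2 * N) * MM P (W ^ 2 * N) ^ 2 := by
      have : 0 < 8 * JJ (W ^ 2 * N) * MM P (W ^ 2 * N) ^ 2 := by positivity
      omega
    calc D.J0 = 1 * D.J0 := (one_mul _).symm
      _ ≤ _ := Nat.mul_le_mul_right _ h3
      _ ≤ D.J2 := h2
  have hy1 := hD.y1
  have hJ1y : D.J1 ≤ D.y0 := by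
    calc D.J1 = 1 * D.J1 := (one_mul _).symm
      _ ≤ (JJ (W ^ 2 * N) ^ 4 * MM P (W ^ 2 * N) ^ 4) * D.J1 := by
          apply Nat.mul_le_mul_right
          have : 0 < JJ (W ^ 2 * N) ^ 4 * MM P (W ^ 2 * N) ^ 4 := by positivity
          omega
      _ ≤ D.y0 := hy1
  have hJMy : JJ (W ^ 2 * N) * MM P (W ^ 2 * N) ≤ D.y0 := by
    calc JJ (W ^ 2 * N) * MM P (W ^ 2 * N)
        ≤ JJ (W ^ 2 * N) ^ 4 * MM P (W ^ 2 * N) ^ 4 :=
          Nat.mul_le_mul (Nat.le_self_pow (by norm_num) _) (Nat.le_self_pow (by norm_num) _)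
      _ = JJ (W ^ 2 * N) ^ 4 * MM P (W ^ 2 * N) ^ 4 * 1 := (mul_one _).symm
      _ ≤ JJ (W ^ 2 * N) ^ 4 * MM P (W ^ 2 * N) ^ 4 * D.J1 := Nat.mul_le_mul_left _ hJ1
      _ ≤ D.y0 := hy1
  -- the bound for y0
  have hNpos : (0 : ℝ) < N := by exact_mod_cast (by omega : 0 < N)
  have hN1' : (1 : ℝ) ≤ N := by exact_mod_cast (by omega : 1 ≤ N)
  have hy0 : (D.y0 : ℝ) ≤ (N : ℝ) ^ ((1 / 10000) : ℝ) := by
    refine hD.y2.trans ?_
    have h2 : ((W ^ 2 * N : ℕ) : ℝ) ≤ (N : ℝ) ^ (2 : ℝ) := by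
      rw [show (2 : ℝ) = ((2 : ℕ) : ℝ) by norm_num, Real.rpow_natCast]
      have : W ^ 2 * N ≤ N ^ 2 := by nlinarith
      exact_mod_cast this
    have hk0 := hP.kap0
    have hk1 := hP.kap1
    calc ((W ^ 2 * N : ℕ) : ℝ) ^ (P.kap / 1000) ≤ ((N : ℝ) ^ (2 : ℝ)) ^ (P.kap / 1000) :=
          Real.rpow_le_rpow (Nat.cast_nonneg _) h2 (by positivity)
      _ = (N : ℝ) ^ (2 * (P.kap / 1000)) := by rw [← Real.rpow_mul hNpos.le]
      _ ≤ (N : ℝ) ^ ((1 / 10000) : ℝ) := Real.rpow_le_rpow_of_exponent_le hN1' (by linarith)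
  have hy0pos : 0 < D.y0 := lt_of_lt_of_le hJ1 hJ1y
  have hinv : (N : ℝ) ^ (-(1 / 10000) : ℝ) ≤ 1 / (D.y0 : ℝ) := by
    rw [Real.rpow_neg hNpos.le, ← one_div]
    exact one_div_le_one_div_of_le (by exact_mod_cast hy0pos) hy0
  have hJJr : (1 : ℝ) ≤ (JJ (W ^ 2 * N) : ℝ) ^ 3 := one_le_pow₀ (by exact_mod_cast hJJ)
  have hgen : ∀ (J : ℕ) (ρ : ℝ), 0 < J → J ≤ D.y0 → (JJ (W ^ 2 * N) : ℝ) ^ 3 ≤ J * ρ →
      (N : ℝ) ^ (-(1 / 10000) : ℝ) ≤ ρ := by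
    intro J ρ hJ hJy h
    have hJr : (0 : ℝ) < J := by exact_mod_cast hJ
    have h3 : 1 ≤ (J : ℝ) * ρ := hJJr.trans h
    have h4 : 1 / (J : ℝ) ≤ ρ := by
      rw [div_le_iff₀ hJr]
      linarith [mul_comm ρ (J : ℝ)]
    refine hinv.trans (le_trans ?_ h4)
    exact one_div_le_one_div_of_le hJr (by exact_mod_cast hJy)
  exact ⟨hJMy, hJ1y, hgen D.J1 _ hJ1 hJ1y hD.jx, hgen D.J0 _ hD.j0 ((hJ02.trans hJ21).trans hJ1y) hD.jy⟩

theorem bal (P : Prm) (hP : P.Ok) (W : ℕ) (hW : 0 < W) (A Cj : ℕ) : ∃ N0 : ℕ, ∀ N : ℕ, N0 ≤ N → Even N →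
    ∀ D : TCF.Dat, D.Ok P (W ^ 2 * N) → ∀ D' a b r : ℕ, 0 < D' → D' ≤ D.J1 → D' * (W ^ 2 * N) ≤ a → a ≤ b →
    (b : ℝ) ≤ (Real.log N) ^ Cj * N →
    ∑ t ∈ TUP D.BX, ∑ t' ∈ TUP D.BY,
      |(((PSW P W N D' a b r t t').filter fun X => lam X = -1 ∧ lam (X - D' * (W ^ 2 * N)) = 1).card : ℝ) -
        ((PSW P W N D' a b r t t').filter fun X => lam X = 1 ∧ lam (X - D' * (W ^ 2 * N)) = -1).card| ≤
      rho D.BX * rho D.BY * N / (Real.log N) ^ A := by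
  obtain ⟨N1, h1⟩ := fin_num P hP W hW
  obtain ⟨N2, h2⟩ := sidG1 P hP W hW (A + 2) Cj
  refine ⟨max N1 N2, fun N hN hev D hD D' a b r hD' hDJ hDa hab hb => ?_⟩
  obtain ⟨hWl, hl, hall⟩ := h1 N ((le_max_left _ _).trans hN)
  obtain ⟨hJM, hJy, hrX, hrY⟩ := hall D hD
  have hs := h2 N ((le_max_right _ _).trans hN) hev
  have hcb : D' * (W ^ 2 * N) ≤ b := hDa.trans hab
  have hbc : ((b - D' * (W ^ 2 * N) : ℕ) : ℝ) ≤ (Real.log N) ^ Cj * N :=
    (Nat.cast_le.mpr (Nat.sub_le _ _)).trans hb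
  have hXb := fun r' => hs D.y0 D.nX D.nY D.BX D.BY hD.fx hD.fy hJM hrX hrY D' hD' (hDJ.trans hJy)
    (-((D' * (W ^ 2 * N) : ℕ) : ℤ)) (Or.inr rfl) a b r' hab hb
  have hYb := fun r' => hs D.y0 D.nY D.nX D.BY D.BX hD.fy hD.fx hJM hrY hrX D' hD' (hDJ.trans hJy)
    (((D' * (W ^ 2 * N) : ℕ) : ℤ)) (Or.inl rfl) (a - D' * (W ^ 2 * N)) (b - D' * (W ^ 2 * N)) r'
    (Nat.sub_le_sub_right hab _) hbc
  refine (fin_core P W N D' a b r hW hDa (TUP D.BX) (TUP D.BY) lam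
    (rho D.BX * rho D.BY * N / (Real.log N) ^ (A + 2)) hXb ?_ (fun X _ => rfl)).trans ?_
  · intro r'
    refine (hYb r').trans (le_of_eq ?_)
    ring
  · have hpos : 0 ≤ rho D.BX * rho D.BY * N := by
      have h3 : (0 : ℝ) ≤ rho D.BX := le_trans (Real.rpow_nonneg (Nat.cast_nonneg _) _) hrX
      have h4 : (0 : ℝ) ≤ rho D.BY := le_trans (Real.rpow_nonneg (Nat.cast_nonneg _) _) hrY
      positivity
    have hlA : 0 < (Real.log N) ^ A := pow_pos hl _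
    have hl2 : 0 < (Real.log N) ^ (A + 2) := pow_pos hl _
    rw [← mul_div_assoc, div_le_div_iff₀ hl2 hlA, pow_add]
    have h5 : (W : ℝ) ^ 2 * (rho D.BX * rho D.BY * N) ≤ (Real.log N) ^ 2 * (rho D.BX * rho D.BY * N) :=
      mul_le_mul_of_nonneg_right hWl hpos
    have h6 := mul_le_mul_of_nonneg_right h5 hlA.le
    linarith

theorem balc (P : Prm) (hP : P.Ok) (W : ℕ) (hW : 0 < W) (A Cj : ℕ) : ∃ N0 : ℕ, ∀ (N : ℕ) [NeZero (W ^ 2 * N)], N0 ≤ N → Even N →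
    ∀ χ : DirichletCharacter ℂ (W ^ 2 * N), χ ^ 2 = 1 → χ ≠ 1 →
    (∃ m : ℕ, m ≡ 1 [MOD W ^ 2] ∧ m.Coprime (W ^ 2 * N) ∧ χ (m : ZMod (W ^ 2 * N)) ≠ 1) →
    ∀ L : ℝ, 0 ≤ L → LV (W ^ 2 * N) (fun n => (χ (n : ZMod (W ^ 2 * N))).re) L →
    ∀ σ : ℝ, (N : ℝ) ^ (-(1 / 5000) : ℝ) ≤ σ → L ≤ (Real.log N) ^ 4 * σ →
    ∑ q ∈ (QP (fun n => (χ (n : ZMod (W ^ 2 * N))).re) ⌊(N : ℝ) ^ ((9 : ℝ) / 10)⌋₊).filter (fun q => MM P (W ^ 2 * N) < q), 1 / (q : ℝ) ≤ σ →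
    ∀ D : TCF.Dat, D.Ok P (W ^ 2 * N) → (∀ c, ∀ p ∈ D.BX c, χ (p : ZMod (W ^ 2 * N)) = -1) → (∀ c, ∀ p ∈ D.BY c, χ (p : ZMod (W ^ 2 * N)) = -1) →
    ∀ D' a b r : ℕ, 0 < D' → D' ≤ D.J1 → D' * (W ^ 2 * N) ≤ a → a ≤ b → (b : ℝ) ≤ (Real.log N) ^ Cj * N →
    ∑ t ∈ TUP D.BX, ∑ t' ∈ TUP D.BY,
      |(((PSW P W N D' a b r t t').filter fun X => lam X = -1 ∧ lam (X - D' * (W ^ 2 * N)) = 1).card : ℝ) -
        ((PSW P W N D' a b r t t').filter fun X => lam X = 1 ∧ lam (X - D' * (W ^ 2 * N)) = -1).card| ≤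
      σ * (rho D.BX * rho D.BY * N) / (Real.log N) ^ A := by
  obtain ⟨N1, h1⟩ := fin_num P hP W hW
  obtain ⟨N2, h2⟩ := sidG2 P hP W hW (A + 2) Cj
  refine ⟨max N1 N2, fun N _ hN hev χ hχ2 hχ1 hm0 L hL hLV σ hσl hLσ hσ D hD hBX hBY D' a b r hD' hDJ hDa hab hb => ?_⟩
  obtain ⟨hWl, hl, hall⟩ := h1 N ((le_max_left _ _).trans hN)
  obtain ⟨hJM, hJy, hrX, hrY⟩ := hall D hD
  have hs := h2 N ((le_max_right _ _).trans hN) hev χ hχ2 hχ1 hm0 L hL hLV σ hσl hLσ hσ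
  have hcb : D' * (W ^ 2 * N) ≤ b := hDa.trans hab
  have hbc : ((b - D' * (W ^ 2 * N) : ℕ) : ℝ) ≤ (Real.log N) ^ Cj * N :=
    (Nat.cast_le.mpr (Nat.sub_le _ _)).trans hb
  have hXb := fun r' => hs D.y0 D.nX D.nY D.BX D.BY hD.fx hD.fy hBX hJM hrX hrY D' hD' (hDJ.trans hJy)
    (-((D' * (W ^ 2 * N) : ℕ) : ℤ)) (Or.inr rfl) a b r' hab hb
  have hYb := fun r' => hs D.y0 D.nY D.nX D.BY D.BX hD.fy hD.fx hBY hJM hrY hrX D' hD' (hDJ.trans hJy)
    (((D' * (W ^ 2 * N) : ℕ) : ℤ)) (Or.inl rfl) (a - D' * (W ^ 2 * N)) (b - D' * (W ^ 2 * N)) r'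
    (Nat.sub_le_sub_right hab _) hbc
  refine (fin_core P W N D' a b r hW hDa (TUP D.BX) (TUP D.BY)
    (fun n => lam n - (χ (n : ZMod (W ^ 2 * N))).re)
    (σ * (rho D.BX * rho D.BY * N) / (Real.log N) ^ (A + 2)) hXb ?_ ?_).trans ?_
  · intro r'
    refine (hYb r').trans (le_of_eq ?_)
    ring
  · intro X hX
    have h3 : ((X - D' * (W ^ 2 * N) : ℕ) : ZMod (W ^ 2 * N)) = (X : ZMod (W ^ 2 * N)) := by
      rw [ZMod.natCast_eq_natCast_iff]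
      have h4 : X ≡ (X - D' * (W ^ 2 * N)) + D' * (W ^ 2 * N) [MOD W ^ 2 * N] := by
        rw [Nat.sub_add_cancel hX.le]
      refine (h4.trans ?_).symm
      unfold Nat.ModEq
      rw [Nat.add_mul_mod_self_right]
    rw [h3]
    ring
  · have hσ0 : 0 ≤ σ := le_trans (Real.rpow_nonneg (Nat.cast_nonneg _) _) hσl
    have hpos : 0 ≤ σ * (rho D.BX * rho D.BY * N) := by
      have h3 : (0 : ℝ) ≤ rho D.BX := le_trans (Real.rpow_nonneg (Nat.cast_nonneg _) _) hrX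
      have h4 : (0 : ℝ) ≤ rho D.BY := le_trans (Real.rpow_nonneg (Nat.cast_nonneg _) _) hrY
      positivity
    have hlA : 0 < (Real.log N) ^ A := pow_pos hl _
    have hl2 : 0 < (Real.log N) ^ (A + 2) := pow_pos hl _
    rw [← mul_div_assoc, div_le_div_iff₀ hl2 hlA, pow_add]
    have h5 := mul_le_mul_of_nonneg_right hWl hpos
    have h6 := mul_le_mul_of_nonneg_right h5 hlA.le
    linarith

end Pool.Agent.Lib.T3E
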