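import Pool.Agent.Lib.MP_7b7e48_nt.TCF.Sgl
import Pool.Agent.Lib.MP_7b7e48_nt.OW.OD

/-!
# T3E / Mass (90 minutes): the primes `q ≤ N^(1 - kap/2)` with `χ q = 1`; the hypotheses on the character

`K = log N` (`N` is the modulus), `c n = Re χ n`. `mass1`. PROOF. The `q ≤ N^(1 - kap)` contribute `sgm P χ`. For `q > N^(1-kap)`: dyadic blocks `(Y, 2 Y]`, `Y ≥ N^(9/10)`, `Y ≤ N`: `2 #{q ∈ (Y, 2Y] : χ q = 1} ≤ ∑_{n ≤ 2Y} (1 * c)(n) ≤ 2 L Y + (error) ≤ 3 L Y` (`RG`: the asymptotic formula for the summatory function `SS` of `rr c`, `RG.SS_asymp`, as in the proof of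
`RG.sig_lower` in `RG/A4b.lean`; or its upper bound `A4b_upper`; `L ≥ N^(-1/200)`), so each block contributes `≤ 3 L`, and there are `≤ 2 K` blocks: `≤ 6 K L ≤ 6 K^4 sgm`. Total `≤ K^5 sgm`.
`xsig`: as `TE/XB3.lean` (`xb_sig`), with the exponent `9/10` (`N^(9/10) ≤ R^(9/10) ≤ R^(1 - kap)`) and with the given `L`: `L ≤ (log R)^3 sgm ≤ (log N)^4 sgm`; `N^(-δ) ≤ sgm` from `TCF.sgl`.
-/

set_option autoImplicit false

open Finset
open Pool.Agent.Lib.RG (LV RC)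
open Pool.Agent.Lib.OW (QP)
open Pool.Agent.Lib.TCF (sgm QS)
open Pool.Agent.Lib.RH (Prm MM JJ)

namespace Pool.Agent.Lib.T3E

private theorem Mass_re {N : ℕ} (χ : DirichletCharacter ℂ N) (h2 : χ ^ 2 = 1) (q : ℕ) :
    (χ (q : ZMod N)).re = 1 ↔ χ (q : ZMod N) = 1 := by
  constructor
  · intro h
    by_cases hu : IsUnit (q : ZMod N)
    · have h3 : (χ (q : ZMod N)) ^ 2 = 1 := by
        rw [← MulChar.pow_apply' χ two_ne_zero, h2, MulChar.one_apply hu]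
      rcases mul_eq_zero.1 (show (χ (q : ZMod N) - 1) * (χ (q : ZMod N) + 1) = 0 by
        linear_combination h3) with h4 | h4
      · linear_combination h4
      · exfalso
        have h5 : χ (q : ZMod N) = -1 := by linear_combination h4
        rw [h5] at h
        norm_num at h
    · exfalso
      rw [MulChar.map_nonunit χ hu] at h
      norm_num at h
  · intro h
    rw [h]
    simp

/-- one dyadic block -/
private theorem Mass_block {N : ℕ} {c : ℕ → ℝ} (hc : RC N c) (j : ℕ) (S : Finset ℕ)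
    (hS : ∀ q ∈ S, q.Prime ∧ c q = 1 ∧ Nat.log 2 q = j) :
    ∑ q ∈ S, 1 / (q : ℝ) ≤ Pool.Agent.Lib.RG.SS c (2 ^ (j + 1)) / 2 / 2 ^ j := by
  have h1 : ∀ q ∈ S, 2 ^ j ≤ q ∧ q < 2 ^ (j + 1) := by
    intro q hq
    obtain ⟨hp, -, hl⟩ := hS q hq
    have h2 := Nat.pow_log_le_self 2 hp.ne_zero
    have h3 := Nat.lt_pow_succ_log_self (b := 2) (by norm_num) q
    rw [hl] at h2 h3
    exact ⟨h2, h3⟩
  have h2 : ∑ q ∈ S, 1 / (q : ℝ) ≤ ∑ q ∈ S, Pool.Agent.Lib.RG.rr c q * (1 / 2 / 2 ^ j) := by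
    refine Finset.sum_le_sum fun q hq => ?_
    obtain ⟨hp, hcq, -⟩ := hS q hq
    have h3 : Pool.Agent.Lib.RG.rr c q = 2 := by
      unfold Pool.Agent.Lib.RG.rr
      rw [Nat.Prime.divisors hp, Finset.sum_pair hp.one_lt.ne, hcq]
      have h4 : c 1 = 1 := by
        rcases hc.val 1 (Nat.coprime_one_left N) with h5 | h5
        · exact h5
        · have h6 := hc.mul 1 1
          rw [mul_one, h5] at h6
          norm_num at h6
      rw [h4]
      norm_num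
    rw [h3]
    have h5 : ((2 : ℝ) ^ j) ≤ q := by exact_mod_cast (h1 q hq).1
    have h6 : (0 : ℝ) < 2 ^ j := by positivity
    calc 1 / (q : ℝ) ≤ 1 / 2 ^ j := one_div_le_one_div_of_le h6 h5
      _ = 2 * (1 / 2 / 2 ^ j) := by ring
  refine h2.trans ?_
  rw [← Finset.sum_mul]
  have h3 : ∑ q ∈ S, Pool.Agent.Lib.RG.rr c q ≤ Pool.Agent.Lib.RG.SS c (2 ^ (j + 1)) := by
    unfold Pool.Agent.Lib.RG.SS
    refine Finset.sum_le_sum_of_subset_of_nonneg ?_ fun n _ _ => Pool.Agent.Lib.RG.rr_nonneg N c hc n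
    intro q hq
    rw [Finset.mem_Icc]
    have := h1 q hq
    have h4 := (hS q hq).1.one_lt
    exact ⟨by omega, by omega⟩
  calc (∑ q ∈ S, Pool.Agent.Lib.RG.rr c q) * (1 / 2 / 2 ^ j)
      ≤ Pool.Agent.Lib.RG.SS c (2 ^ (j + 1)) * (1 / 2 / 2 ^ j) :=
        mul_le_mul_of_nonneg_right h3 (by positivity)
    _ = _ := by ring

private theorem Mass_rpow (t C : ℝ) (ht : 0 < t) : ∀ᶠ N : ℕ in Filter.atTop, C ≤ (N : ℝ) ^ t :=
  ((tendsto_rpow_atTop ht).comp tendsto_natCast_atTop_atTop).eventually_ge_atTop C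

/-- the mass above `N ^ (9 / 10)` -/
private theorem Mass_big : ∃ N0 : ℕ, ∀ N : ℕ, N0 ≤ N → ∀ (c : ℕ → ℝ) (L : ℝ), RC N c → LV N c L →
    (N : ℝ) ^ (-(1 / 200) : ℝ) ≤ L → ∀ S : Finset ℕ,
    (∀ q ∈ S, q.Prime ∧ c q = 1 ∧ q ≤ N ∧ (N : ℝ) ^ ((9 : ℝ) / 10) ≤ q) →
    ∑ q ∈ S, 1 / (q : ℝ) ≤ 6 * Real.log N * L := by
  classical
  obtain ⟨C, hC, hSS⟩ := Pool.Agent.Lib.RG.SS_asymp
  obtain ⟨N1, hN1⟩ := Filter.eventually_atTop.mp ((Mass_rpow ((37 : ℝ) / 200) C (by norm_num)).and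
    (Pool.Agent.Lib.RH.ev_log_ge (2 : ℝ)))
  refine ⟨max N1 2, ?_⟩
  intro N hN c L hc hLV hL S hS
  have hNN1 : N1 ≤ N := (le_max_left _ _).trans hN
  have hN2 : 2 ≤ N := (le_max_right _ _).trans hN
  obtain ⟨f1, f2⟩ := hN1 N hNN1
  have hNr : (1 : ℝ) ≤ N := by exact_mod_cast (by omega : 1 ≤ N)
  have hN0 : (0 : ℝ) < N := by linarith
  have hL0 : 0 < L := lt_of_lt_of_le (by positivity) hL
  have hss := hSS N hN2 c L hc hLV
  have hmaps : ∀ q ∈ S, Nat.log 2 q ∈ Finset.range (Nat.log 2 N + 1) := by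
    intro q hq
    rw [Finset.mem_range, Nat.lt_succ_iff]
    exact Nat.log_mono_right (hS q hq).2.2.1
  rw [← Finset.sum_fiberwise_of_maps_to hmaps]
  have hblock : ∀ j ∈ Finset.range (Nat.log 2 N + 1),
      ∑ q ∈ S.filter (fun q => Nat.log 2 q = j), 1 / (q : ℝ) ≤ 2 * L := by
    intro j _
    by_cases hemp : S.filter (fun q => Nat.log 2 q = j) = ∅
    · rw [hemp, Finset.sum_empty]
      linarith
    obtain ⟨q0, hq0⟩ := Finset.nonempty_iff_ne_empty.mpr hemp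
    rw [Finset.mem_filter] at hq0
    have h1 := Mass_block hc j (S.filter (fun q => Nat.log 2 q = j)) (by
      intro q hq
      rw [Finset.mem_filter] at hq
      exact ⟨(hS q hq.1).1, (hS q hq.1).2.1, hq.2⟩)
    refine h1.trans ?_
    have h2 := (abs_le.mp (hss (2 ^ (j + 1)))).2
    have h3 : (q0 : ℝ) ≤ ((2 ^ (j + 1) : ℕ) : ℝ) := by
      have h4 := Nat.lt_pow_succ_log_self (b := 2) (by norm_num) q0
      rw [hq0.2] at h4
      exact_mod_cast h4.le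
    have h4 : (N : ℝ) ^ ((9 : ℝ) / 10) ≤ ((2 ^ (j + 1) : ℕ) : ℝ) := (hS q0 hq0.1).2.2.2.trans h3
    set y : ℝ := ((2 ^ (j + 1) : ℕ) : ℝ) with hy
    have hy0 : 0 < y := lt_of_lt_of_le (by positivity) h4
    have hy2 : y = 2 * 2 ^ j := by
      rw [hy]
      push_cast
      ring
    have h5 : Real.sqrt y * Real.sqrt y = y := Real.mul_self_sqrt hy0.le
    have h6 : (N : ℝ) ^ ((9 : ℝ) / 20) ≤ Real.sqrt y := by
      apply Real.le_sqrt_of_sq_le
      rw [← Real.rpow_natCast, ← Real.rpow_mul hN0.le]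
      refine le_trans (le_of_eq ?_) h4
      norm_num
    -- the error is at most `y L`
    have h7 : C * (N : ℝ) ^ ((13 : ℝ) / 50) ≤ Real.sqrt y * L := by
      have h8 : (N : ℝ) ^ ((37 : ℝ) / 200) * (N : ℝ) ^ ((13 : ℝ) / 50) =
          (N : ℝ) ^ ((9 : ℝ) / 20) * (N : ℝ) ^ (-(1 / 200) : ℝ) := by
        rw [← Real.rpow_add hN0, ← Real.rpow_add hN0]
        norm_num
      calc C * (N : ℝ) ^ ((13 : ℝ) / 50) ≤ (N : ℝ) ^ ((37 : ℝ) / 200) * (N : ℝ) ^ ((13 : ℝ) / 50) :=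
            mul_le_mul_of_nonneg_right f1 (by positivity)
        _ = (N : ℝ) ^ ((9 : ℝ) / 20) * (N : ℝ) ^ (-(1 / 200) : ℝ) := h8
        _ ≤ Real.sqrt y * L := mul_le_mul h6 hL (by positivity) (Real.sqrt_nonneg _)
    have h9 : C * Real.sqrt y * (N : ℝ) ^ ((13 : ℝ) / 50) ≤ y * L := by
      calc C * Real.sqrt y * (N : ℝ) ^ ((13 : ℝ) / 50) = Real.sqrt y * (C * (N : ℝ) ^ ((13 : ℝ) / 50)) := by ring
        _ ≤ Real.sqrt y * (Real.sqrt y * L) := mul_le_mul_of_nonneg_left h7 (Real.sqrt_nonneg _)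
        _ = y * L := by rw [← mul_assoc, h5]
    have h10 : Pool.Agent.Lib.RG.SS c (2 ^ (j + 1)) ≤ 2 * (y * L) := by linarith
    have hj : (0 : ℝ) < 2 ^ j := by positivity
    calc Pool.Agent.Lib.RG.SS c (2 ^ (j + 1)) / 2 / 2 ^ j ≤ (2 * (y * L)) / 2 / 2 ^ j := by gcongr
      _ = 2 * L := by
          rw [hy2]
          field_simp
  refine (Finset.sum_le_sum hblock).trans ?_
  rw [Finset.sum_const, Finset.card_range, nsmul_eq_mul]
  have h11 : ((Nat.log 2 N + 1 : ℕ) : ℝ) ≤ 3 * Real.log N := by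
    have h12 : ((2 ^ Nat.log 2 N : ℕ) : ℝ) ≤ N := by
      exact_mod_cast Nat.pow_log_le_self 2 (by omega)
    have h13 : (Nat.log 2 N : ℝ) * Real.log 2 ≤ Real.log N := by
      have h14 := Real.log_le_log (by positivity) h12
      push_cast at h14
      rwa [Real.log_pow] at h14
    have h15 : (1 : ℝ) / 2 ≤ Real.log 2 := by
      have := Real.log_two_gt_d9
      linarith
    have h16 : (0 : ℝ) ≤ (Nat.log 2 N : ℝ) := Nat.cast_nonneg _
    push_cast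
    nlinarith
  calc ((Nat.log 2 N + 1 : ℕ) : ℝ) * (2 * L) ≤ 3 * Real.log N * (2 * L) :=
        mul_le_mul_of_nonneg_right h11 (by linarith)
    _ = 6 * Real.log N * L := by ring

theorem mass1 (P : Prm) (hP : P.Ok) : ∃ N0 : ℕ, ∀ (N : ℕ) [NeZero N], N0 ≤ N → ∀ χ : DirichletCharacter ℂ N, χ ^ 2 = 1 → χ ≠ 1 →
    ∀ L : ℝ, LV N (fun n => (χ (n : ZMod N)).re) L → (N : ℝ) ^ (-(1 / 200) : ℝ) ≤ L → L ≤ (Real.log N) ^ 3 * sgm P χ →
    ∑ q ∈ (QS P χ).filter (fun q : ℕ => (q : ℝ) ≤ (N : ℝ) ^ (1 - P.kap / 2)), 1 / (q : ℝ) ≤ (Real.log N) ^ 5 * sgm P χ := by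
  classical
  obtain ⟨N1, hN1⟩ := Mass_big
  obtain ⟨N2, hN2⟩ := Filter.eventually_atTop.mp (Pool.Agent.Lib.RH.ev_log_ge (7 : ℝ))
  refine ⟨max (max N1 N2) 2, ?_⟩
  intro N _ hN χ h2 h1 L hLV hL hLs
  have hNa : N1 ≤ N := ((le_max_left _ _).trans (le_max_left _ _)).trans hN
  have hNb : N2 ≤ N := ((le_max_right _ _).trans (le_max_left _ _)).trans hN
  have hNc : 2 ≤ N := (le_max_right _ _).trans hN
  have hK := hN2 N hNb
  have hNr : (1 : ℝ) ≤ N := by exact_mod_cast (by omega : 1 ≤ N)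
  have hN0 : (0 : ℝ) < N := by linarith
  have hRC := Pool.Agent.Lib.RG.RC_char N hNc χ h2 h1
  have hsg : 0 ≤ sgm P χ := by
    unfold Pool.Agent.Lib.TCF.sgm
    exact sum_nonneg fun q _ => by positivity
  -- split
  have hsplit : ∑ q ∈ (QS P χ).filter (fun q : ℕ => (q : ℝ) ≤ (N : ℝ) ^ (1 - P.kap / 2)), 1 / (q : ℝ) ≤
      sgm P χ + ∑ q ∈ (QS P χ).filter (fun q : ℕ => ¬ (q : ℝ) ≤ (N : ℝ) ^ (1 - P.kap)), 1 / (q : ℝ) := by
    have h3 : sgm P χ + ∑ q ∈ (QS P χ).filter (fun q : ℕ => ¬ (q : ℝ) ≤ (N : ℝ) ^ (1 - P.kap)), 1 / (q : ℝ) =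
        ∑ q ∈ QS P χ, 1 / (q : ℝ) := by
      have h4 := Finset.sum_filter_add_sum_filter_not (QS P χ)
        (fun q : ℕ => (q : ℝ) ≤ (N : ℝ) ^ (1 - P.kap)) (fun q : ℕ => 1 / (q : ℝ))
      rw [← h4]
      unfold Pool.Agent.Lib.TCF.sgm Pool.Agent.Lib.TCF.QM
      congr 1
    rw [h3]
    exact Finset.sum_le_sum_of_subset_of_nonneg (Finset.filter_subset _ _) fun q _ _ => by positivity
  have hbig := hN1 N hNa (fun n => (χ (n : ZMod N)).re) L hRC hLV hL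
    ((QS P χ).filter (fun q : ℕ => ¬ (q : ℝ) ≤ (N : ℝ) ^ (1 - P.kap))) (by
      intro q hq
      rw [Finset.mem_filter] at hq
      obtain ⟨hq1, hq2⟩ := hq
      unfold Pool.Agent.Lib.TCF.QS at hq1
      simp only [Finset.mem_filter, Finset.mem_range] at hq1
      refine ⟨hq1.2.1, (Mass_re χ h2 q).2 hq1.2.2.2, by omega, ?_⟩
      refine le_trans ?_ (not_le.mp hq2).le
      apply Real.rpow_le_rpow_of_exponent_le hNr
      have := hP.kap1
      linarith)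
  have h5 : 6 * Real.log N * L ≤ 6 * Real.log N * ((Real.log N) ^ 3 * sgm P χ) :=
    mul_le_mul_of_nonneg_left hLs (by linarith)
  have hK4 : 1 ≤ Real.log (N : ℝ) ^ 4 := one_le_pow₀ (by linarith)
  calc ∑ q ∈ (QS P χ).filter (fun q : ℕ => (q : ℝ) ≤ (N : ℝ) ^ (1 - P.kap / 2)), 1 / (q : ℝ)
      ≤ sgm P χ + 6 * Real.log N * ((Real.log N) ^ 3 * sgm P χ) := by linarith
    _ = (1 + 6 * Real.log N ^ 4) * sgm P χ := by ring
    _ ≤ (Real.log N * Real.log N ^ 4) * sgm P χ := by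
        apply mul_le_mul_of_nonneg_right _ hsg
        nlinarith
    _ = Real.log N ^ 5 * sgm P χ := by ring

open Classical in
private theorem Mass_sig (P : Prm) (hP : P.Ok) (δ : ℝ) (hδ : 0 < δ) : ∃ N0 : ℕ, ∀ (N R : ℕ) [NeZero R], N0 ≤ N → N ≤ R → R ≤ N ^ 2 →
    ∀ χ : DirichletCharacter ℂ R, χ ^ 2 = 1 → χ ≠ 1 →
    (N : ℝ) ^ (-δ) ≤ sgm P χ ∧ (Real.log (R : ℝ)) ^ 3 * sgm P χ ≤ (Real.log N) ^ 4 * sgm P χ ∧
    ∑ q ∈ (QP (fun n => (χ (n : ZMod R)).re) ⌊(N : ℝ) ^ ((9 : ℝ) / 10)⌋₊).filter (fun q => MM P R < q), 1 / (q : ℝ) ≤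
      sgm P χ := by
  have he : 0 < min δ 1 / 4 := by
    have := lt_min hδ one_pos
    linarith
  obtain ⟨N1, hN1⟩ := Pool.Agent.Lib.TCF.sgl P hP (min δ 1 / 4) he
  obtain ⟨N2, hN2⟩ := Filter.eventually_atTop.1 (Pool.Agent.Lib.RH.ev_log_ge (8 : ℝ))
  obtain ⟨N3, hN3⟩ := Pool.Agent.Lib.RH.num P hP
  refine ⟨max (max N1 (max N3 N2)) 1, fun N R _ hN hNR hRN' χ h2 hne => ?_⟩
  have hNa : N1 ≤ N := (le_max_left _ _).trans ((le_max_left _ _).trans hN)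
  have hNn : N3 ≤ N := (le_max_left _ _).trans ((le_max_right _ _).trans ((le_max_left _ _).trans hN))
  have hNb : N2 ≤ N := (le_max_right _ _).trans ((le_max_right _ _).trans ((le_max_left _ _).trans hN))
  have hNd : 1 ≤ N := (le_max_right _ _).trans hN
  obtain ⟨-, hs⟩ := hN1 R (hNa.trans hNR) χ h2 hne
  have hnum := hN3 R (hNn.trans hNR)
  have hN1r : (1 : ℝ) ≤ N := by exact_mod_cast hNd
  have hRr : (N : ℝ) ≤ (R : ℝ) := by exact_mod_cast hNR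
  have hR1 : (1 : ℝ) ≤ (R : ℝ) := hN1r.trans hRr
  have hRN : (R : ℝ) ≤ (N : ℝ) ^ 2 := by exact_mod_cast hRN'
  have hlog : Real.log (R : ℝ) ≤ 2 * Real.log N := by
    have k := Real.log_le_log (by linarith) hRN
    rw [Real.log_pow] at k
    exact_mod_cast k
  have hK := hN2 N hNb
  have hl0 : 0 ≤ Real.log (R : ℝ) := Real.log_nonneg hR1
  have hsg : 0 ≤ sgm P χ := by
    unfold Pool.Agent.Lib.TCF.sgm
    exact sum_nonneg fun q _ => by positivity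
  refine ⟨?_, ?_, ?_⟩
  · have hJ : (1 : ℝ) ≤ (JJ R : ℝ) := by
      refine le_trans ?_ hnum.J1
      have := hnum.K
      exact one_le_pow₀ (by linarith)
    have hR0 : (0 : ℝ) < R := by linarith
    have k1 : (R : ℝ) ^ (1 - min δ 1 / 4) ≤ sgm P χ * R := by
      refine hs.trans ?_
      apply div_le_self (by positivity)
      exact one_le_pow₀ hJ
    rw [Real.rpow_sub hR0, Real.rpow_one, div_le_iff₀ (by positivity)] at k1
    have k2 : 1 ≤ sgm P χ * (R : ℝ) ^ (min δ 1 / 4) := by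
      have k3 : (R : ℝ) * 1 ≤ R * (sgm P χ * (R : ℝ) ^ (min δ 1 / 4)) := by linarith
      exact le_of_mul_le_mul_left k3 hR0
    have k4 : (R : ℝ) ^ (min δ 1 / 4) ≤ (N : ℝ) ^ δ := by
      calc (R : ℝ) ^ (min δ 1 / 4) ≤ ((N : ℝ) ^ 2) ^ (min δ 1 / 4) :=
            Real.rpow_le_rpow hR0.le hRN he.le
        _ = (N : ℝ) ^ (2 * (min δ 1 / 4)) := by
            rw [← Real.rpow_natCast, ← Real.rpow_mul (by linarith)]
            norm_num
        _ ≤ (N : ℝ) ^ δ := by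
            apply Real.rpow_le_rpow_of_exponent_le hN1r
            have := min_le_left δ 1
            linarith
    rw [Real.rpow_neg (by linarith)]
    have hNδ : 0 < (N : ℝ) ^ δ := Real.rpow_pos_of_pos (by linarith) _
    rw [inv_le_iff_one_le_mul₀ hNδ]
    exact k2.trans (mul_le_mul_of_nonneg_left k4 hsg)
  · refine mul_le_mul_of_nonneg_right ?_ hsg
    calc Real.log (R : ℝ) ^ 3 ≤ (2 * Real.log N) ^ 3 := pow_le_pow_left₀ hl0 hlog 3
      _ = 8 * Real.log N ^ 3 := by ring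
      _ ≤ Real.log N * Real.log N ^ 3 := mul_le_mul_of_nonneg_right hK (by positivity)
      _ = Real.log N ^ 4 := by ring
  · unfold Pool.Agent.Lib.TCF.sgm
    apply sum_le_sum_of_subset_of_nonneg
    · intro q hq'
      unfold Pool.Agent.Lib.OW.QP at hq'
      unfold Pool.Agent.Lib.TCF.QM Pool.Agent.Lib.TCF.QS
      simp only [mem_filter, mem_range] at hq' ⊢
      obtain ⟨⟨hq1, hq2, hq3⟩, hq4⟩ := hq'
      have hqN : (q : ℝ) ≤ (N : ℝ) ^ ((9 : ℝ) / 10) :=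
        (Nat.le_floor_iff (by positivity)).1 (by omega)
      have hqR : (q : ℝ) ≤ (R : ℝ) ^ (1 - P.kap) := by
        refine hqN.trans ?_
        calc (N : ℝ) ^ ((9 : ℝ) / 10) ≤ (R : ℝ) ^ ((9 : ℝ) / 10) :=
              Real.rpow_le_rpow (by linarith) hRr (by norm_num)
          _ ≤ (R : ℝ) ^ (1 - P.kap) := by
              apply Real.rpow_le_rpow_of_exponent_le hR1
              have := hP.kap1
              linarith
      have hqR1 : (q : ℝ) ≤ R := by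
        refine hqR.trans ?_
        calc (R : ℝ) ^ (1 - P.kap) ≤ (R : ℝ) ^ (1 : ℝ) :=
              Real.rpow_le_rpow_of_exponent_le hR1 (by linarith [hP.kap0])
          _ = R := Real.rpow_one _
      have hqR2 : q ≤ R := by exact_mod_cast hqR1
      exact ⟨⟨by omega, hq2, hq4, (Mass_re χ h2 q).1 hq3⟩, hqR⟩
    · intro q _ _
      positivity

open Classical in
theorem xsig (P : Prm) (hP : P.Ok) (W : ℕ) (hW : 1 ≤ W) (δ : ℝ) (hδ : 0 < δ) : ∃ N0 : ℕ, ∀ (N : ℕ) [NeZero (W ^ 2 * N)], N0 ≤ N →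
    ∀ χ : DirichletCharacter ℂ (W ^ 2 * N), χ ^ 2 = 1 → χ ≠ 1 →
    (N : ℝ) ^ (-δ) ≤ sgm P χ ∧ (Real.log ((W ^ 2 * N : ℕ) : ℝ)) ^ 3 * sgm P χ ≤ (Real.log N) ^ 4 * sgm P χ ∧
    ∑ q ∈ (QP (fun n => (χ (n : ZMod (W ^ 2 * N))).re) ⌊(N : ℝ) ^ ((9 : ℝ) / 10)⌋₊).filter (fun q => MM P (W ^ 2 * N) < q), 1 / (q : ℝ) ≤
      sgm P χ := by
  have hq : 1 ≤ W ^ 2 := Nat.one_le_pow _ _ hW
  obtain ⟨N1, hN1⟩ := Mass_sig P hP δ hδ
  refine ⟨max N1 (W ^ 2), fun N _ hN χ h2 hne => ?_⟩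
  have hNa : N1 ≤ N := (le_max_left _ _).trans hN
  have hNc : W ^ 2 ≤ N := (le_max_right _ _).trans hN
  refine hN1 N (W ^ 2 * N) hNa (Nat.le_mul_of_pos_left N hq) ?_ χ h2 hne
  rw [pow_two N]
  exact Nat.mul_le_mul_right N hNc

end Pool.Agent.Lib.T3E
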