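import Pool.Agent.Lib.MP_7b7e48_nt.TE.Defs

/-!
# T3E / Def: linear forms `G n + H`, definitions

`RZ w a`: all prime factors of the integer `a` are `> w`. `HN N H`: every prime factor of `N` divides `H`. In the applications `H = ± D N`, `n` is coprime to `N`, and the primes which divide `D` but not `N` are `≤ wa`: for them `p ∣ G n + H` iff `p ∣ n`.
-/

set_option autoImplicit false

open Finset

namespace Pool.Agent.Lib.T3E

/-- all prime factors of `a` are `> w` -/
def RZ (w : ℕ) (a : ℤ) : Prop := ∀ p : ℕ, p.Prime → (p : ℤ) ∣ a → w < p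

/-- every prime factor of `N` divides `H` -/
def HN (N : ℕ) (H : ℤ) : Prop := ∀ p : ℕ, p.Prime → p ∣ N → (p : ℤ) ∣ H

/-- the small primes which divide `H` but not `N` are `≤ wa` and do not divide `G` -/
def HG (N wa wb G : ℕ) (H : ℤ) : Prop := ∀ p : ℕ, p.Prime → p ≤ wb → (p : ℤ) ∣ H → ¬ p ∣ N → p ≤ wa ∧ ¬ p ∣ G

end Pool.Agent.Lib.T3E
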