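import Pool.Agent.Lib.MP_7b7e48_nt.T3E.Red
import Pool.Agent.Lib.MP_7b7e48_nt.TE.Esb
import Pool.Agent.Lib.MP_7b7e48_nt.TE.GBV
import Pool.Agent.Lib.MP_7b7e48_nt.TE.Sift
import Pool.Agent.Lib.MP_7b7e48_nt.TE.ExtH

/-!
# T3E / Gb (120 minutes): `lam` in sifted progressions (copy of `TE/GBVS.lean` for the form `G n + H`)

PROOF. As `TE/GBVS.lean` with `N - G n` replaced by the integer `G n + H`. `P1 = {p ≤ wa prime, p ∤ m N}`, `P2 = {p ≤ wb prime, p ∤ m, p ∤ H}` (so `p ∤ N` by `hH`). For `n ≡ c (m)`, `n` coprime to `N`, `Rough wa n` iff no `p ∈ P1` divides `n`. Given `Rough wa n`: `RZ wb (G n + H)` iff no `p ∈ P2` divides `G n + H` and no `p ≤ wb`, `p ∣ m`, divides `G c + H`: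
`p ∣ N`: `p ∣ H` (`hH`), `p ∤ G n`, so `p ∤ G n + H`; `p ∣ H`, `p ∤ N m`: `p ∣ G n + H` iff `p ∣ G n` iff `p ∣ n` (`HG`: `p ∤ G`), impossible as `p ≤ wa`. So the inner sum is `0` or the sum over the `n` sifted by `P1, P2`. The rest (`sift`, `redF`, `redF_card`, `esb1`, `esb2`, `extH`, `gbv`) is unchanged. The length satisfies `T ≤ N` (hypothesis of `gbv`).
-/

set_option autoImplicit false

open Finset
open Pool.Agent.Lib.GT (Rough)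
open Pool.Agent.Lib.MP_45349e_nt.LS (lam)
open Pool.Agent.Lib.TE (FN zC T0C sift esb1 esb2 extH gbv)

namespace Pool.Agent.Lib.T3E

private noncomputable def gJ (N m c G T : ℕ) (H : ℤ) (d1 d2 : ℕ) : ℝ :=
  ∑ e ∈ (Icc 1 T).filter (fun e => e ≡ c [MOD m] ∧ d1 ∣ e ∧ (d2 : ℤ) ∣ ((G : ℤ) * e + H)), FN N e

private noncomputable def gJa (N m c G T : ℕ) (H : ℤ) (d1 d2 : ℕ) : ℝ :=
  ∑ e ∈ (Icc 1 T).filter (fun e => e ≡ c [MOD m] ∧ d1 ∣ e ∧ (d2 : ℤ) ∣ ((G : ℤ) * e + H)), |FN N e|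

private def gP (m N w : ℕ) : Finset ℕ := (range (w + 1)).filter (fun p => p.Prime ∧ ¬ p ∣ m * N)

private theorem gP_mem {m N w p : ℕ} : p ∈ gP m N w ↔ p ≤ w ∧ p.Prime ∧ ¬ p ∣ m * N := by
  unfold gP
  rw [mem_filter, mem_range, Nat.lt_succ_iff]

private noncomputable def gQ (m : ℕ) (H : ℤ) (w : ℕ) : Finset ℕ :=
  open Classical in (range (w + 1)).filter (fun p => p.Prime ∧ ¬ p ∣ m ∧ ¬ (p : ℤ) ∣ H)

private theorem gQ_mem {m : ℕ} {H : ℤ} {w p : ℕ} : p ∈ gQ m H w ↔ p ≤ w ∧ p.Prime ∧ ¬ p ∣ m ∧ ¬ (p : ℤ) ∣ H := by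
  unfold gQ
  rw [mem_filter, mem_range, Nat.lt_succ_iff]

private theorem g_prodz (S : Finset ℕ) (hS : ∀ p ∈ S, p.Prime) (e : ℤ) :
    (∀ p ∈ S, (p : ℤ) ∣ e) ↔ ((∏ p ∈ S, p : ℕ) : ℤ) ∣ e := by
  rw [Int.natCast_dvd]
  constructor
  · intro h
    exact Finset.prod_primes_dvd _ (fun p hp => (hS p hp).prime) fun p hp => Int.natCast_dvd.1 (h p hp)
  · intro h p hp
    exact Int.natCast_dvd.2 ((Finset.dvd_prod_of_mem (fun q => q) hp).trans h)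

private theorem g_prod (S : Finset ℕ) (hS : ∀ p ∈ S, p.Prime) (e : ℕ) :
    (∀ p ∈ S, p ∣ e) ↔ (∏ p ∈ S, p) ∣ e :=
  ⟨fun h => Finset.prod_primes_dvd e (fun p hp => (hS p hp).prime) h,
    fun h p hp => (Finset.dvd_prod_of_mem (fun q => q) hp).trans h⟩

private theorem g_sqf (S : Finset ℕ) (hS : ∀ p ∈ S, p.Prime) : Squarefree (∏ p ∈ S, p) := by
  classical
  induction S using Finset.induction_on with
  | empty => rw [prod_empty]; exact squarefree_one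
  | insert p S hp ih =>
    rw [prod_insert hp]
    have h1 : p.Prime := hS p (mem_insert_self p S)
    have h2 : ∀ q ∈ S, q.Prime := fun q hq => hS q (mem_insert_of_mem hq)
    have h3 : p.Coprime (∏ q ∈ S, q) := by
      apply Nat.Coprime.prod_right
      intro q hq
      rw [Nat.coprime_primes h1 (h2 q hq)]
      rintro rfl
      exact hp hq
    rw [Nat.squarefree_mul h3]
    exact ⟨h1.squarefree, ih h2⟩

private theorem g_cop {m N w : ℕ} (S : Finset ℕ) (hS : S ⊆ gP m N w) :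
    (∏ p ∈ S, p).Coprime (m * N) := by
  apply Nat.Coprime.prod_left
  intro p hp
  have h := gP_mem.1 (hS hp)
  exact (Nat.Prime.coprime_iff_not_dvd h.2.1).2 h.2.2

private theorem g_pr {m N w : ℕ} (S : Finset ℕ) (hS : S ⊆ gP m N w) : ∀ p ∈ S, p.Prime :=
  fun p hp => (gP_mem.1 (hS hp)).2.1

private theorem g_qr {m : ℕ} {H : ℤ} {w : ℕ} (S : Finset ℕ) (hS : S ⊆ gQ m H w) : ∀ p ∈ S, p.Prime :=
  fun p hp => (gQ_mem.1 (hS hp)).2.1

private theorem g_qcop {m : ℕ} {H : ℤ} {w : ℕ} (S : Finset ℕ) (hS : S ⊆ gQ m H w) :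
    (∏ p ∈ S, p).Coprime m := by
  apply Nat.Coprime.prod_left
  intro p hp
  have h := gQ_mem.1 (hS hp)
  exact (Nat.Prime.coprime_iff_not_dvd h.2.1).2 h.2.2.1

private theorem g_qH {m : ℕ} {H : ℤ} {w : ℕ} (S : Finset ℕ) (hS : S ⊆ gQ m H w) :
    ∀ p : ℕ, p.Prime → p ∣ ∏ q ∈ S, q → ¬ (p : ℤ) ∣ H := by
  intro p hp hd
  obtain ⟨q, hq, hpq⟩ := (Prime.dvd_finset_prod_iff hp.prime _).1 hd
  have h := gQ_mem.1 (hS hq)
  rw [(Nat.prime_dvd_prime_iff_eq hp h.2.1).1 hpq]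
  exact h.2.2.2

open Classical in
private theorem g_red {N m c G T wa wb : ℕ} {H : ℤ} (hc : c.Coprime m) (hG : G.Coprime N) (hHG : HG N wa wb G H) :
    |∑ n ∈ (Icc 1 T).filter (fun n => n ≡ c [MOD m] ∧ Rough wa n ∧ RZ wb ((G : ℤ) * n + H)), FN N n| ≤
    |∑ n ∈ ((Icc 1 T).filter (fun n => n ≡ c [MOD m])).filter
      (fun n => (∀ p ∈ gP m N wa, ¬ p ∣ n) ∧ ∀ p ∈ gQ m H wb, ¬ (p : ℤ) ∣ ((G : ℤ) * n + H)), FN N n| := by
  by_cases hbad : ∃ p : ℕ, p.Prime ∧ p ≤ wb ∧ p ∣ m ∧ (p : ℤ) ∣ (G : ℤ) * c + H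
  · obtain ⟨p, hp, hpw, hpm, hpd⟩ := hbad
    have h0 : ∑ n ∈ (Icc 1 T).filter (fun n => n ≡ c [MOD m] ∧ Rough wa n ∧ RZ wb ((G : ℤ) * n + H)),
        FN N n = 0 := by
      rw [sum_filter]
      apply sum_eq_zero
      intro n hn
      rw [if_neg]
      rintro ⟨h1, _, h3⟩
      have h4 : (m : ℤ) ∣ (c : ℤ) - n := (Nat.modEq_iff_dvd).1 h1
      have h5 : (p : ℤ) ∣ (c : ℤ) - n := (Int.natCast_dvd_natCast.2 hpm).trans h4
      have h6 : (p : ℤ) ∣ (G : ℤ) * n + H := by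
        have h7 : (G : ℤ) * n + H = ((G : ℤ) * c + H) - G * (c - n) := by ring
        rw [h7]
        exact dvd_sub hpd (h5.mul_left _)
      have h9 := h3 p hp h6
      omega
    rw [h0, abs_zero]
    exact abs_nonneg _
  · apply le_of_eq
    congr 1
    rw [filter_filter, sum_filter, sum_filter]
    refine sum_congr rfl fun n hn => ?_
    by_cases hcop : n.Coprime N
    · refine if_congr ?_ rfl rfl
      constructor
      · rintro ⟨h1, h2, h3⟩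
        refine ⟨h1, fun p hp hpn => ?_, fun p hp hpn => ?_⟩
        · have h4 := gP_mem.1 hp
          have h5 := h2 p h4.2.1 hpn
          omega
        · have h4 := gQ_mem.1 hp
          have h5 := h3 p h4.2.1 hpn
          omega
      · rintro ⟨h1, h2, h3⟩
        have hro : Rough wa n := by
          intro p hp hpn
          by_contra hlt
          have h4 : p ∣ m * N := by
            by_contra h5
            exact h2 p (gP_mem.2 ⟨by omega, hp, h5⟩) hpn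
          rcases (Nat.Prime.dvd_mul hp).1 h4 with h5 | h5
          · have h6 : n ≡ c [MOD p] := h1.of_dvd h5
            have h7 : p ∣ c := (h6.dvd_iff dvd_rfl).1 hpn
            exact Nat.Prime.one_lt hp |>.ne' (Nat.dvd_one.1 (hc ▸ Nat.dvd_gcd h7 h5))
          · exact Nat.Prime.one_lt hp |>.ne' (Nat.dvd_one.1 (hcop ▸ Nat.dvd_gcd hpn h5))
        refine ⟨h1, hro, fun p hp hpn => ?_⟩
        by_contra hlt
        by_cases hpm : p ∣ m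
        · apply hbad
          refine ⟨p, hp, by omega, hpm, ?_⟩
          have h7 : (m : ℤ) ∣ (c : ℤ) - n := (Nat.modEq_iff_dvd).1 h1
          have h8 : (p : ℤ) ∣ (c : ℤ) - n := (Int.natCast_dvd_natCast.2 hpm).trans h7
          have h10 : (G : ℤ) * c + H = ((G : ℤ) * n + H) + G * (c - n) := by ring
          rw [h10]
          exact dvd_add hpn (h8.mul_left _)
        · by_cases hpH : (p : ℤ) ∣ H
          · have h6 : (p : ℤ) ∣ (G : ℤ) * n := (Int.dvd_add_left hpH).1 hpn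
            have h6' : p ∣ G * n := by
              have h7 : (p : ℤ) ∣ ((G * n : ℕ) : ℤ) := by push_cast; exact h6
              exact Int.natCast_dvd_natCast.1 h7
            by_cases hpN : p ∣ N
            · rcases (Nat.Prime.dvd_mul hp).1 h6' with h7 | h7
              · exact Nat.Prime.one_lt hp |>.ne' (Nat.dvd_one.1 (hG ▸ Nat.dvd_gcd h7 hpN))
              · exact Nat.Prime.one_lt hp |>.ne' (Nat.dvd_one.1 (hcop ▸ Nat.dvd_gcd h7 hpN))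
            · obtain ⟨k1, k2⟩ := hHG p hp (by omega) hpH hpN
              have h7 := ((Nat.Prime.dvd_mul hp).1 h6').resolve_left k2
              have h8 := hro p hp h7
              omega
          · exact h3 p (gQ_mem.2 ⟨by omega, hp, hpm, hpH⟩) hpn
    · have h0 : FN N n = 0 := by
        unfold FN
        rw [if_neg hcop]
      rw [h0]
      split_ifs <;> rfl

private theorem g_sift0 {ι : Type} (E : Finset ι) (f : ι → ℝ) (P1 P2 : Finset ℕ)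
    (R1 R2 : ι → ℕ → Prop) [i1 : ∀ e p, Decidable (R1 e p)] [i2 : ∀ e p, Decidable (R2 e p)] (T : ℕ)
    (hT : 1 ≤ T) :
    |∑ e ∈ E.filter (fun e => (∀ p ∈ P1, ¬ R1 e p) ∧ ∀ p ∈ P2, ¬ R2 e p), f e -
      ∑ S1 ∈ P1.powerset.filter (fun S => S.card < T), ∑ S2 ∈ P2.powerset.filter (fun S => S.card < T),
        (-1 : ℝ) ^ (S1.card + S2.card) * ∑ e ∈ E.filter (fun e => (∀ p ∈ S1, R1 e p) ∧ ∀ p ∈ S2, R2 e p), f e| ≤
      ∑ S1 ∈ P1.powersetCard T, ∑ e ∈ E.filter (fun e => ∀ p ∈ S1, R1 e p), |f e| +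
      ∑ S2 ∈ P2.powersetCard T, ∑ e ∈ E.filter (fun e => ∀ p ∈ S2, R2 e p), |f e| +
      ∑ S1 ∈ P1.powersetCard T, ∑ S2 ∈ P2.powersetCard T,
        ∑ e ∈ E.filter (fun e => (∀ p ∈ S1, R1 e p) ∧ ∀ p ∈ S2, R2 e p), |f e| := by
  have j1 : i1 = fun e p => Classical.propDecidable (R1 e p) := by
    funext e p
    exact Subsingleton.elim _ _
  have j2 : i2 = fun e p => Classical.propDecidable (R2 e p) := by
    funext e p
    exact Subsingleton.elim _ _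
  subst j1
  subst j2
  exact sift E f P1 P2 R1 R2 T hT

open Classical in
private theorem g_sift {N m c G T wa wb : ℕ} {H : ℤ} (T0 : ℕ) (hT0 : 1 ≤ T0) :
    |∑ n ∈ ((Icc 1 T).filter (fun n => n ≡ c [MOD m])).filter
      (fun n => (∀ p ∈ gP m N wa, ¬ p ∣ n) ∧ ∀ p ∈ gQ m H wb, ¬ (p : ℤ) ∣ ((G : ℤ) * n + H)), FN N n| ≤
    ∑ S1 ∈ (gP m N wa).powerset.filter (fun S => S.card < T0),
      ∑ S2 ∈ (gQ m H wb).powerset.filter (fun S => S.card < T0),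
        |gJ N m c G T H (∏ p ∈ S1, p) (∏ p ∈ S2, p)| +
    (∑ S1 ∈ (gP m N wa).powersetCard T0, gJa N m c G T H (∏ p ∈ S1, p) 1 +
      ∑ S2 ∈ (gQ m H wb).powersetCard T0, gJa N m c G T H 1 (∏ p ∈ S2, p) +
      ∑ S1 ∈ (gP m N wa).powersetCard T0, ∑ S2 ∈ (gQ m H wb).powersetCard T0,
        gJa N m c G T H (∏ p ∈ S1, p) (∏ p ∈ S2, p)) := by
  have h := g_sift0 ((Icc 1 T).filter (fun n => n ≡ c [MOD m])) (FN N) (gP m N wa) (gQ m H wb)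
    (fun n p => p ∣ n) (fun n p => (p : ℤ) ∣ ((G : ℤ) * n + H)) T0 hT0
  have e1 : ∀ S1 : Finset ℕ, S1 ⊆ gP m N wa → ∀ S2 : Finset ℕ, S2 ⊆ gQ m H wb →
      ((Icc 1 T).filter (fun n => n ≡ c [MOD m])).filter
        (fun e => (∀ p ∈ S1, p ∣ e) ∧ ∀ p ∈ S2, (p : ℤ) ∣ ((G : ℤ) * e + H)) =
      (Icc 1 T).filter (fun e => e ≡ c [MOD m] ∧ (∏ p ∈ S1, p) ∣ e ∧ ((∏ p ∈ S2, p : ℕ) : ℤ) ∣ ((G : ℤ) * e + H)) := by
    intro S1 hS1 S2 hS2
    rw [filter_filter]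
    refine filter_congr fun e _ => ?_
    rw [g_prod S1 (g_pr S1 hS1), g_prodz S2 (g_qr S2 hS2)]
  have e2 : ∀ S1 : Finset ℕ, S1 ⊆ gP m N wa →
      ((Icc 1 T).filter (fun n => n ≡ c [MOD m])).filter (fun e => ∀ p ∈ S1, p ∣ e) =
      (Icc 1 T).filter (fun e => e ≡ c [MOD m] ∧ (∏ p ∈ S1, p) ∣ e ∧ ((1 : ℕ) : ℤ) ∣ ((G : ℤ) * e + H)) := by
    intro S1 hS1
    rw [filter_filter]
    refine filter_congr fun e _ => ?_
    rw [g_prod S1 (g_pr S1 hS1)]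
    exact ⟨fun h => ⟨h.1, h.2, by rw [Nat.cast_one]; exact one_dvd _⟩, fun h => ⟨h.1, h.2.1⟩⟩
  have e3 : ∀ S2 : Finset ℕ, S2 ⊆ gQ m H wb →
      ((Icc 1 T).filter (fun n => n ≡ c [MOD m])).filter (fun e : ℕ => ∀ p ∈ S2, (p : ℤ) ∣ ((G : ℤ) * (e : ℤ) + H)) =
      (Icc 1 T).filter (fun e => e ≡ c [MOD m] ∧ 1 ∣ e ∧ ((∏ p ∈ S2, p : ℕ) : ℤ) ∣ ((G : ℤ) * e + H)) := by
    intro S2 hS2
    rw [filter_filter]
    refine filter_congr fun e _ => ?_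
    rw [g_prodz S2 (g_qr S2 hS2)]
    exact ⟨fun h => ⟨h.1, one_dvd _, h.2⟩, fun h => ⟨h.1, h.2.2⟩⟩
  have hsub : ∀ w T1, ∀ S ∈ (gP m N w).powersetCard T1, S ⊆ gP m N w :=
    fun w T1 S hS => (mem_powersetCard.1 hS).1
  have hsubq : ∀ w T1, ∀ S ∈ (gQ m H w).powersetCard T1, S ⊆ gQ m H w :=
    fun w T1 S hS => (mem_powersetCard.1 hS).1
  have hmain : |∑ S1 ∈ (gP m N wa).powerset.filter (fun S => S.card < T0),
      ∑ S2 ∈ (gQ m H wb).powerset.filter (fun S => S.card < T0),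
        (-1 : ℝ) ^ (S1.card + S2.card) * ∑ e ∈ ((Icc 1 T).filter (fun n => n ≡ c [MOD m])).filter
          (fun e => (∀ p ∈ S1, p ∣ e) ∧ ∀ p ∈ S2, (p : ℤ) ∣ ((G : ℤ) * e + H)), FN N e| ≤
      ∑ S1 ∈ (gP m N wa).powerset.filter (fun S => S.card < T0),
        ∑ S2 ∈ (gQ m H wb).powerset.filter (fun S => S.card < T0),
          |gJ N m c G T H (∏ p ∈ S1, p) (∏ p ∈ S2, p)| := by
    refine (abs_sum_le_sum_abs _ _).trans (sum_le_sum fun S1 hS1 => ?_)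
    refine (abs_sum_le_sum_abs _ _).trans (sum_le_sum fun S2 hS2 => ?_)
    rw [mem_filter, mem_powerset] at hS1 hS2
    rw [abs_mul, abs_pow, abs_neg, abs_one, one_pow, one_mul]
    unfold gJ
    rw [e1 S1 hS1.1 S2 hS2.1]
  have r1 : ∑ S1 ∈ (gP m N wa).powersetCard T0,
      ∑ e ∈ ((Icc 1 T).filter (fun n => n ≡ c [MOD m])).filter (fun e => ∀ p ∈ S1, p ∣ e), |FN N e| =
      ∑ S1 ∈ (gP m N wa).powersetCard T0, gJa N m c G T H (∏ p ∈ S1, p) 1 := by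
    refine sum_congr rfl fun S1 hS1 => ?_
    unfold gJa
    rw [e2 S1 (hsub _ _ S1 hS1)]
  have r2 : ∑ S2 ∈ (gQ m H wb).powersetCard T0,
      ∑ e ∈ ((Icc 1 T).filter (fun n => n ≡ c [MOD m])).filter (fun e : ℕ => ∀ p ∈ S2, (p : ℤ) ∣ ((G : ℤ) * (e : ℤ) + H)),
        |FN N e| = ∑ S2 ∈ (gQ m H wb).powersetCard T0, gJa N m c G T H 1 (∏ p ∈ S2, p) := by
    refine sum_congr rfl fun S2 hS2 => ?_
    unfold gJa
    rw [e3 S2 (hsubq _ _ S2 hS2)]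
  have r3 : ∑ S1 ∈ (gP m N wa).powersetCard T0, ∑ S2 ∈ (gQ m H wb).powersetCard T0,
      ∑ e ∈ ((Icc 1 T).filter (fun n => n ≡ c [MOD m])).filter
        (fun e => (∀ p ∈ S1, p ∣ e) ∧ ∀ p ∈ S2, (p : ℤ) ∣ ((G : ℤ) * e + H)), |FN N e| =
      ∑ S1 ∈ (gP m N wa).powersetCard T0, ∑ S2 ∈ (gQ m H wb).powersetCard T0,
        gJa N m c G T H (∏ p ∈ S1, p) (∏ p ∈ S2, p) := by
    refine sum_congr rfl fun S1 hS1 => sum_congr rfl fun S2 hS2 => ?_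
    unfold gJa
    rw [e1 S1 (hsub _ _ S1 hS1) S2 (hsubq _ _ S2 hS2)]
  rw [← r1, ← r2, ← r3]
  have h2 := abs_sub_abs_le_abs_sub (∑ e ∈ ((Icc 1 T).filter (fun n => n ≡ c [MOD m])).filter
      (fun n => (∀ p ∈ gP m N wa, ¬ p ∣ n) ∧ ∀ p ∈ gQ m H wb, ¬ (p : ℤ) ∣ ((G : ℤ) * n + H)), FN N e)
    (∑ S1 ∈ (gP m N wa).powerset.filter (fun S => S.card < T0),
      ∑ S2 ∈ (gQ m H wb).powerset.filter (fun S => S.card < T0),
        (-1 : ℝ) ^ (S1.card + S2.card) * ∑ e ∈ ((Icc 1 T).filter (fun n => n ≡ c [MOD m])).filter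
          (fun e => (∀ p ∈ S1, p ∣ e) ∧ ∀ p ∈ S2, (p : ℤ) ∣ ((G : ℤ) * e + H)), FN N e)
  linarith [h, h2, hmain]


private theorem g_one {N m c G T wa wb : ℕ} {H : ℤ} (hN : 1 ≤ N) (hm : 1 ≤ m) (hc : c.Coprime m)
    (S1 S2 : Finset ℕ) (hS1 : S1 ⊆ gP m N wa) (hS2 : S2 ⊆ gQ m H wb) :
    gJa N m c G T H (∏ p ∈ S1, p) (∏ p ∈ S2, p) ≤
      (T : ℝ) / m * ((∏ p ∈ S1, (1 / (p : ℝ))) * ∏ p ∈ S2, (1 / (p : ℝ))) + 1 := by
  have h := redF_card (G := G) (T := T) hN hm hc (g_sqf S1 (g_pr S1 hS1)) (g_sqf S2 (g_qr S2 hS2))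
    (g_cop S1 hS1) (g_qcop S2 hS2) (g_qH S2 hS2)
  unfold gJa
  refine h.trans (le_of_eq ?_)
  simp only [one_div, Finset.prod_inv_distrib]
  push_cast
  rw [div_eq_mul_inv, div_eq_mul_inv, mul_inv, mul_inv]
  ring

private theorem g_err {N m c G T wa wb T0 : ℕ} {H : ℤ} (hN : 1 ≤ N) (hm : 1 ≤ m) (hc : c.Coprime m)
    (ε Q : ℝ) (hε0 : 0 ≤ ε) (hε1 : ε ≤ 1) (hQ : 1 ≤ Q)
    (h1 : ∑ S ∈ (gP m N wa).powersetCard T0, ∏ p ∈ S, (1 / (p : ℝ)) ≤ ε)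
    (h2 : ∑ S ∈ (gQ m H wb).powersetCard T0, ∏ p ∈ S, (1 / (p : ℝ)) ≤ ε)
    (n1 : ((((gP m N wa).powersetCard T0).card : ℕ) : ℝ) ≤ Q)
    (n2 : ((((gQ m H wb).powersetCard T0).card : ℕ) : ℝ) ≤ Q) :
    (∑ S1 ∈ (gP m N wa).powersetCard T0, gJa N m c G T H (∏ p ∈ S1, p) 1 +
      ∑ S2 ∈ (gQ m H wb).powersetCard T0, gJa N m c G T H 1 (∏ p ∈ S2, p) +
      ∑ S1 ∈ (gP m N wa).powersetCard T0, ∑ S2 ∈ (gQ m H wb).powersetCard T0,
        gJa N m c G T H (∏ p ∈ S1, p) (∏ p ∈ S2, p)) ≤ 3 * ε * ((T : ℝ) / m) + 3 * Q ^ 2 := by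
  have hsub : ∀ w T1, ∀ S ∈ (gP m N w).powersetCard T1, S ⊆ gP m N w :=
    fun w T1 S hS => (mem_powersetCard.1 hS).1
  have hsubq : ∀ w T1, ∀ S ∈ (gQ m H w).powersetCard T1, S ⊆ gQ m H w :=
    fun w T1 S hS => (mem_powersetCard.1 hS).1
  have hTm : (0 : ℝ) ≤ (T : ℝ) / m := by positivity
  have e1 : ∑ S1 ∈ (gP m N wa).powersetCard T0, gJa N m c G T H (∏ p ∈ S1, p) 1 ≤
      (T : ℝ) / m * ε + Q := by
    calc ∑ S1 ∈ (gP m N wa).powersetCard T0, gJa N m c G T H (∏ p ∈ S1, p) 1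
        ≤ ∑ S1 ∈ (gP m N wa).powersetCard T0, ((T : ℝ) / m * (∏ p ∈ S1, (1 / (p : ℝ))) + 1) := by
          refine sum_le_sum fun S1 hS1 => ?_
          have h := g_one (G := G) (T := T) (H := H) hN hm hc (wb := wb) S1 ∅ (hsub _ _ S1 hS1) (empty_subset _)
          rw [prod_empty, prod_empty, mul_one] at h
          exact h
      _ = (T : ℝ) / m * (∑ S1 ∈ (gP m N wa).powersetCard T0, ∏ p ∈ S1, (1 / (p : ℝ))) +
          (((gP m N wa).powersetCard T0).card : ℕ) := by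
          rw [sum_add_distrib, ← mul_sum, sum_const, nsmul_eq_mul, mul_one]
      _ ≤ (T : ℝ) / m * ε + Q := add_le_add (mul_le_mul_of_nonneg_left h1 hTm) n1
  have e2 : ∑ S2 ∈ (gQ m H wb).powersetCard T0, gJa N m c G T H 1 (∏ p ∈ S2, p) ≤
      (T : ℝ) / m * ε + Q := by
    calc ∑ S2 ∈ (gQ m H wb).powersetCard T0, gJa N m c G T H 1 (∏ p ∈ S2, p)
        ≤ ∑ S2 ∈ (gQ m H wb).powersetCard T0, ((T : ℝ) / m * (∏ p ∈ S2, (1 / (p : ℝ))) + 1) := by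
          refine sum_le_sum fun S2 hS2 => ?_
          have h := g_one (G := G) (T := T) hN hm hc (wa := wa) ∅ S2 (empty_subset _) (hsubq _ _ S2 hS2)
          rw [prod_empty, prod_empty, one_mul] at h
          exact h
      _ = (T : ℝ) / m * (∑ S2 ∈ (gQ m H wb).powersetCard T0, ∏ p ∈ S2, (1 / (p : ℝ))) +
          (((gQ m H wb).powersetCard T0).card : ℕ) := by
          rw [sum_add_distrib, ← mul_sum, sum_const, nsmul_eq_mul, mul_one]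
      _ ≤ (T : ℝ) / m * ε + Q := add_le_add (mul_le_mul_of_nonneg_left h2 hTm) n2
  have e3 : ∑ S1 ∈ (gP m N wa).powersetCard T0, ∑ S2 ∈ (gQ m H wb).powersetCard T0,
      gJa N m c G T H (∏ p ∈ S1, p) (∏ p ∈ S2, p) ≤ (T : ℝ) / m * ε + Q ^ 2 := by
    have hs1 : 0 ≤ ∑ S ∈ (gP m N wa).powersetCard T0, ∏ p ∈ S, (1 / (p : ℝ)) :=
      sum_nonneg fun S _ => prod_nonneg fun p _ => by positivity
    have hs2 : 0 ≤ ∑ S ∈ (gQ m H wb).powersetCard T0, ∏ p ∈ S, (1 / (p : ℝ)) :=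
      sum_nonneg fun S _ => prod_nonneg fun p _ => by positivity
    calc ∑ S1 ∈ (gP m N wa).powersetCard T0, ∑ S2 ∈ (gQ m H wb).powersetCard T0,
          gJa N m c G T H (∏ p ∈ S1, p) (∏ p ∈ S2, p)
        ≤ ∑ S1 ∈ (gP m N wa).powersetCard T0, ∑ S2 ∈ (gQ m H wb).powersetCard T0,
          ((T : ℝ) / m * ((∏ p ∈ S1, (1 / (p : ℝ))) * ∏ p ∈ S2, (1 / (p : ℝ))) + 1) := by
          refine sum_le_sum fun S1 hS1 => sum_le_sum fun S2 hS2 => ?_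
          exact g_one hN hm hc S1 S2 (hsub _ _ S1 hS1) (hsubq _ _ S2 hS2)
      _ = (T : ℝ) / m * ((∑ S1 ∈ (gP m N wa).powersetCard T0, ∏ p ∈ S1, (1 / (p : ℝ))) *
          ∑ S2 ∈ (gQ m H wb).powersetCard T0, ∏ p ∈ S2, (1 / (p : ℝ))) +
          (((gP m N wa).powersetCard T0).card : ℕ) * (((gQ m H wb).powersetCard T0).card : ℕ) := by
          rw [Finset.sum_mul_sum, mul_sum]
          simp only [sum_add_distrib, mul_sum, sum_const, nsmul_eq_mul, mul_one]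
      _ ≤ (T : ℝ) / m * (ε * 1) + Q * Q := by
          refine add_le_add (mul_le_mul_of_nonneg_left ?_ hTm) ?_
          · exact mul_le_mul h1 (h2.trans hε1) hs2 hε0
          · exact mul_le_mul n1 n2 (Nat.cast_nonneg _) (by linarith)
      _ = (T : ℝ) / m * ε + Q ^ 2 := by ring
  have hQ2 : Q ≤ Q ^ 2 := by nlinarith
  nlinarith [e1, e2, e3]

private theorem g_num (A : ℕ) : ∃ N0 : ℕ, ∀ N : ℕ, N0 ≤ N → 1 ≤ N ∧ 3 ≤ Real.log N ∧
    (N : ℝ) ^ ((1 : ℝ) / 7) + 1 ≤ (N : ℝ) ^ ((1 : ℝ) / 6) / (N : ℝ) ^ ((1 : ℝ) / 5000) ∧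
    24 * (Real.log N) ^ A * (((N : ℝ) ^ ((1 : ℝ) / 5000)) ^ 2 * (N : ℝ) ^ ((1 : ℝ) / 1500)) ≤
      (N : ℝ) ^ ((1 : ℝ) / 6) := by
  have hlog : Filter.Tendsto (fun N : ℕ => Real.log N) Filter.atTop Filter.atTop :=
    Real.tendsto_log_atTop.comp tendsto_natCast_atTop_atTop
  have h1 := hlog.eventually_ge_atTop 100
  have h2 : Filter.Tendsto (fun x : ℝ => ((1 / 10 : ℝ) * x) ^ A * Real.exp (-((1 / 10 : ℝ) * x)))
      Filter.atTop (nhds 0) :=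
    (Real.tendsto_pow_mul_exp_neg_atTop_nhds_zero A).comp
      (Filter.tendsto_id.const_mul_atTop (by norm_num : (0 : ℝ) < 1 / 10))
  have h3 := (h2.comp hlog).eventually (gt_mem_nhds
    (show (0 : ℝ) < (1 / 24) * (1 / 10) ^ A by positivity))
  obtain ⟨N0, hN0⟩ := Filter.eventually_atTop.1 (h1.and h3)
  refine ⟨max N0 1, fun N hN => ?_⟩
  rw [max_le_iff] at hN
  obtain ⟨a1, a2⟩ := hN0 N hN.1
  have hN1 : 1 ≤ N := hN.2
  have hNR : (0 : ℝ) < N := by exact_mod_cast hN1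
  have hL : (0 : ℝ) < Real.log N := by linarith
  have hpow : ∀ a : ℝ, (N : ℝ) ^ a = Real.exp (Real.log N * a) := fun a => Real.rpow_def_of_pos hNR a
  refine ⟨hN1, by linarith, ?_, ?_⟩
  · rw [← Real.rpow_sub hNR, hpow, hpow]
    have e1 : Real.log N * (1 / 6 - 1 / 5000) =
        Real.log N * (1 / 7) + Real.log N * (1 / 6 - 1 / 5000 - 1 / 7) := by ring
    rw [e1, Real.exp_add]
    have e2 : (2 : ℝ) ≤ Real.exp (Real.log N * (1 / 6 - 1 / 5000 - 1 / 7)) := by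
      have e3 := Real.add_one_le_exp (Real.log N * (1 / 6 - 1 / 5000 - 1 / 7))
      have e4 : (1 : ℝ) ≤ Real.log N * (1 / 6 - 1 / 5000 - 1 / 7) := by
        have : (100 : ℝ) * (1 / 6 - 1 / 5000 - 1 / 7) ≤
            Real.log N * (1 / 6 - 1 / 5000 - 1 / 7) :=
          mul_le_mul_of_nonneg_right a1 (by norm_num)
        refine le_trans ?_ this
        norm_num
      linarith
    have e5 : (1 : ℝ) ≤ Real.exp (Real.log N * (1 / 7)) := Real.one_le_exp (by positivity)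
    nlinarith [e2, e5]
  · have e1 : ((N : ℝ) ^ ((1 : ℝ) / 5000)) ^ 2 * (N : ℝ) ^ ((1 : ℝ) / 1500) =
        Real.exp (Real.log N * (2 / 5000 + 1 / 1500)) := by
      rw [hpow, hpow, ← Real.exp_nat_mul, ← Real.exp_add]
      congr 1
      push_cast
      ring
    rw [e1, hpow]
    have e2 : Real.log N * (1 / 6) = Real.log N * (2 / 5000 + 1 / 1500) + Real.log N * (1 / 10) +
        Real.log N * (1 / 6 - 2 / 5000 - 1 / 1500 - 1 / 10) := by ring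
    rw [e2, Real.exp_add, Real.exp_add]
    have e3 : (1 : ℝ) ≤ Real.exp (Real.log N * (1 / 6 - 2 / 5000 - 1 / 1500 - 1 / 10)) :=
      Real.one_le_exp (mul_nonneg hL.le (by norm_num))
    have e4 : 24 * (Real.log N) ^ A ≤ Real.exp (Real.log N * (1 / 10)) := by
      have b1 : ((1 / 10 : ℝ) * Real.log N) ^ A * Real.exp (-((1 / 10 : ℝ) * Real.log N)) <
          (1 / 24) * (1 / 10) ^ A := a2
      rw [mul_pow, Real.exp_neg, mul_assoc, mul_comm (1 / 24 : ℝ)] at b1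
      have b2 : (Real.log N) ^ A * (Real.exp ((1 / 10 : ℝ) * Real.log N))⁻¹ < 1 / 24 :=
        lt_of_mul_lt_mul_left b1 (by positivity)
      have b3 : 0 < Real.exp ((1 / 10 : ℝ) * Real.log N) := Real.exp_pos _
      rw [← div_eq_mul_inv, div_lt_iff₀ b3] at b2
      rw [mul_comm (Real.log N)]
      linarith
    have e5 : 0 < Real.exp (Real.log N * (2 / 5000 + 1 / 1500)) := Real.exp_pos _
    have e6 : 0 < Real.exp (Real.log N * (1 / 10)) := Real.exp_pos _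
    calc 24 * (Real.log N) ^ A * Real.exp (Real.log N * (2 / 5000 + 1 / 1500))
        ≤ Real.exp (Real.log N * (1 / 10)) * Real.exp (Real.log N * (2 / 5000 + 1 / 1500)) :=
          mul_le_mul_of_nonneg_right e4 e5.le
      _ = Real.exp (Real.log N * (2 / 5000 + 1 / 1500)) * Real.exp (Real.log N * (1 / 10)) * 1 := by
          ring
      _ ≤ _ := mul_le_mul_of_nonneg_left e3 (by positivity)


open Classical in
private theorem g_main {A : ℕ} {C1 e : ℝ} {N : ℕ} {wa wb : ℕ} {H : ℤ} (hwa : wa ≤ zC C1 N)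
    (hwb : wb ≤ zC C1 N) (hN1 : 1 ≤ N)
    (hnum : (N : ℝ) ^ ((1 : ℝ) / 7) + 1 ≤ (N : ℝ) ^ ((1 : ℝ) / 6) / (N : ℝ) ^ ((1 : ℝ) / 5000))
    (hE2 : ∀ P : Finset ℕ, (∀ p ∈ P, p.Prime ∧ p ≤ zC C1 N) → ∀ S ∈ P.powerset, S.card ≤ T0C C1 N →
      ((∏ p ∈ S, p : ℕ) : ℝ) ≤ (N : ℝ) ^ ((1 : ℝ) / 5000))
    (hExt : ∀ (ι : Type) (X : Finset ι)
      (m T : ι → ℕ) (P1 P2 : ι → Finset ℕ) (Th : ℝ), 0 ≤ Th →
      (∀ x ∈ X, 1 ≤ m x ∧ (m x : ℝ) ≤ (N : ℝ) ^ ((1 : ℝ) / 1500) ∧ (∀ p ∈ P1 x, p.Prime ∧ p ≤ zC C1 N) ∧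
        ∀ p ∈ P2 x, p.Prime ∧ p ≤ zC C1 N ∧ ¬ p ∣ m x) →
      (∀ j : ℕ, 1 ≤ j → ∑ x ∈ X.filter (fun x => j ∣ m x), (T x : ℝ) / m x ≤
        Th * ((j : ℝ) ^ (-(1 / 2) : ℝ) + (N : ℝ) ^ (-e))) →
      ∀ j : ℕ, 1 ≤ j → ∑ x ∈ X, ∑ S1 ∈ (P1 x).powerset.filter (fun S => S.card ≤ T0C C1 N),
        ∑ S2 ∈ (P2 x).powerset.filter (fun S => S.card ≤ T0C C1 N ∧ j ∣ m x * ∏ p ∈ S, p),
          (T x : ℝ) / (m x * (∏ p ∈ S1, (p : ℝ)) * ∏ p ∈ S2, (p : ℝ)) ≤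
        (Real.log N) ^ 11 * Th * ((j : ℝ) ^ (-(1 / 4) : ℝ) + (N : ℝ) ^ (-(e / 2))))
    (hgbv : ∀ (ι : Type) (X : Finset ι) (m c T : ι → ℕ)
      (Th : ℝ), 0 ≤ Th →
      (∀ x ∈ X, 1 ≤ m x ∧ (m x : ℝ) ≤ (N : ℝ) ^ ((1 : ℝ) / 1000) ∧ (c x).Coprime (m x) ∧
        (N : ℝ) ^ ((1 : ℝ) / 7) ≤ T x ∧ T x ≤ N) →
      (∀ j : ℕ, 1 ≤ j → ∑ x ∈ X.filter (fun x => j ∣ m x), (T x : ℝ) / m x ≤
        Th * ((j : ℝ) ^ (-(1 / 4) : ℝ) + (N : ℝ) ^ (-(e / 2)))) →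
      ∑ x ∈ X, |∑ n ∈ (Icc 1 (T x)).filter (fun n => n ≡ c x [MOD m x]), FN N n| ≤
        Th / (Real.log N) ^ (A + 13))
    {ι : Type} (X : Finset ι) (m c G T : ι → ℕ) (Th : ℝ) (hTh : 0 ≤ Th) (hlog : 0 ≤ Real.log N)
    (hX : ∀ x ∈ X, 1 ≤ m x ∧ (m x : ℝ) ≤ (N : ℝ) ^ ((1 : ℝ) / 1500) ∧ (c x).Coprime (m x) ∧
      (G x).Coprime N ∧ HG N wa wb (G x) H ∧ (N : ℝ) ^ ((1 : ℝ) / 6) ≤ T x ∧ T x ≤ N)
    (hj : ∀ j : ℕ, 1 ≤ j → ∑ x ∈ X.filter (fun x => j ∣ m x), (T x : ℝ) / m x ≤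
      Th * ((j : ℝ) ^ (-(1 / 2) : ℝ) + (N : ℝ) ^ (-e))) :
    ∑ x ∈ X, ∑ S1 ∈ (gP (m x) N wa).powerset.filter (fun S => S.card < T0C C1 N),
      ∑ S2 ∈ (gQ (m x) H wb).powerset.filter (fun S => S.card < T0C C1 N),
        |gJ N (m x) (c x) (G x) (T x) H (∏ p ∈ S1, p) (∏ p ∈ S2, p)| ≤
      (Real.log N) ^ 11 * Th / (Real.log N) ^ (A + 13) := by
  have hNR : (0 : ℝ) < N := by exact_mod_cast hN1
  have hN1R : (1 : ℝ) ≤ N := by exact_mod_cast hN1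
  obtain ⟨Y, hY⟩ : ∃ Y : Finset (Σ _ : ι, Finset ℕ × Finset ℕ), Y = X.sigma (fun x =>
      ((gP (m x) N wa).powerset.filter (fun S => S.card < T0C C1 N)) ×ˢ
        ((gQ (m x) H wb).powerset.filter (fun S => S.card < T0C C1 N))) := ⟨_, rfl⟩
  have hYm : ∀ y ∈ Y, y.1 ∈ X ∧ y.2.1 ⊆ gP (m y.1) N wa ∧ y.2.1.card < T0C C1 N ∧
      y.2.2 ⊆ gQ (m y.1) H wb ∧ y.2.2.card < T0C C1 N := by
    intro y hy
    rw [hY, mem_sigma, mem_product, mem_filter, mem_filter, mem_powerset, mem_powerset] at hy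
    exact ⟨hy.1, hy.2.1.1, hy.2.1.2, hy.2.2.1, hy.2.2.2⟩
  have hc' : ∀ y ∈ Y, ∃ c'' : ℕ, c''.Coprime (m y.1 * ∏ p ∈ y.2.2, p) ∧
      |gJ N (m y.1) (c y.1) (G y.1) (T y.1) H (∏ p ∈ y.2.1, p) (∏ p ∈ y.2.2, p)| ≤
      |∑ n ∈ (Icc 1 (T y.1 / ∏ p ∈ y.2.1, p)).filter
        (fun n => n ≡ c'' [MOD m y.1 * ∏ p ∈ y.2.2, p]), FN N n| := by
    intro y hy
    obtain ⟨h1, h2, _, h3, _⟩ := hYm y hy
    obtain ⟨x1, _, x3, _, _, _, _⟩ := hX y.1 h1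
    rcases redF (G := G y.1) (T := T y.1) hN1 x1 x3 (g_sqf _ (g_pr _ h2)) (g_sqf _ (g_qr _ h3)) (g_cop _ h2)
      (g_qcop _ h3) (g_qH _ h3) with h | ⟨c'', hc1, hc2⟩
    · refine ⟨1, Nat.coprime_one_left _, ?_⟩
      unfold gJ
      rw [h, abs_zero]
      exact abs_nonneg _
    · refine ⟨c'', hc1, ?_⟩
      unfold gJ
      rw [hc2, abs_mul, Pool.Agent.Lib.MP_45349e_nt.LS.abs_lam, one_mul]
  choose! cc hcc using hc'
  have hQz : ∀ x, ∀ w, w ≤ zC C1 N → ∀ p ∈ gQ (m x) H w, p.Prime ∧ p ≤ zC C1 N := by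
    intro x w hw p hp
    have h := gQ_mem.1 hp
    exact ⟨h.2.1, h.1.trans hw⟩
  have hPz : ∀ x, ∀ w, w ≤ zC C1 N → ∀ p ∈ gP (m x) N w, p.Prime ∧ p ≤ zC C1 N := by
    intro x w hw p hp
    have h := gP_mem.1 hp
    exact ⟨h.2.1, h.1.trans hw⟩
  have key := hgbv (Σ _ : ι, Finset ℕ × Finset ℕ) Y (fun y => m y.1 * ∏ p ∈ y.2.2, p) cc
    (fun y => T y.1 / ∏ p ∈ y.2.1, p) ((Real.log N) ^ 11 * Th) (by positivity) (by
      intro y hy
      obtain ⟨h1, h2, h2', h3, h3'⟩ := hYm y hy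
      obtain ⟨x1, x2, x3, _, _, x5, x6⟩ := hX y.1 h1
      have d1 : 1 ≤ ∏ p ∈ y.2.1, p := Nat.one_le_iff_ne_zero.2
        (prod_ne_zero_iff.2 fun p hp => (g_pr _ h2 p hp).ne_zero)
      have d2 : 1 ≤ ∏ p ∈ y.2.2, p := Nat.one_le_iff_ne_zero.2
        (prod_ne_zero_iff.2 fun p hp => (g_qr _ h3 p hp).ne_zero)
      have b1 := hE2 _ (hPz y.1 wa hwa) y.2.1 (mem_powerset.2 h2) h2'.le
      have b2 := hE2 _ (hQz y.1 wb hwb) y.2.2 (mem_powerset.2 h3) h3'.le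
      have d1R : (1 : ℝ) ≤ ((∏ p ∈ y.2.1, p : ℕ) : ℝ) := by exact_mod_cast d1
      refine ⟨Nat.mul_pos x1 d2, ?_, (hcc y hy).1, ?_, ?_⟩
      · push_cast
        push_cast at b2
        calc (m y.1 : ℝ) * ∏ p ∈ y.2.2, (p : ℝ) ≤
              (N : ℝ) ^ ((1 : ℝ) / 1500) * (N : ℝ) ^ ((1 : ℝ) / 5000) :=
              mul_le_mul x2 b2 (prod_nonneg fun p _ => Nat.cast_nonneg p) (by positivity)
          _ = (N : ℝ) ^ ((1 : ℝ) / 1500 + 1 / 5000) := (Real.rpow_add hNR _ _).symm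
          _ ≤ (N : ℝ) ^ ((1 : ℝ) / 1000) := Real.rpow_le_rpow_of_exponent_le hN1R (by norm_num)
      · have f1 : (T y.1 : ℝ) / ((∏ p ∈ y.2.1, p : ℕ) : ℝ) < ((T y.1 / ∏ p ∈ y.2.1, p : ℕ) : ℝ) + 1 := by
          have := Nat.lt_floor_add_one ((T y.1 : ℝ) / ((∏ p ∈ y.2.1, p : ℕ) : ℝ))
          rwa [Nat.floor_div_eq_div] at this
        have f2 : (N : ℝ) ^ ((1 : ℝ) / 6) / (N : ℝ) ^ ((1 : ℝ) / 5000) ≤
            (T y.1 : ℝ) / ((∏ p ∈ y.2.1, p : ℕ) : ℝ) := by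
          apply div_le_div₀ (by positivity) x5 (by linarith) b1
        linarith
      · exact (Nat.div_le_self _ _).trans x6) (by
      intro j hj1
      have h := hExt ι X m T (fun x => gP (m x) N wa) (fun x => gQ (m x) H wb) Th hTh (by
        intro x hx
        obtain ⟨x1, x2, x3, _, x5, x6, x7⟩ := hX x hx
        refine ⟨x1, x2, hPz x wa hwa, fun p hp => ?_⟩
        have h1 := gQ_mem.1 hp
        exact ⟨h1.2.1, h1.1.trans hwb, h1.2.2.1⟩) hj j hj1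
      refine le_trans ?_ h
      rw [sum_filter, hY, sum_sigma]
      refine sum_le_sum fun x hx => ?_
      rw [sum_product]
      have hnn : ∀ S1 S2 : Finset ℕ, (0 : ℝ) ≤
          (T x : ℝ) / (m x * (∏ p ∈ S1, (p : ℝ)) * ∏ p ∈ S2, (p : ℝ)) := by
        intro S1 S2
        have a1 : (0 : ℝ) ≤ ∏ p ∈ S1, (p : ℝ) := prod_nonneg fun p _ => Nat.cast_nonneg p
        have a2 : (0 : ℝ) ≤ ∏ p ∈ S2, (p : ℝ) := prod_nonneg fun p _ => Nat.cast_nonneg p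
        positivity
      calc ∑ S1 ∈ (gP (m x) N wa).powerset.filter (fun S => S.card < T0C C1 N),
            ∑ S2 ∈ (gQ (m x) H wb).powerset.filter (fun S => S.card < T0C C1 N),
              (if j ∣ m x * ∏ p ∈ S2, p then
                ((T x / ∏ p ∈ S1, p : ℕ) : ℝ) / ((m x * ∏ p ∈ S2, p : ℕ) : ℝ) else 0)
          ≤ ∑ S1 ∈ (gP (m x) N wa).powerset.filter (fun S => S.card < T0C C1 N),
            ∑ S2 ∈ (gQ (m x) H wb).powerset.filter (fun S => S.card ≤ T0C C1 N ∧ j ∣ m x * ∏ p ∈ S, p),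
              (T x : ℝ) / (m x * (∏ p ∈ S1, (p : ℝ)) * ∏ p ∈ S2, (p : ℝ)) := by
            refine sum_le_sum fun S1 hS1 => ?_
            rw [← sum_filter, filter_filter]
            calc ∑ S2 ∈ (gQ (m x) H wb).powerset.filter
                  (fun S => S.card < T0C C1 N ∧ j ∣ m x * ∏ p ∈ S, p),
                  ((T x / ∏ p ∈ S1, p : ℕ) : ℝ) / ((m x * ∏ p ∈ S2, p : ℕ) : ℝ)
                ≤ ∑ S2 ∈ (gQ (m x) H wb).powerset.filter
                  (fun S => S.card < T0C C1 N ∧ j ∣ m x * ∏ p ∈ S, p),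
                  (T x : ℝ) / (m x * (∏ p ∈ S1, (p : ℝ)) * ∏ p ∈ S2, (p : ℝ)) := by
                  refine sum_le_sum fun S2 _ => ?_
                  have k1 : ((T x / ∏ p ∈ S1, p : ℕ) : ℝ) ≤ (T x : ℝ) / ((∏ p ∈ S1, p : ℕ) : ℝ) :=
                    Nat.cast_div_le
                  calc ((T x / ∏ p ∈ S1, p : ℕ) : ℝ) / ((m x * ∏ p ∈ S2, p : ℕ) : ℝ)
                      ≤ ((T x : ℝ) / ((∏ p ∈ S1, p : ℕ) : ℝ)) / ((m x * ∏ p ∈ S2, p : ℕ) : ℝ) :=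
                        div_le_div_of_nonneg_right k1 (Nat.cast_nonneg _)
                    _ = (T x : ℝ) / (m x * (∏ p ∈ S1, (p : ℝ)) * ∏ p ∈ S2, (p : ℝ)) := by
                        push_cast
                        rw [div_div]
                        congr 1
                        ring
              _ ≤ _ := by
                  refine sum_le_sum_of_subset_of_nonneg ?_ fun S2 _ _ => hnn S1 S2
                  intro S2 hS2
                  rw [mem_filter] at hS2 ⊢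
                  exact ⟨hS2.1, hS2.2.1.le, hS2.2.2⟩
        _ ≤ _ := by
            refine sum_le_sum_of_subset_of_nonneg ?_ fun S1 _ _ => sum_nonneg fun S2 _ => hnn S1 S2
            intro S1 hS1
            rw [mem_filter] at hS1 ⊢
            exact ⟨hS1.1, hS1.2.le⟩)
  refine le_trans (le_of_eq ?_) ((sum_le_sum fun y hy => (hcc y hy).2).trans key)
  rw [hY, sum_sigma]
  refine sum_congr rfl fun x _ => ?_
  rw [sum_product]

open Classical in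
theorem gbF (A : ℕ) : ∃ C0 : ℝ, 5000 ≤ C0 ∧ ∀ C1 : ℝ, C0 ≤ C1 → ∀ e : ℝ, 0 < e → ∃ N0 : ℕ, ∀ N : ℕ, N0 ≤ N →
    ∀ wa wb : ℕ, wa ≤ zC C1 N → wb ≤ zC C1 N → ∀ H : ℤ, HN N H → ∀ (ι : Type) (X : Finset ι) (m c G T : ι → ℕ) (Th : ℝ), 0 ≤ Th →
    (∀ x ∈ X, 1 ≤ m x ∧ (m x : ℝ) ≤ (N : ℝ) ^ ((1 : ℝ) / 1500) ∧ (c x).Coprime (m x) ∧ (G x).Coprime N ∧ HG N wa wb (G x) H ∧
      (N : ℝ) ^ ((1 : ℝ) / 6) ≤ T x ∧ T x ≤ N) →
    (∀ j : ℕ, 1 ≤ j → ∑ x ∈ X.filter (fun x => j ∣ m x), (T x : ℝ) / m x ≤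
      Th * ((j : ℝ) ^ (-(1 / 2) : ℝ) + (N : ℝ) ^ (-e))) →
    ∑ x ∈ X, |∑ n ∈ (Icc 1 (T x)).filter (fun n => n ≡ c x [MOD m x] ∧ Rough wa n ∧ RZ wb ((G x : ℤ) * n + H)), FN N n| ≤
      Th / (Real.log N) ^ A := by
  obtain ⟨C0', hC0', hE1⟩ := esb1 (A + 12)
  refine ⟨max C0' 5000, le_max_right _ _, fun C1 hC1 e he => ?_⟩
  have h5 : 5000 ≤ C1 := (le_max_right _ _).trans hC1
  obtain ⟨N1, hN1⟩ := hE1 C1 ((le_max_left _ _).trans hC1)
  obtain ⟨N2, hN2⟩ := esb2 C1 h5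
  obtain ⟨N3, hN3⟩ := extH C1 h5 e he
  obtain ⟨N4, hN4⟩ := gbv (A + 13) (e / 2) (by linarith)
  obtain ⟨N5, hN5⟩ := g_num A
  refine ⟨max N1 (max N2 (max N3 (max N4 N5))), fun N hN wa wb hwa hwb H hH ι X m c G T Th hTh hX hj => ?_⟩
  rw [max_le_iff, max_le_iff, max_le_iff, max_le_iff] at hN
  obtain ⟨q1, q2, q3, q4, q5⟩ := hN
  obtain ⟨n1, n2, n3, n4⟩ := hN5 N q5
  obtain ⟨hT0, _, _, hP⟩ := hN2 N q2
  have hNR : (0 : ℝ) < N := by exact_mod_cast n1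
  have hN1R : (1 : ℝ) ≤ N := by exact_mod_cast n1
  have hK : (0 : ℝ) < Real.log N := by linarith
  have hPz : ∀ x, ∀ w, w ≤ zC C1 N → ∀ p ∈ gP (m x) N w, p.Prime ∧ p ≤ zC C1 N := by
    intro x w hw p hp
    have h := gP_mem.1 hp
    exact ⟨h.2.1, h.1.trans hw⟩
  have hQz : ∀ x, ∀ w, w ≤ zC C1 N → ∀ p ∈ gQ (m x) H w, p.Prime ∧ p ≤ zC C1 N := by
    intro x w hw p hp
    have h := gQ_mem.1 hp
    exact ⟨h.2.1, h.1.trans hw⟩
  have hmain := g_main (A := A) hwa hwb n1 n3 (fun P h => (hP P h).2.1) (hN3 N q3) (hN4 N q4)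
    X m c G T Th hTh hK.le hX hj
  obtain ⟨ε, hε⟩ : ∃ ε : ℝ, ε = 1 / (Real.log N) ^ (A + 12) := ⟨_, rfl⟩
  obtain ⟨Q, hQ⟩ : ∃ Q : ℝ, Q = (N : ℝ) ^ ((1 : ℝ) / 5000) := ⟨_, rfl⟩
  have hKA : (0 : ℝ) < (Real.log N) ^ A := by positivity
  have hK12 : (531441 : ℝ) ≤ (Real.log N) ^ 12 := by
    calc (531441 : ℝ) = 3 ^ 12 := by norm_num
      _ ≤ (Real.log N) ^ 12 := pow_le_pow_left₀ (by norm_num) n2 12
  have hε0 : 0 ≤ ε := by
    rw [hε]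
    positivity
  have hε1 : ε ≤ 1 := by
    rw [hε, div_le_one (by positivity)]
    exact one_le_pow₀ (by linarith)
  have hQ1 : 1 ≤ Q := by
    rw [hQ]
    exact Real.one_le_rpow hN1R (by norm_num)
  have hsum1 : ∀ x ∈ X, ∀ w, w ≤ zC C1 N →
      ∑ S ∈ (gP (m x) N w).powersetCard (T0C C1 N), ∏ p ∈ S, (1 / (p : ℝ)) ≤ ε := by
    intro x _ w hw
    rw [hε]
    refine hN1 N q1 (gP (m x) N w) (hPz x w hw) (fun p => 1 / (p : ℝ)) fun p _ => ⟨by positivity, ?_⟩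
    apply div_le_div_of_nonneg_right (by norm_num) (Nat.cast_nonneg _)
  have hsum2 : ∀ x ∈ X, ∀ w, w ≤ zC C1 N →
      ∑ S ∈ (gQ (m x) H w).powersetCard (T0C C1 N), ∏ p ∈ S, (1 / (p : ℝ)) ≤ ε := by
    intro x _ w hw
    rw [hε]
    refine hN1 N q1 (gQ (m x) H w) (hQz x w hw) (fun p => 1 / (p : ℝ)) fun p _ => ⟨by positivity, ?_⟩
    apply div_le_div_of_nonneg_right (by norm_num) (Nat.cast_nonneg _)
  have hcard2 : ∀ x ∈ X, ∀ w, w ≤ zC C1 N →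
      ((((gQ (m x) H w).powersetCard (T0C C1 N)).card : ℕ) : ℝ) ≤ Q := by
    intro x _ w hw
    rw [hQ]
    refine le_trans ?_ (hP (gQ (m x) H w) (hQz x w hw)).2.2
    rw [Nat.cast_le]
    apply card_le_card
    intro S hS
    rw [mem_powersetCard] at hS
    rw [mem_filter, mem_powerset]
    exact ⟨hS.1, hS.2.le⟩
  have hcard : ∀ x ∈ X, ∀ w, w ≤ zC C1 N →
      ((((gP (m x) N w).powersetCard (T0C C1 N)).card : ℕ) : ℝ) ≤ Q := by
    intro x _ w hw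
    rw [hQ]
    refine le_trans ?_ (hP (gP (m x) N w) (hPz x w hw)).2.2
    rw [Nat.cast_le]
    apply card_le_card
    intro S hS
    rw [mem_powersetCard] at hS
    rw [mem_filter, mem_powerset]
    exact ⟨hS.1, hS.2.le⟩
  have hx : ∀ x ∈ X, |∑ n ∈ (Icc 1 (T x)).filter
      (fun n => n ≡ c x [MOD m x] ∧ Rough wa n ∧ RZ wb ((G x : ℤ) * n + H)), FN N n| ≤
      ∑ S1 ∈ (gP (m x) N wa).powerset.filter (fun S => S.card < T0C C1 N),
        ∑ S2 ∈ (gQ (m x) H wb).powerset.filter (fun S => S.card < T0C C1 N),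
          |gJ N (m x) (c x) (G x) (T x) H (∏ p ∈ S1, p) (∏ p ∈ S2, p)| +
      (3 * ε * ((T x : ℝ) / m x) + 3 * Q ^ 2) := by
    intro x hx
    obtain ⟨x1, x2, x3, x4, x5, x6, x7⟩ := hX x hx
    refine (g_red x3 x4 x5).trans ((g_sift (T0C C1 N) hT0).trans ?_)
    refine add_le_add le_rfl ?_
    exact g_err n1 x1 x3 ε Q hε0 hε1 hQ1 (hsum1 x hx wa hwa) (hsum2 x hx wb hwb)
      (hcard x hx wa hwa) (hcard2 x hx wb hwb)
  have hTm : ∑ x ∈ X, (T x : ℝ) / m x ≤ 2 * Th := by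
    have h := hj 1 le_rfl
    have h1 : X.filter (fun x => 1 ∣ m x) = X := filter_true_of_mem fun x _ => one_dvd _
    rw [h1, Nat.cast_one, Real.one_rpow] at h
    have h2 : (N : ℝ) ^ (-e) ≤ 1 := Real.rpow_le_one_of_one_le_of_nonpos hN1R (by linarith)
    calc ∑ x ∈ X, (T x : ℝ) / m x ≤ Th * (1 + (N : ℝ) ^ (-e)) := h
      _ ≤ Th * 2 := mul_le_mul_of_nonneg_left (by linarith) hTh
      _ = 2 * Th := by ring
  have hone : ∀ x ∈ X, 24 * (Real.log N) ^ A * Q ^ 2 ≤ (T x : ℝ) / m x := by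
    intro x hx
    obtain ⟨x1, x2, x3, x4, x5, x6, x7⟩ := hX x hx
    have hm0 : (0 : ℝ) < m x := by exact_mod_cast x1
    rw [le_div_iff₀ hm0]
    calc 24 * (Real.log N) ^ A * Q ^ 2 * m x ≤
          24 * (Real.log N) ^ A * Q ^ 2 * (N : ℝ) ^ ((1 : ℝ) / 1500) :=
          mul_le_mul_of_nonneg_left x2 (by positivity)
      _ = 24 * (Real.log N) ^ A * (((N : ℝ) ^ ((1 : ℝ) / 5000)) ^ 2 * (N : ℝ) ^ ((1 : ℝ) / 1500)) := by
          rw [hQ]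
          ring
      _ ≤ (N : ℝ) ^ ((1 : ℝ) / 6) := n4
      _ ≤ T x := x6
  have hcount : ∑ _x ∈ X, 3 * Q ^ 2 ≤ Th / (4 * (Real.log N) ^ A) := by
    have h1 : ∑ x ∈ X, 24 * (Real.log N) ^ A * Q ^ 2 ≤ 2 * Th := (sum_le_sum hone).trans hTm
    rw [sum_const, nsmul_eq_mul] at h1 ⊢
    rw [le_div_iff₀ (by positivity)]
    have h2 : ((X.card : ℕ) : ℝ) * (3 * Q ^ 2) * (4 * (Real.log N) ^ A) =
        ((X.card : ℕ) : ℝ) * (24 * (Real.log N) ^ A * Q ^ 2) / 2 := by ring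
    rw [h2]
    linarith
  have htot := sum_le_sum hx
  rw [sum_add_distrib, sum_add_distrib, ← mul_sum] at htot
  refine htot.trans ?_
  have t1 : (Real.log N) ^ 11 * Th / (Real.log N) ^ (A + 13) ≤ Th / (4 * (Real.log N) ^ A) := by
    have h1 : (Real.log N) ^ 11 * Th / (Real.log N) ^ (A + 13) =
        Th / ((Real.log N) ^ 2 * (Real.log N) ^ A) := by
      rw [div_eq_div_iff (by positivity) (by positivity)]
      ring
    rw [h1]
    apply div_le_div_of_nonneg_left hTh (by positivity)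
    apply mul_le_mul_of_nonneg_right _ hKA.le
    nlinarith
  have t2 : 3 * ε * ∑ x ∈ X, (T x : ℝ) / m x ≤ Th / (4 * (Real.log N) ^ A) := by
    calc 3 * ε * ∑ x ∈ X, (T x : ℝ) / m x ≤ 3 * ε * (2 * Th) :=
          mul_le_mul_of_nonneg_left hTm (by positivity)
      _ = 6 * Th / ((Real.log N) ^ 12 * (Real.log N) ^ A) := by
          rw [hε, pow_add]
          field_simp
          ring
      _ ≤ Th / (4 * (Real.log N) ^ A) := by
          rw [div_le_div_iff₀ (by positivity) (by positivity)]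
          have h1 : 6 * Th * (4 * (Real.log N) ^ A) = Th * (24 * (Real.log N) ^ A) := by ring
          rw [h1]
          apply mul_le_mul_of_nonneg_left _ hTh
          apply mul_le_mul_of_nonneg_right _ hKA.le
          linarith
  have t3 : Th / (Real.log N) ^ A = 4 * (Th / (4 * (Real.log N) ^ A)) := by
    field_simp
  have t4 : 0 ≤ Th / (4 * (Real.log N) ^ A) := by positivity
  rw [t3]
  linarith [hmain, hcount]

end Pool.Agent.Lib.T3E
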