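import Pool.Agent.Lib.MP_7b7e48_nt.T3E.Def

/-!
# T3E / Red (60 minutes): the progression sums with side conditions `d1 ∣ e`, `d2 ∣ G e + H` (copy of `TE/RedCl.lean`)

PROOF. As `TE/RedCl.lean`, with the integer form `G e + H` instead of `N - G e`: only `e` coprime to `N` contribute. If a prime `p` divides `d1` and `d2`, then `p ∣ e`, `p ∣ G e + H` give `p ∣ H`, impossible (`h2H`): the sum is `0`. If `p ∣ d2`, `p ∣ G`: `p ∣ H`, impossible: `0`. Otherwise `G` and `H` are units modulo `d2`, and (Chinese remainder) the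
conditions are: `e = d1 e'`, `e' ≡ c'` modulo `m d2` with `c' ≡ c d1^(-1)` modulo `m`, `c' ≡ - H (G d1)^(-1)` modulo `d2`, `c'` coprime to `m d2`; `FN N (d1 e') = lam d1 FN N e'` (`d1` coprime to `N`).
`redF_card`: the same parametrisation; the number of `e' ≤ T/d1` in a class modulo `m d2` is `≤ T/(m d1 d2) + 1`.
-/

set_option autoImplicit false

open Finset
open Pool.Agent.Lib.MP_45349e_nt.LS (lam)
open Pool.Agent.Lib.TE (FN)

namespace Pool.Agent.Lib.T3E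

private theorem t3red_unit {m d : ℕ} (hm : 1 ≤ m) (hd : d.Coprime m) (c : ℕ) : ∃ a : ℕ, d * a ≡ c [MOD m] := by
  haveI : NeZero m := ⟨by omega⟩
  refine ⟨(((ZMod.unitOfCoprime d hd)⁻¹ : (ZMod m)ˣ) * (c : ZMod m) : ZMod m).val, ?_⟩
  rw [← ZMod.natCast_eq_natCast_iff]
  push_cast
  rw [ZMod.natCast_zmod_val, ← mul_assoc]
  have h : (d : ZMod m) * (((ZMod.unitOfCoprime d hd)⁻¹ : (ZMod m)ˣ) : ZMod m) = 1 := by
    have h' := (ZMod.unitOfCoprime d hd).mul_inv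
    rwa [ZMod.coe_unitOfCoprime] at h'
  rw [h, one_mul]

private theorem t3red_ap (r u v : ℕ) (hr : 0 < r) :
    (((Finset.Icc 1 u).filter fun x => x ≡ v [MOD r]).card : ℝ) ≤ (u : ℝ) / r + 1 := by
  have h := Nat.Ioc_filter_modEq_card 0 u hr v
  have e : Finset.Icc 1 u = Finset.Ioc 0 u := by ext x; simp [Finset.mem_Icc, Finset.mem_Ioc]; omega
  rw [e]
  have hr' : (0 : ℚ) < r := by exact_mod_cast hr
  set x : ℚ := ((u : ℚ) - v) / r with hx
  set y : ℚ := (((0 : ℕ) : ℚ) - v) / r with hy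
  have hxy : x - y = (u : ℚ) / r := by
    rw [hx, hy]; push_cast; ring
  have hxy0 : 0 ≤ x - y := by rw [hxy]; positivity
  have hfl : ⌊y⌋ ≤ ⌊x⌋ := Int.floor_le_floor (by linarith)
  rw [max_eq_left (by linarith)] at h
  have h1 := Int.floor_le x
  have h4 := Int.lt_floor_add_one y
  have h5 : ((⌊x⌋ - ⌊y⌋ : ℤ) : ℚ) ≤ (u : ℚ) / r + 1 := by
    rw [← hxy]
    push_cast
    linarith
  rw [← h] at h5
  have h6 : (((((((Finset.Ioc 0 u).filter fun x => x ≡ v [MOD r]).card : ℤ)) : ℚ)) : ℝ) ≤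
      (((u : ℚ) / r + 1 : ℚ) : ℝ) := by exact_mod_cast h5
  push_cast at h6
  exact h6

private theorem t3red_H {d2 : ℕ} (hd2 : 0 < d2) (H : ℤ) (h2H : ∀ p : ℕ, p.Prime → p ∣ d2 → ¬ (p : ℤ) ∣ H) :
    ∃ h : ℕ, h.Coprime d2 ∧ ∀ x : ℕ, ((d2 : ℤ) ∣ ((x : ℤ) + H) ↔ x ≡ h [MOD d2]) := by
  have hd : (d2 : ℤ) ≠ 0 := by exact_mod_cast hd2.ne'
  have hnn : 0 ≤ (-H) % (d2 : ℤ) := Int.emod_nonneg _ hd
  obtain ⟨h, hh⟩ := Int.eq_ofNat_of_zero_le hnn
  have hdvd : (d2 : ℤ) ∣ (h : ℤ) + H := by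
    have h1 : (d2 : ℤ) ∣ (-H) - (-H) % (d2 : ℤ) := Int.dvd_self_sub_emod
    rw [hh] at h1
    have h2 : (h : ℤ) + H = -((-H) - (h : ℤ)) := by ring
    rw [h2]
    exact (dvd_neg).2 h1
  refine ⟨h, ?_, ?_⟩
  · by_contra hc
    obtain ⟨p, hp, hp1, hp2⟩ := Nat.Prime.not_coprime_iff_dvd.1 hc
    apply h2H p hp hp2
    have h3 : (p : ℤ) ∣ (h : ℤ) + H := (Int.natCast_dvd_natCast.2 hp2).trans hdvd
    have h4 : (p : ℤ) ∣ (h : ℤ) := Int.natCast_dvd_natCast.2 hp1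
    exact (Int.dvd_add_right h4).1 h3
  · intro x
    rw [Nat.modEq_iff_dvd]
    constructor
    · intro h3
      have h4 := dvd_sub hdvd h3
      have h5 : (h : ℤ) + H - ((x : ℤ) + H) = (h : ℤ) - x := by ring
      rwa [h5] at h4
    · intro h3
      have h4 := dvd_sub hdvd h3
      have h5 : (h : ℤ) + H - ((h : ℤ) - x) = (x : ℤ) + H := by ring
      rwa [h5] at h4

private theorem t3red_set {N m c G T d1 d2 : ℕ} {H : ℤ} (hm : 1 ≤ m) (hc : c.Coprime m) (h1 : Squarefree d1) (h2 : Squarefree d2)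
    (h1m : d1.Coprime (m * N)) (h2m : d2.Coprime m) (h2H : ∀ p : ℕ, p.Prime → p ∣ d2 → ¬ (p : ℤ) ∣ H) :
    (Icc 1 T).filter (fun e => e ≡ c [MOD m] ∧ d1 ∣ e ∧ (d2 : ℤ) ∣ ((G : ℤ) * e + H)) = ∅ ∨
    ∃ c' : ℕ, c'.Coprime (m * d2) ∧
      (Icc 1 T).filter (fun e => e ≡ c [MOD m] ∧ d1 ∣ e ∧ (d2 : ℤ) ∣ ((G : ℤ) * e + H)) =
        ((Icc 1 (T / d1)).filter (fun e => e ≡ c' [MOD m * d2])).image (fun e => d1 * e) := by
  have hd1 : 0 < d1 := Nat.pos_of_ne_zero h1.ne_zero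
  have hd2 : 0 < d2 := Nat.pos_of_ne_zero h2.ne_zero
  have h1m' : d1.Coprime m := Nat.Coprime.coprime_mul_right_right h1m
  obtain ⟨hh, hhc, hhe⟩ := t3red_H hd2 H h2H
  by_cases hcc : (d1 * G).Coprime d2
  · right
    have hdd : d1.Coprime d2 := Nat.Coprime.coprime_mul_right hcc
    obtain ⟨a, ha⟩ := t3red_unit hm h1m' c
    obtain ⟨b, hb⟩ := t3red_unit hd2 hcc hh
    obtain ⟨c', hca, hcb⟩ := Nat.chineseRemainder h2m.symm a b
    have hc1 : d1 * c' ≡ c [MOD m] := (Nat.ModEq.mul_left d1 hca).trans ha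
    have hc2 : d1 * G * c' ≡ hh [MOD d2] := (Nat.ModEq.mul_left _ hcb).trans hb
    refine ⟨c', ?_, ?_⟩
    · refine Nat.Coprime.mul_right ?_ ?_
      · have h3 : (d1 * c').Coprime m := by
          have h4 := hc1.gcd_eq
          rw [Nat.coprime_iff_gcd_eq_one, Nat.gcd_comm]
          rw [Nat.gcd_comm (d1 * c'), Nat.gcd_comm c] at h4
          rw [h4, Nat.gcd_comm]
          exact hc
        exact Nat.Coprime.coprime_mul_left h3
      · have h3 : (d1 * G * c').Coprime d2 := by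
          have h4 := hc2.gcd_eq
          rw [Nat.coprime_iff_gcd_eq_one, Nat.gcd_comm]
          rw [Nat.gcd_comm (d1 * G * c'), Nat.gcd_comm hh] at h4
          rw [h4, Nat.gcd_comm]
          exact hhc
        exact Nat.Coprime.coprime_mul_left h3
    · have key : ∀ e' : ℕ, (d1 * e' ≡ c [MOD m] ∧ (d2 : ℤ) ∣ ((G : ℤ) * ((d1 * e' : ℕ) : ℤ) + H)) ↔ e' ≡ c' [MOD m * d2] := by
        intro e'
        rw [← Nat.modEq_and_modEq_iff_modEq_mul h2m.symm]
        refine and_congr ?_ ?_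
        · constructor
          · intro h
            have h3 : d1 * e' ≡ d1 * c' [MOD m] := h.trans hc1.symm
            exact Nat.ModEq.cancel_left_of_coprime (by rw [Nat.gcd_comm]; exact h1m') h3
          · intro h
            exact (Nat.ModEq.mul_left d1 h).trans hc1
        · have h4 : (G : ℤ) * ((d1 * e' : ℕ) : ℤ) = ((d1 * G * e' : ℕ) : ℤ) := by
            push_cast
            ring
          rw [h4, hhe]
          constructor
          · intro h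
            have h3 : d1 * G * e' ≡ d1 * G * c' [MOD d2] := h.trans hc2.symm
            exact Nat.ModEq.cancel_left_of_coprime (by rw [Nat.gcd_comm]; exact hcc) h3
          · intro h
            exact (Nat.ModEq.mul_left _ h).trans hc2
      ext e
      simp only [mem_filter, mem_image, mem_Icc]
      constructor
      · rintro ⟨⟨he1, heT⟩, hec, ⟨e', rfl⟩, hed⟩
        refine ⟨e', ⟨⟨?_, ?_⟩, ?_⟩, rfl⟩
        · rcases Nat.eq_zero_or_pos e' with h | h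
          · rw [h, Nat.mul_zero] at he1
            omega
          · exact h
        · rw [Nat.le_div_iff_mul_le hd1, Nat.mul_comm]
          exact heT
        · exact (key e').1 ⟨hec, hed⟩
      · rintro ⟨e', ⟨⟨he1, heT⟩, hec⟩, rfl⟩
        rw [Nat.le_div_iff_mul_le hd1, Nat.mul_comm] at heT
        have he1' : 1 ≤ d1 * e' := Nat.mul_pos hd1 he1
        have h3 := (key e').2 hec
        exact ⟨⟨he1', heT⟩, h3.1, Dvd.intro _ rfl, h3.2⟩
  · left
    rw [filter_eq_empty_iff]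
    rintro e he ⟨-, hde, hdN⟩
    obtain ⟨p, hp, hp1, hp2⟩ := Nat.Prime.not_coprime_iff_dvd.1 hcc
    have hpe : p ∣ G * e := by
      rcases hp.dvd_mul.1 hp1 with h | h
      · exact Dvd.dvd.mul_left (h.trans hde) G
      · exact Dvd.dvd.mul_right h e
    apply h2H p hp hp2
    have h3 : (p : ℤ) ∣ (G : ℤ) * e + H := (Int.natCast_dvd_natCast.2 hp2).trans hdN
    have h4 : (p : ℤ) ∣ (G : ℤ) * e := by
      have h5 := Int.natCast_dvd_natCast.2 hpe
      push_cast at h5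
      exact h5
    exact (Int.dvd_add_right h4).1 h3

private theorem t3red_FN {N d e : ℕ} (hd : d.Coprime N) (hd0 : d ≠ 0) (he : e ≠ 0) : FN N (d * e) = lam d * FN N e := by
  unfold FN
  by_cases h : e.Coprime N
  · rw [if_pos (Nat.Coprime.mul_left hd h), if_pos h, Pool.Agent.Lib.MP_45349e_nt.LS.lam_mul d e hd0 he]
  · rw [if_neg (fun h' => h (Nat.Coprime.coprime_mul_left h')), if_neg h, mul_zero]

private theorem t3red_abs (N e : ℕ) : |FN N e| ≤ 1 := by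
  unfold FN
  split_ifs
  · exact (Pool.Agent.Lib.MP_45349e_nt.LS.abs_lam e).le
  · rw [abs_zero]
    exact zero_le_one

theorem redF {N m c G T d1 d2 : ℕ} {H : ℤ} (hN : 1 ≤ N) (hm : 1 ≤ m) (hc : c.Coprime m) (h1 : Squarefree d1) (h2 : Squarefree d2)
    (h1m : d1.Coprime (m * N)) (h2m : d2.Coprime m) (h2H : ∀ p : ℕ, p.Prime → p ∣ d2 → ¬ (p : ℤ) ∣ H) :
    ∑ e ∈ (Icc 1 T).filter (fun e => e ≡ c [MOD m] ∧ d1 ∣ e ∧ (d2 : ℤ) ∣ ((G : ℤ) * e + H)), FN N e = 0 ∨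
    ∃ c' : ℕ, c'.Coprime (m * d2) ∧
      ∑ e ∈ (Icc 1 T).filter (fun e => e ≡ c [MOD m] ∧ d1 ∣ e ∧ (d2 : ℤ) ∣ ((G : ℤ) * e + H)), FN N e =
        lam d1 * ∑ e ∈ (Icc 1 (T / d1)).filter (fun e => e ≡ c' [MOD m * d2]), FN N e := by
  have hd1 : 0 < d1 := Nat.pos_of_ne_zero h1.ne_zero
  rcases t3red_set (G := G) (T := T) hm hc h1 h2 h1m h2m h2H with h | ⟨c', hc', h⟩
  · left
    rw [h, sum_empty]
  · right
    refine ⟨c', hc', ?_⟩
    rw [h, sum_image (fun x _ y _ hxy => Nat.eq_of_mul_eq_mul_left hd1 hxy), mul_sum]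
    refine sum_congr rfl fun e he => ?_
    have he1 := (mem_Icc.1 (mem_filter.1 he).1).1
    exact t3red_FN (Nat.Coprime.coprime_mul_left_right h1m) h1.ne_zero (by omega)

theorem redF_card {N m c G T d1 d2 : ℕ} {H : ℤ} (hN : 1 ≤ N) (hm : 1 ≤ m) (hc : c.Coprime m) (h1 : Squarefree d1) (h2 : Squarefree d2)
    (h1m : d1.Coprime (m * N)) (h2m : d2.Coprime m) (h2H : ∀ p : ℕ, p.Prime → p ∣ d2 → ¬ (p : ℤ) ∣ H) :
    ∑ e ∈ (Icc 1 T).filter (fun e => e ≡ c [MOD m] ∧ d1 ∣ e ∧ (d2 : ℤ) ∣ ((G : ℤ) * e + H)), |FN N e| ≤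
      (T : ℝ) / (m * d1 * d2) + 1 := by
  have hd1 : 0 < d1 := Nat.pos_of_ne_zero h1.ne_zero
  have hd2 : 0 < d2 := Nat.pos_of_ne_zero h2.ne_zero
  rcases t3red_set (G := G) (T := T) hm hc h1 h2 h1m h2m h2H with h | ⟨c', hc', h⟩
  · rw [h, sum_empty]
    positivity
  · rw [h, sum_image (fun x _ y _ hxy => Nat.eq_of_mul_eq_mul_left hd1 hxy)]
    have h3 : ∑ e ∈ (Icc 1 (T / d1)).filter (fun e => e ≡ c' [MOD m * d2]), |FN N (d1 * e)| ≤
        (((Icc 1 (T / d1)).filter (fun e => e ≡ c' [MOD m * d2])).card : ℝ) := by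
      rw [card_eq_sum_ones, Nat.cast_sum]
      refine sum_le_sum fun e _ => ?_
      rw [Nat.cast_one]
      exact t3red_abs N _
    refine h3.trans ((t3red_ap (m * d2) (T / d1) c' (Nat.mul_pos hm hd2)).trans ?_)
    have h4 : ((T / d1 : ℕ) : ℝ) ≤ (T : ℝ) / d1 := Nat.cast_div_le
    have h5 : (0 : ℝ) < ((m * d2 : ℕ) : ℝ) := by exact_mod_cast Nat.mul_pos hm hd2
    have h6 : ((T / d1 : ℕ) : ℝ) / ((m * d2 : ℕ) : ℝ) ≤ (T : ℝ) / d1 / ((m * d2 : ℕ) : ℝ) :=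
      div_le_div_of_nonneg_right h4 h5.le
    have h7 : (T : ℝ) / d1 / ((m * d2 : ℕ) : ℝ) = (T : ℝ) / (m * d1 * d2) := by
      rw [div_div]
      push_cast
      congr 1
      ring
    rw [h7] at h6
    linarith

end Pool.Agent.Lib.T3E
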