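import Pool.Agent.Lib.MP_7b7e48_nt.T3E.Gb

/-!
# T3E / Sid1 (60 minutes): `lam` (copy of `TE/Sid1.lean` for the form `d g n + H`, length `B / (d g)`)

PROOF. As `TE/Sid1.lean`: `gbF (A + 1)` with modulus `Wf · m x`, class `cl x`, `G = d · g x`, length `T = B/(d · g x)` (`≥ N^(1/6)`: `B ≥ N^(999/1000)`, `d ≤ N^(4/5)`, `g ≤ N^(1/2000)`; `≤ N`), and `T/(Wf m) ≤ N/(d g m)`.
-/

set_option autoImplicit false

open Finset
open Pool.Agent.Lib.GT (Rough)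
open Pool.Agent.Lib.TE (FN zC T0C)

namespace Pool.Agent.Lib.T3E

private theorem sid1_ev (C δ : ℝ) (hδ : 0 < δ) : ∀ᶠ N : ℕ in Filter.atTop, C ≤ (N : ℝ) ^ δ :=
  ((tendsto_rpow_atTop hδ).comp tendsto_natCast_atTop_atTop).eventually_ge_atTop C

private theorem sid1_log (C : ℝ) : ∀ᶠ N : ℕ in Filter.atTop, C ≤ Real.log N :=
  (Real.tendsto_log_atTop.comp tendsto_natCast_atTop_atTop).eventually_ge_atTop C

private theorem sid1_div {j Wf m : ℕ} (hj : 1 ≤ j) (h : j ∣ Wf * m) : j / j.gcd Wf ∣ m := by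
  have hg : 0 < j.gcd Wf := Nat.gcd_pos_of_pos_left _ hj
  have h1 : j / j.gcd Wf ∣ (Wf / j.gcd Wf) * m := by
    have h2 : j.gcd Wf * (j / j.gcd Wf) ∣ j.gcd Wf * ((Wf / j.gcd Wf) * m) := by
      rw [Nat.mul_div_cancel' (Nat.gcd_dvd_left j Wf), ← mul_assoc, Nat.mul_div_cancel' (Nat.gcd_dvd_right j Wf)]
      exact h
    exact Nat.dvd_of_mul_dvd_mul_left hg h2
  exact (Nat.coprime_div_gcd_div_gcd hg).dvd_of_dvd_mul_left h1

open Classical in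
theorem sidF1 (Wf : ℕ) (hW : 1 ≤ Wf) (A : ℕ) : ∃ C0 : ℝ, 5000 ≤ C0 ∧ ∀ C1 : ℝ, C0 ≤ C1 → ∀ e : ℝ, 0 < e → ∃ N0 : ℕ, ∀ N : ℕ, N0 ≤ N →
    ∀ wa wb : ℕ, wa ≤ zC C1 N → wb ≤ zC C1 N → ∀ H : ℤ, HN N H → ∀ B : ℕ, (N : ℝ) ^ ((999 : ℝ) / 1000) ≤ B → B ≤ N →
    ∀ d : ℕ, 1 ≤ d → (d : ℝ) ≤ (N : ℝ) ^ ((4 : ℝ) / 5) → d.Coprime N →
    ∀ (ι : Type) (X : Finset ι) (g m cl : ι → ℕ) (Th : ℝ), 0 ≤ Th →
    (∀ x ∈ X, 1 ≤ g x ∧ 1 ≤ m x ∧ ((g x * m x : ℕ) : ℝ) ≤ (N : ℝ) ^ ((1 : ℝ) / 2000) ∧ (g x).Coprime N ∧ (cl x).Coprime (Wf * m x) ∧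
      HG N wa wb (d * g x) H) →
    (∀ j : ℕ, 1 ≤ j → ∑ x ∈ X.filter (fun x => j ∣ m x), 1 / ((g x : ℝ) * m x) ≤
      Th * ((j : ℝ) ^ (-(1 / 2) : ℝ) + (N : ℝ) ^ (-e))) →
    ∑ x ∈ X, |∑ n ∈ (Icc 1 (B / (d * g x))).filter
      (fun n => n ≡ cl x [MOD Wf * m x] ∧ Rough wa n ∧ RZ wb (((d * g x : ℕ) : ℤ) * n + H)), FN N n| ≤ Th * (N / d) / (Real.log N) ^ A := by
  obtain ⟨C0, hC0, hG⟩ := gbF (A + 1)
  refine ⟨C0, hC0, fun C1 hC1 e he => ?_⟩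
  obtain ⟨N1, hN1⟩ := hG C1 hC1 e he
  obtain ⟨N2, hN2⟩ := Filter.eventually_atTop.1 ((sid1_ev Wf (1 / 6000) (by norm_num)).and
    ((sid1_ev 4 (1985 / 10000 - 1 / 6) (by norm_num)).and (sid1_log Wf)))
  refine ⟨max 2 (max N1 N2), fun N hN wa wb hwa hwb H hHN B hB1 hB2 d hd hdN hdc ι X g m cl Th hTh hX hj => ?_⟩
  rw [max_le_iff, max_le_iff] at hN
  obtain ⟨q0, q1, q2⟩ := hN
  obtain ⟨p1, p2, p3⟩ := hN2 N q2
  have hNR : (0 : ℝ) < N := by exact_mod_cast (by omega : 0 < N)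
  have hN2R : (2 : ℝ) ≤ N := by exact_mod_cast q0
  have hN1R : (1 : ℝ) ≤ N := by linarith
  have hWR : (1 : ℝ) ≤ Wf := by exact_mod_cast hW
  have hdR : (1 : ℝ) ≤ d := by exact_mod_cast hd
  have hK : (1 : ℝ) ≤ Real.log N := hWR.trans p3
  have hBR : (B : ℝ) ≤ N := by exact_mod_cast hB2
  have hT : ∀ x ∈ X, ((B / (d * g x) : ℕ) : ℝ) ≤ N / d * (1 / g x) := by
    intro x hx
    have h1 : ((B / (d * g x) : ℕ) : ℝ) ≤ (B : ℝ) / ((d * g x : ℕ) : ℝ) := Nat.cast_div_le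
    have h3 : (B : ℝ) / ((d * g x : ℕ) : ℝ) ≤ (N : ℝ) / ((d * g x : ℕ) : ℝ) :=
      div_le_div_of_nonneg_right hBR (Nat.cast_nonneg _)
    have h4 : (N : ℝ) / ((d * g x : ℕ) : ℝ) = N / d * (1 / g x) := by
      push_cast
      rw [div_mul_div_comm, mul_one]
    linarith
  have key := hN1 N q1 wa wb hwa hwb H hHN ι X (fun x => Wf * m x) cl (fun x => d * g x) (fun x => B / (d * g x))
    (Th * (N / d) * Wf) (by positivity) (by
      intro x hx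
      obtain ⟨x1, x2, x3, x4, x5, x6⟩ := hX x hx
      have hgR : (1 : ℝ) ≤ g x := by exact_mod_cast x1
      have hmR : (1 : ℝ) ≤ m x := by exact_mod_cast x2
      have hgm : (g x : ℝ) * m x ≤ (N : ℝ) ^ ((1 : ℝ) / 2000) := by exact_mod_cast x3
      have hm : (m x : ℝ) ≤ (N : ℝ) ^ ((1 : ℝ) / 2000) := le_trans (le_mul_of_one_le_left (by linarith) hgR) hgm
      have hg : (g x : ℝ) ≤ (N : ℝ) ^ ((1 : ℝ) / 2000) := le_trans (le_mul_of_one_le_right (by linarith) hmR) hgm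
      have hdg : 0 < d * g x := Nat.mul_pos hd x1
      refine ⟨Nat.mul_pos hW x2, ?_, x5, hdc.mul_left x4, x6, ?_, (Nat.div_le_self _ _).trans hB2⟩
      · push_cast
        calc (Wf : ℝ) * m x ≤ (N : ℝ) ^ ((1 : ℝ) / 6000) * (N : ℝ) ^ ((1 : ℝ) / 2000) :=
              mul_le_mul p1 hm (Nat.cast_nonneg _) (by positivity)
          _ = (N : ℝ) ^ ((1 : ℝ) / 6000 + 1 / 2000) := (Real.rpow_add hNR _ _).symm
          _ ≤ (N : ℝ) ^ ((1 : ℝ) / 1500) := Real.rpow_le_rpow_of_exponent_le hN1R (by norm_num)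
      · have hdgR : ((d * g x : ℕ) : ℝ) ≤ (N : ℝ) ^ ((8005 : ℝ) / 10000) := by
          push_cast
          calc (d : ℝ) * g x ≤ (N : ℝ) ^ ((4 : ℝ) / 5) * (N : ℝ) ^ ((1 : ℝ) / 2000) :=
                mul_le_mul hdN hg (Nat.cast_nonneg _) (by positivity)
            _ = (N : ℝ) ^ ((4 : ℝ) / 5 + 1 / 2000) := (Real.rpow_add hNR _ _).symm
            _ = (N : ℝ) ^ ((8005 : ℝ) / 10000) := by norm_num
        have hdg0 : (0 : ℝ) < ((d * g x : ℕ) : ℝ) := by exact_mod_cast hdg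
        have f1 : (B : ℝ) / ((d * g x : ℕ) : ℝ) < ((B / (d * g x) : ℕ) : ℝ) + 1 := by
          have := Nat.lt_floor_add_one ((B : ℝ) / ((d * g x : ℕ) : ℝ))
          rwa [Nat.floor_div_eq_div] at this
        have f3 : (N : ℝ) ^ ((999 : ℝ) / 1000) / (N : ℝ) ^ ((8005 : ℝ) / 10000) ≤ (B : ℝ) / ((d * g x : ℕ) : ℝ) :=
          div_le_div₀ (Nat.cast_nonneg _) hB1 hdg0 hdgR
        have f4 : (N : ℝ) ^ ((999 : ℝ) / 1000) / (N : ℝ) ^ ((8005 : ℝ) / 10000) = (N : ℝ) ^ ((1985 : ℝ) / 10000) := by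
          rw [← Real.rpow_sub hNR]
          norm_num
        have f5 : (N : ℝ) ^ ((1985 : ℝ) / 10000) = (N : ℝ) ^ ((1985 : ℝ) / 10000 - 1 / 6) * (N : ℝ) ^ ((1 : ℝ) / 6) := by
          rw [← Real.rpow_add hNR]
          norm_num
        have f6 : (1 : ℝ) ≤ (N : ℝ) ^ ((1 : ℝ) / 6) := Real.one_le_rpow hN1R (by norm_num)
        have f7 : 4 * (N : ℝ) ^ ((1 : ℝ) / 6) ≤ (N : ℝ) ^ ((1985 : ℝ) / 10000) := by
          rw [f5]
          exact mul_le_mul_of_nonneg_right p2 (by linarith)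
        linarith) (by
      intro j hj1
      have hg0 : 0 < j.gcd Wf := Nat.gcd_pos_of_pos_left _ hj1
      have hj'1 : 1 ≤ j / j.gcd Wf := Nat.div_pos (Nat.gcd_le_left _ hj1) hg0
      have hsum := hj (j / j.gcd Wf) hj'1
      have hjR : (0 : ℝ) < j := by exact_mod_cast hj1
      have hpow : ((j / j.gcd Wf : ℕ) : ℝ) ^ (-(1 / 2) : ℝ) ≤ Wf * (j : ℝ) ^ (-(1 / 2) : ℝ) := by
        have h1 : (j : ℝ) / Wf ≤ ((j / j.gcd Wf : ℕ) : ℝ) := by
          rw [Nat.cast_div (Nat.gcd_dvd_left j Wf) (by exact_mod_cast hg0.ne')]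
          apply div_le_div_of_nonneg_left hjR.le (by exact_mod_cast hg0)
          exact_mod_cast Nat.gcd_le_right _ hW
        have h2 : (0 : ℝ) < (j : ℝ) / Wf := by positivity
        calc ((j / j.gcd Wf : ℕ) : ℝ) ^ (-(1 / 2) : ℝ) ≤ ((j : ℝ) / Wf) ^ (-(1 / 2) : ℝ) :=
              Real.rpow_le_rpow_of_nonpos h2 h1 (by norm_num)
          _ = (j : ℝ) ^ (-(1 / 2) : ℝ) * (Wf : ℝ) ^ ((1 / 2) : ℝ) := by
              rw [Real.div_rpow hjR.le (by linarith), Real.rpow_neg (by linarith : (0 : ℝ) ≤ Wf), div_inv_eq_mul]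
          _ ≤ (j : ℝ) ^ (-(1 / 2) : ℝ) * Wf := by
              apply mul_le_mul_of_nonneg_left _ (by positivity)
              calc (Wf : ℝ) ^ ((1 / 2) : ℝ) ≤ (Wf : ℝ) ^ (1 : ℝ) :=
                    Real.rpow_le_rpow_of_exponent_le hWR (by norm_num)
                _ = Wf := Real.rpow_one _
          _ = Wf * (j : ℝ) ^ (-(1 / 2) : ℝ) := mul_comm _ _
      have hterm : ∀ x ∈ X, ((B / (d * g x) : ℕ) : ℝ) / ((Wf * m x : ℕ) : ℝ) ≤
          N / d * (1 / ((g x : ℝ) * m x)) := by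
        intro x hx
        obtain ⟨x1, x2, -⟩ := hX x hx
        have hmR : (1 : ℝ) ≤ m x := by exact_mod_cast x2
        have h1 : (m x : ℝ) ≤ ((Wf * m x : ℕ) : ℝ) := by
          push_cast
          exact le_mul_of_one_le_left (by linarith) hWR
        calc ((B / (d * g x) : ℕ) : ℝ) / ((Wf * m x : ℕ) : ℝ) ≤ (N / d * (1 / g x)) / m x :=
              div_le_div₀ (by positivity) (hT x hx) (by linarith) h1
          _ = N / d * (1 / ((g x : ℝ) * m x)) := by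
              rw [mul_div_assoc, div_div]
      calc ∑ x ∈ X.filter (fun x => j ∣ Wf * m x), ((B / (d * g x) : ℕ) : ℝ) / ((Wf * m x : ℕ) : ℝ)
          ≤ ∑ x ∈ X.filter (fun x => j ∣ Wf * m x), N / d * (1 / ((g x : ℝ) * m x)) :=
            sum_le_sum fun x hx => hterm x (mem_filter.1 hx).1
        _ ≤ ∑ x ∈ X.filter (fun x => j / j.gcd Wf ∣ m x), N / d * (1 / ((g x : ℝ) * m x)) := by
            apply sum_le_sum_of_subset_of_nonneg
            · intro x hx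
              rw [mem_filter] at hx ⊢
              exact ⟨hx.1, sid1_div hj1 hx.2⟩
            · intro x _ _
              positivity
        _ = N / d * ∑ x ∈ X.filter (fun x => j / j.gcd Wf ∣ m x), 1 / ((g x : ℝ) * m x) := by rw [mul_sum]
        _ ≤ N / d * (Th * (((j / j.gcd Wf : ℕ) : ℝ) ^ (-(1 / 2) : ℝ) + (N : ℝ) ^ (-e))) :=
            mul_le_mul_of_nonneg_left hsum (by positivity)
        _ ≤ N / d * (Th * (Wf * (j : ℝ) ^ (-(1 / 2) : ℝ) + Wf * (N : ℝ) ^ (-e))) := by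
            apply mul_le_mul_of_nonneg_left _ (by positivity)
            apply mul_le_mul_of_nonneg_left _ hTh
            exact add_le_add hpow (le_mul_of_one_le_left (by positivity) hWR)
        _ = Th * (N / d) * Wf * ((j : ℝ) ^ (-(1 / 2) : ℝ) + (N : ℝ) ^ (-e)) := by ring)
  refine key.trans ?_
  have hKA : (0 : ℝ) < (Real.log N) ^ A := by positivity
  have h1 : Th * (N / d) * Wf / (Real.log N) ^ (A + 1) = Th * (N / d) / (Real.log N) ^ A * (Wf / Real.log N) := by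
    rw [pow_succ]
    field_simp
  rw [h1]
  have h2 : (Wf : ℝ) / Real.log N ≤ 1 := by
    rw [div_le_one (by linarith)]
    exact p3
  calc Th * (N / d) / (Real.log N) ^ A * (Wf / Real.log N) ≤ Th * (N / d) / (Real.log N) ^ A * 1 :=
        mul_le_mul_of_nonneg_left h2 (by positivity)
    _ = Th * (N / d) / (Real.log N) ^ A := mul_one _

end Pool.Agent.Lib.T3E
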