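import Pool.Agent.Lib.MP_7b7e48_nt.T3E.Sid1
import Pool.Agent.Lib.MP_7b7e48_nt.T3E.Dec
import Pool.Agent.Lib.MP_7b7e48_nt.T3E.Vb
import Pool.Agent.Lib.MP_7b7e48_nt.TE.H2R

/-!
# T3E / Sid2 (120 minutes): `lam - c`, relative to `σ` (copy of `TE/Sid2.lean`)

PROOF. As `TE/Sid2.lean`: `decF` (`T = B/g`), FIRST PART: for fixed `b` (`Rough wa b`, `h2 c b ≠ 0`, so `b` is coprime to `Wf N`): `sidF1 (A + 5)` with `d = b` (`B/g/b = B/(b g)`; `HG`: `p ≤ wb ≤ wa`, `p ∤ b` because `Rough wa b`, `p ∤ g` by hypothesis), SECOND PART: `vbF (A + 2) CL`. The numerics are the same.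
-/

set_option autoImplicit false

open Finset
open Pool.Agent.Lib.MP_45349e_nt.LS (lam)
open Pool.Agent.Lib.GT (Rough)
open Pool.Agent.Lib.RG (LV RC)
open Pool.Agent.Lib.OW (QP h2)
open Pool.Agent.Lib.TE (FN zC)

namespace Pool.Agent.Lib.T3E

private theorem sidF2_h2_nonneg (c : ℕ → ℝ) (b : ℕ) : 0 ≤ h2 c b := by
  unfold h2
  split_ifs
  · positivity
  · exact le_refl _

private theorem sidF2_cop {M : ℕ} {c : ℕ → ℝ} (hc : RC M c) {b : ℕ} (hb : h2 c b ≠ 0) : b.Coprime M := by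
  by_contra hcon
  obtain ⟨p, hp, hpb, hpM⟩ := Nat.Prime.not_coprime_iff_dvd.mp hcon
  have h : ∀ q : ℕ, q.Prime → q ∣ b → c q = 1 := by
    by_contra h'
    apply hb
    unfold h2
    rw [if_neg h']
  have h1 := h p hp hpb
  have h0 := hc.zero p (by
    intro hco
    exact (hp.coprime_iff_not_dvd.mp hco) hpM)
  rw [h1] at h0
  norm_num at h0

private theorem sidF2_inv (q b cl : ℕ) (hq : 1 ≤ q) (hb : b.Coprime q) (hcl : cl.Coprime q) :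
    ∃ c' : ℕ, c'.Coprime q ∧ ∀ n : ℕ, b * n ≡ cl [MOD q] ↔ n ≡ c' [MOD q] := by
  haveI : NeZero q := ⟨by omega⟩
  obtain ⟨u, hu⟩ : ∃ u : (ZMod q)ˣ, (u : ZMod q) = (b : ZMod q) := ⟨ZMod.unitOfCoprime b hb, rfl⟩
  obtain ⟨v, hv⟩ : ∃ v : (ZMod q)ˣ, (v : ZMod q) = (cl : ZMod q) := ⟨ZMod.unitOfCoprime cl hcl, rfl⟩
  refine ⟨((u⁻¹ * v : (ZMod q)ˣ) : ZMod q).val, ZMod.val_coe_unit_coprime _, ?_⟩
  intro n
  rw [← ZMod.natCast_eq_natCast_iff, ← ZMod.natCast_eq_natCast_iff, ZMod.natCast_zmod_val, Nat.cast_mul, ← hu, ← hv,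
    Units.val_mul]
  constructor
  · intro h
    rw [← h, Units.inv_mul_cancel_left]
  · intro h
    rw [h, Units.mul_inv_cancel_left]

open Classical in
/-- the part `b ≤ Z` -/
private theorem sidF2_first {Wf N wa wb B : ℕ} {H : ℤ} {c : ℕ → ℝ} (hc : RC (Wf * N) c) (hW : 1 ≤ Wf) {ι : Type} (X : Finset ι)
    (g m cl : ι → ℕ) (E : ℝ) (Z : ℕ) (hm : ∀ x ∈ X, 1 ≤ m x) (hcl : ∀ x ∈ X, (cl x).Coprime (Wf * m x))
    (hsid : ∀ d : ℕ, 1 ≤ d → d ≤ Z → d.Coprime N → Rough wa d → ∀ (Y : Finset ι) (cl' : ι → ℕ), Y ⊆ X →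
      (∀ x ∈ Y, (cl' x).Coprime (Wf * m x)) →
      ∑ x ∈ Y, |∑ n ∈ (Icc 1 (B / (d * g x))).filter
        (fun n => n ≡ cl' x [MOD Wf * m x] ∧ Rough wa n ∧ RZ wb (((d * g x : ℕ) : ℤ) * n + H)), FN N n| ≤ E / d) :
    ∑ x ∈ X, |∑ b ∈ (Icc 2 Z).filter (fun b => Rough wa b ∧ b.Coprime (Wf * m x)), h2 c b *
        ∑ n ∈ (Icc 1 (B / g x / b)).filter
          (fun n => b * n ≡ cl x [MOD Wf * m x] ∧ Rough wa n ∧ RZ wb (((g x * b : ℕ) : ℤ) * n + H)), FN N n| ≤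
      E * ∑ b ∈ (Icc 2 Z).filter (fun b => Rough wa b), h2 c b / b := by
  have h1 : ∀ x ∈ X, |∑ b ∈ (Icc 2 Z).filter (fun b => Rough wa b ∧ b.Coprime (Wf * m x)), h2 c b *
        ∑ n ∈ (Icc 1 (B / g x / b)).filter
          (fun n => b * n ≡ cl x [MOD Wf * m x] ∧ Rough wa n ∧ RZ wb (((g x * b : ℕ) : ℤ) * n + H)), FN N n| ≤
      ∑ b ∈ (Icc 2 Z).filter (fun b => Rough wa b), if b.Coprime (Wf * m x) then h2 c b *
        |∑ n ∈ (Icc 1 (B / g x / b)).filter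
          (fun n => b * n ≡ cl x [MOD Wf * m x] ∧ Rough wa n ∧ RZ wb (((g x * b : ℕ) : ℤ) * n + H)), FN N n| else 0 := by
    intro x _
    refine (Finset.abs_sum_le_sum_abs _ _).trans ?_
    rw [← Finset.filter_filter, Finset.sum_filter]
    refine Finset.sum_le_sum fun b _ => ?_
    by_cases hco : b.Coprime (Wf * m x)
    · rw [if_pos hco, if_pos hco, abs_mul, abs_of_nonneg (sidF2_h2_nonneg c b)]
    · rw [if_neg hco, if_neg hco]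
  refine (Finset.sum_le_sum h1).trans ?_
  rw [Finset.sum_comm, Finset.mul_sum]
  refine Finset.sum_le_sum fun b hb => ?_
  rw [mem_filter, mem_Icc] at hb
  by_cases hb0 : h2 c b = 0
  · rw [hb0]
    simp
  have hcop := sidF2_cop hc hb0
  have hcopN : b.Coprime N := Nat.Coprime.coprime_mul_left_right hcop
  have hex : ∀ x : ι, ∃ c' : ℕ, x ∈ X → b.Coprime (Wf * m x) →
      c'.Coprime (Wf * m x) ∧ ∀ n : ℕ, b * n ≡ cl x [MOD Wf * m x] ↔ n ≡ c' [MOD Wf * m x] := by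
    intro x
    by_cases hx : x ∈ X ∧ b.Coprime (Wf * m x)
    · obtain ⟨c', h1, h2⟩ := sidF2_inv (Wf * m x) b (cl x) (Nat.mul_pos hW (hm x hx.1)) hx.2 (hcl x hx.1)
      exact ⟨c', fun _ _ => ⟨h1, h2⟩⟩
    · exact ⟨0, fun h h' => absurd ⟨h, h'⟩ hx⟩
  choose c' hc' using hex
  have hs := hsid b (by omega) hb.1.2 hcopN hb.2 (X.filter fun x => b.Coprime (Wf * m x)) c' (Finset.filter_subset _ _) (by
    intro x hx
    rw [mem_filter] at hx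
    exact (hc' x hx.1 hx.2).1)
  rw [← Finset.sum_filter, ← Finset.mul_sum]
  have heq : ∑ x ∈ X.filter (fun x => b.Coprime (Wf * m x)), |∑ n ∈ (Icc 1 (B / g x / b)).filter
          (fun n => b * n ≡ cl x [MOD Wf * m x] ∧ Rough wa n ∧ RZ wb (((g x * b : ℕ) : ℤ) * n + H)), FN N n| =
      ∑ x ∈ X.filter (fun x => b.Coprime (Wf * m x)), |∑ n ∈ (Icc 1 (B / (b * g x))).filter
        (fun n => n ≡ c' x [MOD Wf * m x] ∧ Rough wa n ∧ RZ wb (((b * g x : ℕ) : ℤ) * n + H)), FN N n| := by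
    refine Finset.sum_congr rfl fun x hx => ?_
    rw [mem_filter] at hx
    rw [Nat.div_div_eq_div_mul, mul_comm (g x) b]
    congr 2
    refine Finset.filter_congr fun n _ => ?_
    rw [(hc' x hx.1 hx.2).2 n]
  rw [heq]
  have hbpos : (0 : ℝ) < b := by exact_mod_cast (by omega : 0 < b)
  calc h2 c b * _ ≤ h2 c b * (E / b) := mul_le_mul_of_nonneg_left hs (sidF2_h2_nonneg c b)
    _ = E * (h2 c b / b) := by ring

/-- numerics -/
private theorem sidF2_num (A : ℕ) : ∃ N0 : ℕ, ∀ N : ℕ, N0 ≤ N → ∀ s : ℝ, (N : ℝ) ^ (-(1 / 40) : ℝ) ≤ s →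
    (N : ℝ) ^ ((1 : ℝ) / 2000) * (N : ℝ) ^ ((193 : ℝ) / 200) ≤ s * N / (Real.log N) ^ (A + 2) ∧
      15 ≤ Real.log N := by
  have hlo := isLittleO_log_rpow_rpow_atTop ((A + 2 : ℕ) : ℝ) (show (0 : ℝ) < 19 / 2000 by norm_num)
  have h1 := tendsto_natCast_atTop_atTop.eventually (hlo.bound one_pos)
  have h2 : ∀ᶠ N : ℕ in Filter.atTop, 15 ≤ Real.log N :=
    (Real.tendsto_log_atTop.comp tendsto_natCast_atTop_atTop).eventually_ge_atTop 15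
  obtain ⟨N0, hN0⟩ := Filter.eventually_atTop.mp (h1.and h2)
  refine ⟨max N0 1, ?_⟩
  intro N hN s hs
  obtain ⟨h3, h4⟩ := hN0 N (le_trans (le_max_left _ _) hN)
  refine ⟨?_, h4⟩
  have hN1 : 1 ≤ N := le_trans (le_max_right _ _) hN
  have hNr : (0 : ℝ) < N := by exact_mod_cast hN1
  have hK : 0 < Real.log N := by linarith
  rw [Real.rpow_natCast, Real.norm_of_nonneg (by positivity), Real.norm_of_nonneg (by positivity), one_mul] at h3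
  rw [le_div_iff₀ (pow_pos hK _), ← Real.rpow_add hNr]
  have h6 : (N : ℝ) ^ ((1 : ℝ) / 2000 + 193 / 200) * (N : ℝ) ^ ((19 : ℝ) / 2000) =
      (N : ℝ) ^ (-(1 / 40) : ℝ) * N := by
    rw [← Real.rpow_add hNr]
    nth_rewrite 3 [← Real.rpow_one (N : ℝ)]
    rw [← Real.rpow_add hNr]
    norm_num
  have hp : (0 : ℝ) ≤ (N : ℝ) ^ ((1 : ℝ) / 2000 + 193 / 200) := by positivity
  calc (N : ℝ) ^ ((1 : ℝ) / 2000 + 193 / 200) * Real.log N ^ (A + 2)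
      ≤ (N : ℝ) ^ ((1 : ℝ) / 2000 + 193 / 200) * (N : ℝ) ^ ((19 : ℝ) / 2000) :=
        mul_le_mul_of_nonneg_left h3 hp
    _ = (N : ℝ) ^ (-(1 / 40) : ℝ) * N := h6
    _ ≤ s * N := mul_le_mul_of_nonneg_right hs hNr.le

open Classical in
theorem sidF2 (Wf : ℕ) (hW : 1 ≤ Wf) (A CL : ℕ) : ∃ C0 : ℝ, 5000 ≤ C0 ∧ ∀ C1 : ℝ, C0 ≤ C1 → ∀ e : ℝ, 0 < e → ∃ N0 : ℕ, ∀ (N : ℕ) [NeZero (Wf * N)], N0 ≤ N →
    ∀ χ : DirichletCharacter ℂ (Wf * N), χ ^ 2 = 1 →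
    (∃ m : ℕ, m ≡ 1 [MOD Wf] ∧ m.Coprime (Wf * N) ∧ χ (m : ZMod (Wf * N)) ≠ 1) →
    ∀ L : ℝ, 0 ≤ L → LV (Wf * N) (fun n => (χ (n : ZMod (Wf * N))).re) L →
    ∀ σ : ℝ, (N : ℝ) ^ (-(1 / 40) : ℝ) ≤ σ → L ≤ (Real.log N) ^ CL * σ → ∀ w0 : ℕ, 2 ≤ w0 →
    ∑ q ∈ (QP (fun n => (χ (n : ZMod (Wf * N))).re) ⌊(N : ℝ) ^ ((4 : ℝ) / 5)⌋₊).filter (fun q => w0 < q), 1 / (q : ℝ) ≤ σ →
    ∀ wa wb : ℕ, w0 ≤ wa → wb ≤ wa → wa ≤ zC C1 N → (∀ n : ℕ, Rough wa n → n.Coprime Wf) → ∀ H : ℤ, HN N H →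
    ∀ B : ℕ, (N : ℝ) ^ ((999 : ℝ) / 1000) ≤ B → B ≤ N →
    ∀ (ι : Type) (X : Finset ι) (g m cl : ι → ℕ) (Th : ℝ), 0 ≤ Th →
    (∀ x ∈ X, 1 ≤ g x ∧ 1 ≤ m x ∧ ((g x * m x : ℕ) : ℝ) ≤ (N : ℝ) ^ ((1 : ℝ) / 2000) ∧ (g x * m x).Coprime (Wf * N) ∧
      (cl x).Coprime (Wf * m x) ∧ ∀ p : ℕ, p.Prime → p ≤ wb → ¬ p ∣ g x) →
    (∀ j : ℕ, 1 ≤ j → ∑ x ∈ X.filter (fun x => j ∣ m x), 1 / ((g x : ℝ) * m x) ≤
      Th * ((j : ℝ) ^ (-(1 / 2) : ℝ) + (N : ℝ) ^ (-e))) →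
    ∑ x ∈ X, |∑ n ∈ (Icc 1 (B / g x)).filter
      (fun n => n ≡ cl x [MOD Wf * m x] ∧ n.Coprime N ∧ Rough wa n ∧ RZ wb ((g x : ℤ) * n + H)),
        (lam n - (χ (n : ZMod (Wf * N))).re)| ≤
      σ * Th * N / (Real.log N) ^ A := by
  obtain ⟨Ca, hCa, hsid⟩ := sidF1 Wf hW (A + 5)
  obtain ⟨Cb, hCb, hvb⟩ := vbF Wf hW (A + 2) CL
  refine ⟨max Ca Cb, le_trans hCa (le_max_left _ _), ?_⟩
  intro C1 hC1 e he
  obtain ⟨N1, hN1⟩ := hsid C1 (le_trans (le_max_left _ _) hC1) e he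
  obtain ⟨N2, hN2⟩ := hvb C1 (le_trans (le_max_right _ _) hC1)
  obtain ⟨N3, hN3⟩ := TE.h2_rough
  obtain ⟨N4, hN4⟩ := sidF2_num A
  refine ⟨max (max 2 N1) (max N2 (max N3 N4)), ?_⟩
  intro N _ hN χ hχ hne L hL0 hL s hlow hLs w0 hw0 hqs wa wb hwa hwb hwaz hWf H hH B hB1 hB2 ι X g m cl Th hTh hX hj
  have hwbz : wb ≤ zC C1 N := le_trans hwb hwaz
  have hNN : 2 ≤ N ∧ N1 ≤ N ∧ N2 ≤ N ∧ N3 ≤ N ∧ N4 ≤ N := by
    simp only [max_le_iff] at hN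
    exact ⟨hN.1.1, hN.1.2, hN.2.1, hN.2.2.1, hN.2.2.2⟩
  obtain ⟨hn2, hn1, hn2', hn3, hn4⟩ := hNN
  have hne' := hne
  obtain ⟨m0, hm1, hm2, hm3⟩ := hne
  have hNM : N ≤ Wf * N := Nat.le_mul_of_pos_left _ hW
  have hW2 : 2 ≤ Wf * N := by omega
  have hχ1 : χ ≠ 1 := by
    intro h
    apply hm3
    rw [h]
    exact MulChar.one_apply ((ZMod.isUnit_iff_coprime m0 (Wf * N)).mpr hm2)
  have hRC := Pool.Agent.Lib.RG.RC_char (Wf * N) hW2 χ hχ hχ1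
  obtain ⟨hnum1, hnum2⟩ := hN4 N hn4 s hlow
  have hwa2 : 2 ≤ wa := le_trans hw0 hwa
  set c : ℕ → ℝ := fun n => (χ (n : ZMod (Wf * N))).re with hcdef
  set Z : ℕ := ⌊(N : ℝ) ^ ((4 : ℝ) / 5)⌋₊ with hZdef
  have hN1r : (1 : ℝ) ≤ N := by exact_mod_cast (by omega : 1 ≤ N)
  have hN0r : (0 : ℝ) < N := by linarith
  have hs0 : 0 ≤ s := le_trans (by positivity) hlow
  have hZ1 : 1 ≤ Z := by
    rw [hZdef]
    apply Nat.le_floor
    rw [Nat.cast_one]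
    exact Real.one_le_rpow hN1r (by norm_num)
  have hZr : (Z : ℝ) ≤ (N : ℝ) ^ ((4 : ℝ) / 5) := Nat.floor_le (by positivity)
  have hZN : Z ≤ N := by
    have h1 : (Z : ℝ) ≤ (N : ℝ) := by
      refine hZr.trans ?_
      calc (N : ℝ) ^ ((4 : ℝ) / 5) ≤ (N : ℝ) ^ (1 : ℝ) := Real.rpow_le_rpow_of_exponent_le hN1r (by norm_num)
        _ = N := Real.rpow_one _
    exact_mod_cast h1
  have hrough : ∑ b ∈ (Icc 2 Z).filter (fun b => Rough wa b), h2 c b / b ≤ (Real.log N) ^ 3 * s := by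
    refine le_trans ?_ (hN3 N hn3 c w0 Z s hZN hqs)
    refine Finset.sum_le_sum_of_subset_of_nonneg ?_ (fun b _ _ => div_nonneg (sidF2_h2_nonneg c b) (by positivity))
    intro b hb
    rw [mem_filter] at hb ⊢
    exact ⟨hb.1, fun p hp hpb => lt_of_le_of_lt hwa (hb.2 p hp hpb)⟩
  set K : ℝ := Real.log N with hKdef
  have hK0 : 0 < K := by linarith
  have hKA : 0 < K ^ (A + 2) := pow_pos hK0 _
  -- the two parts
  set E : ℝ := Th * N / K ^ (A + 5) with hEdef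
  have hE0 : 0 ≤ E := by positivity
  have hfirst := sidF2_first (wa := wa) (wb := wb) (B := B) (H := H) hRC hW X g m cl E Z (fun x hx => (hX x hx).2.1)
    (fun x hx => (hX x hx).2.2.2.2.1) (by
      intro d hd1 hdZ hdN hdr Y cl' hY hcl'
      have h := hN1 N hn1 wa wb hwaz hwbz H hH B hB1 hB2 d hd1 (le_trans (by exact_mod_cast hdZ) hZr) hdN ι Y g m cl' Th hTh
        (by
          intro x hx
          obtain ⟨ha, hb, hc, hd, _, hpg⟩ := hX x (hY hx)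
          refine ⟨ha, hb, hc, ?_, hcl' x hx, ?_⟩
          · exact Nat.Coprime.coprime_mul_left_right (Nat.Coprime.coprime_mul_right hd)
          · intro p hp hpw _ _
            refine ⟨le_trans hpw hwb, fun hpd => ?_⟩
            rcases (Nat.Prime.dvd_mul hp).1 hpd with h1 | h1
            · exact absurd (hdr p hp h1) (not_lt.2 (le_trans hpw hwb))
            · exact hpg p hp hpw h1)
        (by
          intro j hj1
          refine le_trans ?_ (hj j hj1)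
          exact Finset.sum_le_sum_of_subset_of_nonneg (Finset.filter_subset_filter _ hY) (fun _ _ _ => by positivity))
      refine h.trans (le_of_eq ?_)
      rw [hEdef]
      ring)
  have hsum1 : ∑ x ∈ X, 1 / ((g x : ℝ) * m x) ≤ 2 * Th := by
    have h1 := hj 1 le_rfl
    rw [Finset.filter_true_of_mem (fun x _ => one_dvd _)] at h1
    refine h1.trans ?_
    have h2 : (N : ℝ) ^ (-e) ≤ 1 := Real.rpow_le_one_of_one_le_of_nonpos hN1r (by linarith)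
    rw [Nat.cast_one, Real.one_rpow]
    nlinarith
  have hcard : (X.card : ℝ) ≤ 2 * Th * (N : ℝ) ^ ((1 : ℝ) / 2000) := by
    have h1 : (X.card : ℝ) ≤ ∑ x ∈ X, (N : ℝ) ^ ((1 : ℝ) / 2000) * (1 / ((g x : ℝ) * m x)) := by
      rw [Finset.card_eq_sum_ones, Nat.cast_sum]
      refine Finset.sum_le_sum fun x hx => ?_
      obtain ⟨ha, hb, hc, _, _, _⟩ := hX x hx
      have ha' : (0 : ℝ) < g x := by exact_mod_cast ha
      have hb' : (0 : ℝ) < m x := by exact_mod_cast hb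
      rw [mul_one_div, Nat.cast_one, one_le_div (by positivity)]
      exact_mod_cast hc
    rw [← Finset.mul_sum] at h1
    have hp : (0 : ℝ) ≤ (N : ℝ) ^ ((1 : ℝ) / 2000) := by positivity
    nlinarith [mul_le_mul_of_nonneg_left hsum1 hp]
  have hsecond : ∀ x ∈ X, |∑ n ∈ (Icc 1 (B / g x / Z)).filter (fun n => n.Coprime (Wf * N * m x) ∧ Rough wa n), lam n *
      ∑ b ∈ (Ioc Z (B / g x / n)).filter
        (fun b => b * n ≡ cl x [MOD Wf * m x] ∧ Rough wa b ∧ RZ wb (((g x * n : ℕ) : ℤ) * b + H)), h2 c b| ≤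
      s * N / K ^ (A + 2) * (1 / ((g x : ℝ) * m x)) + (N : ℝ) ^ ((193 : ℝ) / 200) := by
    intro x hx
    obtain ⟨ha, hb, hc, hd, he', hpg⟩ := hX x hx
    have h := hN2 N hn2' χ hχ hne' L hL0 hL s hLs wa wb hwa2 hwb hwaz H hH B hB1 hB2 (g x) (m x) (cl x) ha hb hc hd hpg he'
    refine h.trans (le_of_eq ?_)
    congr 1
    rw [mul_one_div, div_right_comm]
  have hdec : ∀ x ∈ X, |∑ n ∈ (Icc 1 (B / g x)).filter
      (fun n => n ≡ cl x [MOD Wf * m x] ∧ n.Coprime N ∧ Rough wa n ∧ RZ wb ((g x : ℤ) * n + H)),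
        (lam n - c n)| ≤ |∑ b ∈ (Icc 2 Z).filter (fun b => Rough wa b ∧ b.Coprime (Wf * m x)), h2 c b *
        ∑ n ∈ (Icc 1 (B / g x / b)).filter
          (fun n => b * n ≡ cl x [MOD Wf * m x] ∧ Rough wa n ∧ RZ wb (((g x * b : ℕ) : ℤ) * n + H)), FN N n| +
      (s * N / K ^ (A + 2) * (1 / ((g x : ℝ) * m x)) + (N : ℝ) ^ ((193 : ℝ) / 200)) := by
    intro x hx
    obtain ⟨ha, hb, hc, hd, he', hpg⟩ := hX x hx
    rw [decF hRC hW (by omega) wa wb (g x) (m x) (cl x) Z (B / g x) H hb hZ1 he' hWf]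
    have h1 := hsecond x hx
    refine (abs_sub _ _).trans ?_
    rw [abs_neg]
    linarith
  refine (Finset.sum_le_sum hdec).trans ?_
  rw [Finset.sum_add_distrib, Finset.sum_add_distrib, ← Finset.mul_sum, Finset.sum_const, nsmul_eq_mul]
  have hA1 : E * ∑ b ∈ (Icc 2 Z).filter (fun b => Rough wa b), h2 c b / b ≤ E * (K ^ 3 * s) :=
    mul_le_mul_of_nonneg_left hrough hE0
  have hA2 : s * N / K ^ (A + 2) * ∑ x ∈ X, 1 / ((g x : ℝ) * m x) ≤ s * N / K ^ (A + 2) * (2 * Th) :=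
    mul_le_mul_of_nonneg_left hsum1 (by positivity)
  have hA3 : (X.card : ℝ) * (N : ℝ) ^ ((193 : ℝ) / 200) ≤ 2 * Th * (s * N / K ^ (A + 2)) := by
    calc (X.card : ℝ) * (N : ℝ) ^ ((193 : ℝ) / 200)
        ≤ (2 * Th * (N : ℝ) ^ ((1 : ℝ) / 2000)) * (N : ℝ) ^ ((193 : ℝ) / 200) :=
          mul_le_mul_of_nonneg_right hcard (by positivity)
      _ = 2 * Th * ((N : ℝ) ^ ((1 : ℝ) / 2000) * (N : ℝ) ^ ((193 : ℝ) / 200)) := by ring
      _ ≤ 2 * Th * (s * N / K ^ (A + 2)) := mul_le_mul_of_nonneg_left hnum1 (by positivity)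
  have hfin : E * (K ^ 3 * s) + (s * N / K ^ (A + 2) * (2 * Th) + 2 * Th * (s * N / K ^ (A + 2))) ≤
      s * Th * N / K ^ A := by
    have h1 : E * (K ^ 3 * s) + (s * N / K ^ (A + 2) * (2 * Th) + 2 * Th * (s * N / K ^ (A + 2))) =
        s * Th * N * 5 / K ^ (A + 2) := by
      have h5 : K ^ (A + 5) = K ^ (A + 2) * K ^ 3 := by rw [← pow_add]
      rw [hEdef, h5]
      field_simp
      ring
    rw [h1, div_le_div_iff₀ hKA (pow_pos hK0 _), pow_add]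
    have h2 : (5 : ℝ) ≤ K ^ 2 := by nlinarith
    have h3 : 0 ≤ s * Th * N * K ^ A := by positivity
    nlinarith
  linarith

end Pool.Agent.Lib.T3E
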