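import Pool.Agent.Lib.MP_7b7e48_nt.T3E.Sid1
import Pool.Agent.Lib.MP_7b7e48_nt.T3E.Fam
import Pool.Agent.Lib.MP_7b7e48_nt.T3E.Tr
import Pool.Agent.Lib.MP_7b7e48_nt.T3E.Rng
import Pool.Agent.Lib.MP_7b7e48_nt.TCF.Bas

/-!
# T3E / Sid3 (120 minutes): `lam` on the numbers `Z` with `g ∣ Z`, `m ∣ Z + H`, `g, m` in two families

`R = W^2 N`, `K = log N`, `M = MM P R`, `H = ± D' R`. PROOF. `pow_range` with `x = K^Cj`: `N1 = 2^i N ≥ K^Cj N ≥ b`, `N1 ≤ 2 K^Cj N`, `log N1 ≤ 2 K`; coprime to `N1` iff coprime to `N` (`N` even); `HN N1 H` (a prime factor of `N1` divides `N`, so `R`, so `H`). Pairs `(g, m)` which are not coprime contribute `0`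
(a common prime `p > y0 ≥ D'` divides `Z` and `Z + H`, so `H = ± D' R`, but `p ∤ R`, `p ∤ D'`); so does everything if `r` is not coprime to `W^2` (`Z ≡ r` is coprime to `R`). For a coprime pair: `rng` with `f = lam`, `Q Z` = the other conditions; `Q (g n)` iff `n ≡ cl` modulo `W^2 m` (`cls`, `q = W^2`; `H` is coprime to `m` as above), `n` coprime to `N`, `Rough M n`,
`RZ M (g n + H)` (`g` is coprime to `R` and has all primes `> y0 ≥ M`; `n` with `Rough M n` is coprime to `W` because the primes of `W` are `≤ M` for large `N`); `lam (g n) = lam g lam n`. Both sums (`B = b` and `B = a`): if `B ≥ N1^(999/1000)`: `sidF1 (A + Cj + 2)` with `N := N1`, `Wf = W^2`, `wa = wb = M ≤ zC C1 N1` (large `N`), `d = 1`, `e = 1`,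
family = the coprime pairs in `TUP B1 × TUP B2`, `Th = rho B1 rho B2` (`famw`: the sum over the pairs with `j ∣ m` is `≤ (∑ 1/g) (∑_{j ∣ m} 1/m)`), `HG`: `p ≤ M ≤ y0` does not divide `g`. `g m ≤ R^(kap/50) ≤ N1^(1/2000)`. If `B < N1^(999/1000)`: trivially the number of `n ≤ B/g`, `n ≡ cl` modulo `W^2 m`, is `≤ B/(g m) + 1`; sum
`≤ N1^(999/1000) + (number of pairs) ≤ 3 N^(9991/10000) ≤ rho1 rho2 N/K^(A+1)` (`hρ`).
-/

set_option autoImplicit false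

open Finset
open Pool.Agent.Lib.MP_45349e_nt.LS (lam)
open Pool.Agent.Lib.GT (Rough)
open Pool.Agent.Lib.TE (FN)
open Pool.Agent.Lib.TCF (TUP rho FamOk)
open Pool.Agent.Lib.RH (Prm MM JJ)

namespace Pool.Agent.Lib.T3E

private theorem s3_zC (C1 : ℝ) (h : 1 ≤ C1) (A : ℕ) : ∀ᶠ N : ℕ in Filter.atTop,
    (Real.log N) ^ A ≤ (Pool.Agent.Lib.TE.zC C1 N : ℝ) := by
  have h2 : Filter.Tendsto (fun N : ℕ => Real.log N) Filter.atTop Filter.atTop :=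
    Real.tendsto_log_atTop.comp tendsto_natCast_atTop_atTop
  have h1 : (fun t : ℝ => Real.log t ^ 2) =o[Filter.atTop] fun t : ℝ => t :=
    Real.isLittleO_pow_log_id_atTop
  have hC : 0 < C1 := by linarith
  have hA : (0 : ℝ) < ((A : ℝ) + 1) * C1 := by positivity
  have h3 := h2.eventually (h1.bound (show (0 : ℝ) < 1 / (((A : ℝ) + 1) * C1) by positivity))
  filter_upwards [h3, h2.eventually (Filter.eventually_ge_atTop 8)] with N hN hN8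
  have hNpos : (0 : ℝ) < N := by
    rcases Nat.eq_zero_or_pos N with h0 | h0
    · rw [h0, Nat.cast_zero, Real.log_zero] at hN8
      linarith
    · exact_mod_cast h0
  set K := Real.log N with hK
  rw [Real.norm_eq_abs, Real.norm_eq_abs, abs_of_nonneg (sq_nonneg _),
    abs_of_nonneg (show 0 ≤ K by linarith), one_div, inv_mul_eq_div, le_div_iff₀ hA] at hN
  have hlK : 1 < Real.log K := by
    rw [Real.lt_log_iff_exp_lt (by linarith)]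
    have := Real.exp_one_lt_d9
    linarith
  have h4 : ((A : ℝ) + 1) * Real.log K ≤ K / (C1 * Real.log K) := by
    rw [le_div_iff₀ (by positivity)]
    nlinarith
  have h5 : K ^ (A + 1) ≤ (N : ℝ) ^ (1 / (C1 * Real.log K)) := by
    rw [Real.rpow_def_of_pos hNpos, ← hK]
    calc K ^ (A + 1) = Real.exp (((A : ℝ) + 1) * Real.log K) := by
          rw [← Real.rpow_natCast, Real.rpow_def_of_pos (by linarith)]
          push_cast
          ring_nf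
      _ ≤ Real.exp (K * (1 / (C1 * Real.log K))) := by
          apply Real.exp_le_exp.2
          rw [mul_one_div]
          exact h4
  have h6 : (N : ℝ) ^ (1 / (C1 * Real.log K)) < (Pool.Agent.Lib.TE.zC C1 N : ℝ) + 1 := Nat.lt_floor_add_one _
  have h7 : K ^ A + 1 ≤ K ^ (A + 1) := by
    have : 1 ≤ K ^ A := one_le_pow₀ (by linarith)
    rw [pow_succ]
    nlinarith
  linarith

private theorem s3_num (P : Prm) (hP : P.Ok) (W : ℕ) (hW : 0 < W) (A Cj N0a : ℕ) (C1 : ℝ) (hC1 : 1 ≤ C1) :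
    ∃ N0 : ℕ, ∀ N : ℕ, N0 ≤ N → N0a ≤ N ∧ Pool.Agent.Lib.RH.Num P (W ^ 2 * N) ∧ W ^ 2 ≤ N ∧ (W : ℝ) ≤ Real.log N ∧
      (8 : ℝ) ≤ Real.log N ∧ (2 : ℝ) ^ (P.C1 + 1) ≤ Real.log N ∧
      (∀ N' : ℕ, N ≤ N' → (Real.log N') ^ (P.C1 + 1) ≤ (Pool.Agent.Lib.TE.zC C1 N' : ℝ)) ∧
      2 * (Real.log N) ^ Cj ≤ (N : ℝ) ^ ((1 : ℝ) / 8) ∧
      32 * (Real.log N) ^ (Cj + A) ≤ (N : ℝ) ^ ((1 : ℝ) / 2000) := by
  obtain ⟨Nn, hNn⟩ := Pool.Agent.Lib.RH.num P hP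
  obtain ⟨Nz, hNz⟩ := (s3_zC C1 hC1 (P.C1 + 1)).exists_forall_of_atTop
  have e1 := Pool.Agent.Lib.RH.ev_log_ge (W : ℝ)
  have e2 := Pool.Agent.Lib.RH.ev_log_ge (8 : ℝ)
  have e3 := Pool.Agent.Lib.RH.ev_log_ge ((2 : ℝ) ^ (P.C1 + 1))
  have e4 := Pool.Agent.Lib.RH.ev_log_pow Cj (1 / 8) (by norm_num) 2 (by norm_num)
  have e5 := Pool.Agent.Lib.RH.ev_log_pow (Cj + A) (1 / 2000) (by norm_num) 32 (by norm_num)
  obtain ⟨Nb, hNb⟩ := (e1.and (e2.and (e3.and (e4.and e5)))).exists_forall_of_atTop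
  refine ⟨max (max N0a Nn) (max (max Nz Nb) (W ^ 2)), fun N hN => ?_⟩
  have h1 : N0a ≤ N := le_trans (le_trans (le_max_left _ _) (le_max_left _ _)) hN
  have h2 : Nn ≤ N := le_trans (le_trans (le_max_right _ _) (le_max_left _ _)) hN
  have h3 : Nz ≤ N := le_trans (le_trans (le_trans (le_max_left _ _) (le_max_left _ _)) (le_max_right _ _)) hN
  have h4 : Nb ≤ N := le_trans (le_trans (le_trans (le_max_right _ _) (le_max_left _ _)) (le_max_right _ _)) hN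
  have h5 : W ^ 2 ≤ N := le_trans (le_trans (le_max_right _ _) (le_max_right _ _)) hN
  obtain ⟨f1, f2, f3, f4, f5⟩ := hNb N h4
  have hW2 : 1 ≤ W ^ 2 := Nat.one_le_pow _ _ hW
  refine ⟨h1, hNn _ (h2.trans (Nat.le_mul_of_pos_left N hW2)), h5, f1, f2, f3,
    fun N' hN' => hNz N' (h3.trans hN'), f4, f5⟩

/-- the size of `M` -/
private theorem s3_M (P : Prm) (hP : P.Ok) {W N : ℕ} (hW : 0 < W) (hn : Pool.Agent.Lib.RH.Num P (W ^ 2 * N))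
    (h1 : W ^ 2 ≤ N) (h2 : (W : ℝ) ≤ Real.log N) (h3 : (8 : ℝ) ≤ Real.log N)
    (h4 : (2 : ℝ) ^ (P.C1 + 1) ≤ Real.log N) :
    2 ≤ MM P (W ^ 2 * N) ∧ W ≤ MM P (W ^ 2 * N) ∧ (MM P (W ^ 2 * N) : ℝ) ≤ (Real.log N) ^ (P.C1 + 1) ∧
      (Real.log ((W ^ 2 * N : ℕ) : ℝ)) ^ 6 ≤ JJ (W ^ 2 * N) ∧ 1 ≤ JJ (W ^ 2 * N) ∧ 0 < Real.log ((W ^ 2 * N : ℕ) : ℝ) := by
  have hW2 : 1 ≤ W ^ 2 := Nat.one_le_pow _ _ hW
  have hN0 : 0 < N := lt_of_lt_of_le (by omega) h1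
  have hNr : (0 : ℝ) < N := by exact_mod_cast hN0
  have hlo : Real.log N ≤ Real.log ((W ^ 2 * N : ℕ) : ℝ) := by
    apply Real.log_le_log hNr
    exact_mod_cast Nat.le_mul_of_pos_left N hW2
  have hup : Real.log ((W ^ 2 * N : ℕ) : ℝ) ≤ 2 * Real.log N := by
    have h5 : ((W ^ 2 * N : ℕ) : ℝ) ≤ (N : ℝ) ^ 2 := by
      have : W ^ 2 * N ≤ N ^ 2 := by
        rw [sq N]
        exact Nat.mul_le_mul_right N h1
      exact_mod_cast this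
    have h6 : (0 : ℝ) < ((W ^ 2 * N : ℕ) : ℝ) := by
      have : 0 < W ^ 2 * N := Nat.mul_pos (by omega) hN0
      exact_mod_cast this
    have h7 := Real.log_le_log h6 h5
    rw [Real.log_pow] at h7
    push_cast at h7 ⊢
    exact h7
  set R := W ^ 2 * N with hR
  set LR := Real.log (R : ℝ) with hLR
  set K := Real.log N with hK
  have hLR8 : 8 ≤ LR := h3.trans hlo
  have hC := hP.C1
  have hM1 : LR ≤ MM P R := by
    refine le_trans ?_ hn.M1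
    have : LR ^ 1 ≤ LR ^ P.C1 := pow_le_pow_right₀ (by linarith) (by omega)
    rwa [pow_one] at this
  have hJ : LR ^ 6 ≤ JJ R := by
    refine le_trans ?_ hn.J1
    exact pow_le_pow_right₀ (by linarith) (by norm_num)
  refine ⟨?_, ?_, ?_, hJ, ?_, by linarith⟩
  · have : (2 : ℝ) ≤ MM P R := by linarith
    exact_mod_cast this
  · have : (W : ℝ) ≤ MM P R := by linarith
    exact_mod_cast this
  · calc (MM P R : ℝ) ≤ 2 * LR ^ P.C1 := hn.M2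
      _ ≤ 2 * (2 * K) ^ P.C1 := by
          have h0 : 0 ≤ LR := by linarith
          have := pow_le_pow_left₀ h0 hup P.C1
          linarith
      _ = 2 ^ (P.C1 + 1) * K ^ P.C1 := by rw [mul_pow, pow_succ]; ring
      _ ≤ K * K ^ P.C1 := mul_le_mul_of_nonneg_right h4 (by positivity)
      _ = K ^ (P.C1 + 1) := by rw [pow_succ]; ring
  · have h8 : (1 : ℝ) ≤ LR ^ 6 := one_le_pow₀ (by linarith)
    have : (1 : ℝ) ≤ JJ R := h8.trans hJ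
    exact_mod_cast this

private theorem s3_rough_mul {M g n : ℕ} (hg : Rough M g) (hn : Rough M n) : Rough M (g * n) := by
  intro p hp hd
  rcases hp.dvd_mul.1 hd with h | h
  · exact hg p hp h
  · exact hn p hp h

private theorem s3_rough_right {M g n : ℕ} (h : Rough M (g * n)) : Rough M n :=
  fun p hp hd => h p hp (Dvd.dvd.mul_left hd g)

open Classical in
private theorem s3_part {W N N1 M g m B r cl : ℕ} {H : ℤ} {c : ℕ → ℝ} (hg1 : 1 ≤ g)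
    (hgR : g.Coprime (W ^ 2 * N)) (hgM : Rough M g) (hN1 : ∀ n : ℕ, n.Coprime N1 ↔ n.Coprime N)
    (hMW : ∀ n, Rough M n → n.Coprime (W ^ 2)) (hc : ∀ n, c (g * n) = lam g * c n)
    (hcl : ∀ n : ℕ, (n ≡ cl [MOD W ^ 2 * m] ↔ g * n ≡ r [MOD W ^ 2] ∧ (m : ℤ) ∣ ((g * n : ℕ) : ℤ) + H)) :
    ∑ n ∈ (Icc 1 (B / g)).filter (fun n => (m : ℤ) ∣ ((g * n : ℕ) : ℤ) + H ∧ g * n ≡ r [MOD W ^ 2] ∧
      (g * n).Coprime (W ^ 2 * N) ∧ Rough M (g * n) ∧ RZ M (((g * n : ℕ) : ℤ) + H)), (lam (g * n) - c (g * n)) =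
    lam g * ∑ n ∈ (Icc 1 (B / g)).filter (fun n => n ≡ cl [MOD W ^ 2 * m] ∧ n.Coprime N1 ∧ Rough M n ∧
      RZ M ((g : ℤ) * n + H)), (lam n - c n) := by
  rw [mul_sum]
  refine sum_congr ?_ ?_
  · ext n
    simp only [mem_filter]
    have hcast : ((g * n : ℕ) : ℤ) + H = (g : ℤ) * n + H := by push_cast; ring
    constructor
    · rintro ⟨h1, h2, h3, h4, h5, h6⟩
      have h7 : n.Coprime (W ^ 2 * N) := Nat.Coprime.coprime_mul_left h4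
      refine ⟨h1, (hcl n).2 ⟨h3, h2⟩, (hN1 n).2 (Nat.Coprime.coprime_mul_left_right h7), s3_rough_right h5, ?_⟩
      rwa [hcast] at h6
    · rintro ⟨h1, h2, h3, h4, h5⟩
      have h6 := (hcl n).1 h2
      refine ⟨h1, h6.2, h6.1, ?_, s3_rough_mul hgM h4, ?_⟩
      · exact Nat.Coprime.mul_left hgR (Nat.Coprime.mul_right (hMW n h4) ((hN1 n).1 h3))
      · rwa [hcast]
  · intro n hn
    have h1 := (mem_Icc.1 (mem_filter.1 hn).1).1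
    rw [Pool.Agent.Lib.MP_45349e_nt.LS.lam_mul g n (by omega) (by omega), hc n]
    ring

private theorem s3_abs_lam (n : ℕ) : |lam n| = 1 := Pool.Agent.Lib.MP_45349e_nt.LS.abs_lam n

open Classical in
private theorem s3_split {W N N1 M g m a b r : ℕ} {H : ℤ} {c : ℕ → ℝ} (hg1 : 1 ≤ g) (hm1 : 1 ≤ m) (hab : a ≤ b)
    (hW : 1 ≤ W ^ 2) (hgR : g.Coprime (W ^ 2 * N)) (hmR : m.Coprime (W ^ 2 * N)) (hgm : g.Coprime m)
    (hgM : Rough M g) (hN1 : ∀ n : ℕ, n.Coprime N1 ↔ n.Coprime N)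
    (hMW : ∀ n, Rough M n → n.Coprime (W ^ 2)) (hr : r.Coprime (W ^ 2)) (hH : IsCoprime H (m : ℤ))
    (hc : ∀ n, c (g * n) = lam g * c n) :
    ∃ cl : ℕ, cl.Coprime (W ^ 2 * m) ∧
      |∑ Z ∈ (Ioc a b).filter (fun Z => g ∣ Z ∧ (m : ℤ) ∣ (Z : ℤ) + H ∧ Z ≡ r [MOD W ^ 2] ∧
        Z.Coprime (W ^ 2 * N) ∧ Rough M Z ∧ RZ M ((Z : ℤ) + H)), (lam Z - c Z)| ≤
      |∑ n ∈ (Icc 1 (b / g)).filter (fun n => n ≡ cl [MOD W ^ 2 * m] ∧ n.Coprime N1 ∧ Rough M n ∧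
        RZ M ((g : ℤ) * n + H)), (lam n - c n)| +
      |∑ n ∈ (Icc 1 (a / g)).filter (fun n => n ≡ cl [MOD W ^ 2 * m] ∧ n.Coprime N1 ∧ Rough M n ∧
        RZ M ((g : ℤ) * n + H)), (lam n - c n)| := by
  have hg2 : g.Coprime (W ^ 2 * m) := Nat.Coprime.mul_right (Nat.Coprime.coprime_mul_right_right hgR) hgm
  have hqm : (W ^ 2).Coprime m := (Nat.Coprime.coprime_mul_right_right hmR).symm
  obtain ⟨cl, hcl1, hcl⟩ := cls g m (W ^ 2) r H hm1 hW hg2 hqm hr hH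
  refine ⟨cl, hcl1, ?_⟩
  have h := rng g a b hg1 hab (fun Z => (m : ℤ) ∣ (Z : ℤ) + H ∧ Z ≡ r [MOD W ^ 2] ∧
        Z.Coprime (W ^ 2 * N) ∧ Rough M Z ∧ RZ M ((Z : ℤ) + H)) (fun Z => lam Z - c Z)
  have h1 : ∑ Z ∈ (Ioc a b).filter (fun Z => g ∣ Z ∧ (m : ℤ) ∣ (Z : ℤ) + H ∧ Z ≡ r [MOD W ^ 2] ∧
        Z.Coprime (W ^ 2 * N) ∧ Rough M Z ∧ RZ M ((Z : ℤ) + H)), (lam Z - c Z) =
      lam g * (∑ n ∈ (Icc 1 (b / g)).filter (fun n => n ≡ cl [MOD W ^ 2 * m] ∧ n.Coprime N1 ∧ Rough M n ∧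
        RZ M ((g : ℤ) * n + H)), (lam n - c n)) -
      lam g * (∑ n ∈ (Icc 1 (a / g)).filter (fun n => n ≡ cl [MOD W ^ 2 * m] ∧ n.Coprime N1 ∧ Rough M n ∧
        RZ M ((g : ℤ) * n + H)), (lam n - c n)) := by
    rw [← s3_part hg1 hgR hgM hN1 hMW hc hcl, ← s3_part hg1 hgR hgM hN1 hMW hc hcl]
    refine Eq.trans (sum_congr ?_ fun _ _ => rfl) (h.trans (congrArg₂ _ (sum_congr ?_ fun _ _ => rfl)
      (sum_congr ?_ fun _ _ => rfl)))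
    · ext Z
      simp only [mem_filter]
    · ext Z
      simp only [mem_filter]
    · ext Z
      simp only [mem_filter]
  rw [h1, ← mul_sub, abs_mul, s3_abs_lam, one_mul]
  exact abs_sub _ _


/-- the weights of the pairs -/
private theorem s3_wt {P : Prm} {R y0 n1 n2 : ℕ} {B1 : Fin n1 → Finset ℕ} {B2 : Fin n2 → Finset ℕ}
    (hF1 : FamOk P R y0 B1) (hF2 : FamOk P R y0 B2) (hK : 0 < Real.log R) (hy : (Real.log R) ^ 6 ≤ y0)
    (N1 : ℕ) (j : ℕ) (hj : 1 ≤ j) :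
    ∑ x ∈ (((TUP B1) ×ˢ (TUP B2)).filter (fun x => x.1.Coprime x.2)).filter (fun x => j ∣ x.2),
      1 / ((x.1 : ℝ) * x.2) ≤ rho B1 * rho B2 * ((j : ℝ) ^ (-(1 / 2) : ℝ) + (N1 : ℝ) ^ (-(1 : ℝ))) := by
  have h1 : ∑ x ∈ (((TUP B1) ×ˢ (TUP B2)).filter (fun x => x.1.Coprime x.2)).filter (fun x => j ∣ x.2),
      1 / ((x.1 : ℝ) * x.2) ≤ ∑ x ∈ (TUP B1) ×ˢ ((TUP B2).filter (fun t => j ∣ t)), 1 / ((x.1 : ℝ) * x.2) := by
    refine sum_le_sum_of_subset_of_nonneg ?_ fun _ _ _ => by positivity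
    intro x hx
    rw [mem_filter, mem_filter, mem_product] at hx
    rw [mem_product, mem_filter]
    exact ⟨hx.1.1.1, hx.1.1.2, hx.2⟩
  have h2 : ∑ x ∈ (TUP B1) ×ˢ ((TUP B2).filter (fun t => j ∣ t)), 1 / ((x.1 : ℝ) * x.2) =
      (∑ g ∈ TUP B1, 1 / (g : ℝ)) * ∑ m ∈ (TUP B2).filter (fun t => j ∣ t), 1 / (m : ℝ) := by
    rw [sum_product, sum_mul_sum]
    refine sum_congr rfl fun g _ => sum_congr rfl fun m _ => ?_
    rw [div_mul_div_comm, one_mul]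
  have h3 := Pool.Agent.Lib.TCF.tup_sum hF1
  have h4 := famw P R y0 B2 hF2 hy j hj
  have h5 := (Pool.Agent.Lib.TCF.rho_pos hF1 hK).le
  have h6 := (Pool.Agent.Lib.TCF.rho_pos hF2 hK).le
  have h7 : 0 ≤ (N1 : ℝ) ^ (-(1 : ℝ)) := by positivity
  calc _ ≤ _ := h1
    _ = rho B1 * ∑ m ∈ (TUP B2).filter (fun t => j ∣ t), 1 / (m : ℝ) := by rw [h2, h3]
    _ ≤ rho B1 * (rho B2 * (j : ℝ) ^ (-(1 / 2) : ℝ)) := mul_le_mul_of_nonneg_left h4 h5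
    _ ≤ rho B1 * rho B2 * ((j : ℝ) ^ (-(1 / 2) : ℝ) + (N1 : ℝ) ^ (-(1 : ℝ))) := by
        rw [← mul_assoc]
        exact mul_le_mul_of_nonneg_left (by linarith) (mul_nonneg h5 h6)

private theorem s3_pow {P : Prm} (hP : P.Ok) {W N : ℕ} (hN0 : 0 < N) (h1 : W ^ 2 ≤ N) (hW2 : 1 ≤ W ^ 2) :
    (((W ^ 2 * N : ℕ) : ℝ)) ^ (P.kap / 100) ≤ (N : ℝ) ^ ((1 : ℝ) / 50000) := by
  have hN1 : (1 : ℝ) ≤ N := by exact_mod_cast hN0
  have hR1 : (1 : ℝ) ≤ ((W ^ 2 * N : ℕ) : ℝ) := by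
    have : 1 ≤ W ^ 2 * N := Nat.mul_pos hW2 hN0
    exact_mod_cast this
  have h2 : ((W ^ 2 * N : ℕ) : ℝ) ≤ (N : ℝ) ^ (2 : ℝ) := by
    have : W ^ 2 * N ≤ N ^ 2 := by
      rw [sq N]
      exact Nat.mul_le_mul_right N h1
    have h3 : ((W ^ 2 * N : ℕ) : ℝ) ≤ ((N ^ 2 : ℕ) : ℝ) := by exact_mod_cast this
    rw [show (2 : ℝ) = ((2 : ℕ) : ℝ) by norm_num, Real.rpow_natCast]
    push_cast at h3 ⊢
    exact h3
  have hk := hP.kap1
  calc (((W ^ 2 * N : ℕ) : ℝ)) ^ (P.kap / 100) ≤ (((W ^ 2 * N : ℕ) : ℝ)) ^ ((1 : ℝ) / 100000) :=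
        Real.rpow_le_rpow_of_exponent_le hR1 (by linarith)
    _ ≤ ((N : ℝ) ^ (2 : ℝ)) ^ ((1 : ℝ) / 100000) := Real.rpow_le_rpow (by linarith) h2 (by norm_num)
    _ = (N : ℝ) ^ ((1 : ℝ) / 50000) := by
        rw [← Real.rpow_mul (by linarith)]
        norm_num

private theorem s3_card {P : Prm} {R y0 n : ℕ} {B : Fin n → Finset ℕ} (hF : FamOk P R y0 B) :
    ((TUP B).card : ℝ) ≤ (R : ℝ) ^ (P.kap / 100) := by
  have h1 : TUP B ⊆ Icc 1 ⌊(R : ℝ) ^ (P.kap / 100)⌋₊ := by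
    intro t ht
    obtain ⟨f1, -, -, -, -, -, f7⟩ := Pool.Agent.Lib.TCF.tup_facts hF ht
    rw [mem_Icc]
    exact ⟨by omega, Nat.le_floor f7⟩
  have h2 := card_le_card h1
  rw [Nat.card_Icc, Nat.add_sub_cancel] at h2
  have h3 : ((TUP B).card : ℝ) ≤ (⌊(R : ℝ) ^ (P.kap / 100)⌋₊ : ℝ) := by exact_mod_cast h2
  exact h3.trans (Nat.floor_le (by positivity))

/-- the trivial bound -/
private theorem s3_triv (S : Finset ℕ) (B g : ℕ) (hS : S ⊆ Icc 1 (B / g)) (c : ℕ → ℝ) (hc : ∀ n, |c n| ≤ 1) :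
    |∑ n ∈ S, (lam n - c n)| ≤ 2 * B := by
  have h1 : |∑ n ∈ S, (lam n - c n)| ≤ ∑ n ∈ S, (2 : ℝ) := by
    refine (abs_sum_le_sum_abs _ _).trans (sum_le_sum fun n _ => ?_)
    refine (abs_sub _ _).trans ?_
    have := hc n
    rw [s3_abs_lam]
    linarith
  refine h1.trans ?_
  rw [sum_const, nsmul_eq_mul, mul_comm]
  have h2 : S.card ≤ B := by
    refine (card_le_card hS).trans ?_
    rw [Nat.card_Icc, Nat.add_sub_cancel]
    exact Nat.div_le_self _ _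
  have h3 : (S.card : ℝ) ≤ B := by exact_mod_cast h2
  linarith

private theorem s3_N1 {N : ℕ} (hN0 : 0 < N) (hev : Even N) (x : ℝ) (hx : 1 ≤ x) :
    ∃ N1 : ℕ, 0 < N1 ∧ N ≤ N1 ∧ x * N ≤ N1 ∧ (N1 : ℝ) ≤ 2 * x * N ∧ (∀ p : ℕ, p.Prime → p ∣ N1 → p ∣ N) ∧ N ∣ N1 := by
  obtain ⟨i, hi1, hi2⟩ := pow_range x hx
  have hNr : (0 : ℝ) < N := by exact_mod_cast hN0
  refine ⟨2 ^ i * N, by positivity, Nat.le_mul_of_pos_left N (by positivity), ?_, ?_, ?_, Dvd.intro_left _ rfl⟩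
  · push_cast
    exact mul_le_mul_of_nonneg_right hi1 hNr.le
  · push_cast
    exact mul_le_mul_of_nonneg_right hi2 hNr.le
  · intro p hp hd
    rcases hp.dvd_mul.1 hd with h | h
    · have h5 : p ∣ 2 := hp.dvd_of_dvd_pow h
      exact h5.trans (even_iff_two_dvd.1 hev)
    · exact h

private theorem s3_cop {N N1 : ℕ} (hd : N ∣ N1) (hp : ∀ p : ℕ, p.Prime → p ∣ N1 → p ∣ N) (n : ℕ) :
    n.Coprime N1 ↔ n.Coprime N := by
  constructor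
  · intro h
    exact Nat.Coprime.coprime_dvd_right hd h
  · intro h
    by_contra hc
    obtain ⟨p, hp1, hp2, hp3⟩ := Nat.Prime.not_coprime_iff_dvd.1 hc
    exact Nat.not_coprime_of_dvd_of_dvd hp1.one_lt hp2 (hp p hp1 hp3) h

/-- no `Z` if `g`, `m` have a common factor or `r` is not coprime to the modulus -/
private theorem s3_none {W N M g m r D' y0 : ℕ} {H : ℤ} (hmR : m.Coprime (W ^ 2 * N)) (hgy : ∀ p : ℕ, p.Prime → p ∣ g → y0 < p)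
    (hD0 : 0 < D') (hDy : D' ≤ y0) (hH : H = ((D' * (W ^ 2 * N) : ℕ) : ℤ) ∨ H = -((D' * (W ^ 2 * N) : ℕ) : ℤ))
    (h : ¬ r.Coprime (W ^ 2) ∨ ¬ g.Coprime m) (Z : ℕ) : ¬ (g ∣ Z ∧ (m : ℤ) ∣ (Z : ℤ) + H ∧ Z ≡ r [MOD W ^ 2] ∧
        Z.Coprime (W ^ 2 * N) ∧ Rough M Z ∧ RZ M ((Z : ℤ) + H)) := by
  rintro ⟨h1, h2, h3, h4, -, -⟩
  rcases h with h | h
  · apply h
    have h5 : Z.Coprime (W ^ 2) := Nat.Coprime.coprime_mul_right_right h4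
    have h6 := h3.gcd_eq
    rw [Nat.coprime_iff_gcd_eq_one] at h5 ⊢
    rw [← h6]
    exact h5
  · obtain ⟨p, hp1, hp2, hp3⟩ := Nat.Prime.not_coprime_iff_dvd.1 h
    have h5 : (p : ℤ) ∣ (Z : ℤ) + H := (Int.natCast_dvd_natCast.2 hp3).trans h2
    have h6 : (p : ℤ) ∣ (Z : ℤ) := Int.natCast_dvd_natCast.2 (hp2.trans h1)
    have h7 : (p : ℤ) ∣ H := (Int.dvd_add_right h6).1 h5
    have h8 : (p : ℤ) ∣ ((D' * (W ^ 2 * N) : ℕ) : ℤ) := by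
      rcases hH with h9 | h9
      · rwa [h9] at h7
      · rw [h9] at h7
        exact (dvd_neg).1 h7
    have h9 : p ∣ D' * (W ^ 2 * N) := Int.natCast_dvd_natCast.1 h8
    rcases hp1.dvd_mul.1 h9 with h10 | h10
    · have h11 := Nat.le_of_dvd hD0 h10
      have h12 := hgy p hp1 hp2
      omega
    · exact Nat.not_coprime_of_dvd_of_dvd hp1.one_lt hp3 h10 hmR

private theorem s3_isc {W N m D' y0 : ℕ} {H : ℤ} (hmR : m.Coprime (W ^ 2 * N)) (hmy : ∀ p : ℕ, p.Prime → p ∣ m → y0 < p)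
    (hD0 : 0 < D') (hDy : D' ≤ y0) (hH : H = ((D' * (W ^ 2 * N) : ℕ) : ℤ) ∨ H = -((D' * (W ^ 2 * N) : ℕ) : ℤ)) :
    IsCoprime H (m : ℤ) := by
  have h1 : (D' * (W ^ 2 * N)).Coprime m := by
    by_contra h
    obtain ⟨p, hp1, hp2, hp3⟩ := Nat.Prime.not_coprime_iff_dvd.1 h
    rcases hp1.dvd_mul.1 hp2 with h10 | h10
    · have h11 := Nat.le_of_dvd hD0 h10
      have h12 := hmy p hp1 hp3
      omega
    · exact Nat.not_coprime_of_dvd_of_dvd hp1.one_lt hp3 h10 hmR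
  have h2 : IsCoprime ((D' * (W ^ 2 * N) : ℕ) : ℤ) (m : ℤ) := Nat.isCoprime_iff_coprime.2 h1
  rcases hH with h9 | h9
  · rwa [h9]
  · rw [h9]
    exact h2.neg_left

/-- numerics, main case -/
private theorem s3_n1 {A Cj : ℕ} {N N1 : ℝ} {σ Th K K1 : ℝ} (hN : 0 < N) (hσ : 0 ≤ σ) (hTh : 0 ≤ Th) (hK : 8 ≤ K)
    (hKK : K ≤ K1) (h1 : N1 ≤ 2 * K ^ Cj * N) (hN1 : 0 ≤ N1) :
    σ * Th * N1 / K1 ^ (A + Cj + 3) ≤ σ * (Th * N) / K ^ A / 2 := by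
  have hK0 : 0 < K := by linarith
  have h2 : K ^ (A + Cj + 3) ≤ K1 ^ (A + Cj + 3) := pow_le_pow_left₀ hK0.le hKK _
  have h3 : σ * Th * N1 / K1 ^ (A + Cj + 3) ≤ σ * Th * N1 / K ^ (A + Cj + 3) :=
    div_le_div_of_nonneg_left (by positivity) (by positivity) h2
  refine h3.trans ?_
  have h4 : σ * Th * N1 ≤ σ * Th * (2 * K ^ Cj * N) := mul_le_mul_of_nonneg_left h1 (by positivity)
  have h5 : σ * Th * N1 / K ^ (A + Cj + 3) ≤ σ * Th * (2 * K ^ Cj * N) / K ^ (A + Cj + 3) :=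
    div_le_div_of_nonneg_right h4 (by positivity)
  refine h5.trans ?_
  have h6 : σ * Th * (2 * K ^ Cj * N) / K ^ (A + Cj + 3) = σ * (Th * N) / K ^ A * (2 / K ^ 3) := by
    rw [pow_add, pow_add]
    field_simp
  have h7 : 2 / K ^ 3 ≤ 1 / 2 := by
    rw [div_le_div_iff₀ (by positivity) (by norm_num)]
    have h8 : (8 : ℝ) ^ 3 ≤ K ^ 3 := pow_le_pow_left₀ (by norm_num) hK 3
    linarith
  rw [h6]
  have h8 : 0 ≤ σ * (Th * N) / K ^ A := by positivity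
  nlinarith

/-- numerics, trivial case -/
private theorem s3_n2 {A Cj : ℕ} {N N1 : ℝ} {σ r1 r2 K B : ℝ} (hN : 1 ≤ N) (hσ : N ^ (-(1 / 5000) : ℝ) ≤ σ)
    (hr1 : N ^ (-(1 / 10000) : ℝ) ≤ r1) (hr2 : N ^ (-(1 / 10000) : ℝ) ≤ r2) (hK : 8 ≤ K)
    (h1 : N1 ≤ 2 * K ^ Cj * N) (hN1 : 0 ≤ N1) (hB : B ≤ N1 ^ ((999 : ℝ) / 1000))
    (h9 : 32 * K ^ (Cj + A) ≤ N ^ ((1 : ℝ) / 2000)) :
    N ^ ((1 : ℝ) / 50000) * N ^ ((1 : ℝ) / 50000) * (2 * B) ≤ σ * (r1 * r2 * N) / K ^ A / 2 := by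
  have hN0 : 0 < N := by linarith
  have hK0 : 0 < K := by linarith
  have hx1 : 1 ≤ 2 * K ^ Cj := by
    have : 1 ≤ K ^ Cj := one_le_pow₀ (by linarith)
    linarith
  have h2 : N1 ^ ((999 : ℝ) / 1000) ≤ 2 * K ^ Cj * N ^ ((999 : ℝ) / 1000) := by
    calc N1 ^ ((999 : ℝ) / 1000) ≤ (2 * K ^ Cj * N) ^ ((999 : ℝ) / 1000) :=
          Real.rpow_le_rpow hN1 h1 (by norm_num)
      _ = (2 * K ^ Cj) ^ ((999 : ℝ) / 1000) * N ^ ((999 : ℝ) / 1000) := Real.mul_rpow (by positivity) hN0.le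
      _ ≤ (2 * K ^ Cj) ^ (1 : ℝ) * N ^ ((999 : ℝ) / 1000) := by
          refine mul_le_mul_of_nonneg_right ?_ (by positivity)
          exact Real.rpow_le_rpow_of_exponent_le hx1 (by norm_num)
      _ = 2 * K ^ Cj * N ^ ((999 : ℝ) / 1000) := by rw [Real.rpow_one]
  have h3 : N ^ (1 - 4 / 10000 : ℝ) ≤ σ * (r1 * r2 * N) := by
    have e1 : N ^ (1 - 4 / 10000 : ℝ) = N ^ (-(1 / 5000) : ℝ) * (N ^ (-(1 / 10000) : ℝ) * N ^ (-(1 / 10000) : ℝ) * N) := by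
      nth_rewrite 5 [← Real.rpow_one N]
      rw [← Real.rpow_add hN0, ← Real.rpow_add hN0, ← Real.rpow_add hN0]
      norm_num
    rw [e1]
    have p1 : 0 < N ^ (-(1 / 5000) : ℝ) := by positivity
    have p2 : 0 < N ^ (-(1 / 10000) : ℝ) := by positivity
    have e2 : N ^ (-(1 / 10000) : ℝ) * N ^ (-(1 / 10000) : ℝ) ≤ r1 * r2 :=
      mul_le_mul hr1 hr2 p2.le (p2.le.trans hr1)
    exact mul_le_mul hσ (mul_le_mul_of_nonneg_right e2 hN0.le) (by positivity) (p1.le.trans hσ)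
  have h4 : 32 * K ^ (Cj + A) * N ^ ((1 : ℝ) / 25000 + 999 / 1000) ≤ N ^ (1 - 4 / 10000 : ℝ) := by
    calc 32 * K ^ (Cj + A) * N ^ ((1 : ℝ) / 25000 + 999 / 1000) ≤
          N ^ ((1 : ℝ) / 2000) * N ^ ((1 : ℝ) / 25000 + 999 / 1000) :=
          mul_le_mul_of_nonneg_right h9 (by positivity)
      _ = N ^ ((1 : ℝ) / 2000 + (1 / 25000 + 999 / 1000)) := by rw [← Real.rpow_add hN0]
      _ ≤ _ := Real.rpow_le_rpow_of_exponent_le hN (by norm_num)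
  have h5 : N ^ ((1 : ℝ) / 50000) * N ^ ((1 : ℝ) / 50000) * (2 * B) ≤
      4 * K ^ Cj * N ^ ((1 : ℝ) / 25000 + 999 / 1000) := by
    have e3 : N ^ ((1 : ℝ) / 50000) * N ^ ((1 : ℝ) / 50000) = N ^ ((1 : ℝ) / 25000) := by
      rw [← Real.rpow_add hN0]
      norm_num
    rw [e3, Real.rpow_add hN0]
    have p3 : 0 < N ^ ((1 : ℝ) / 25000) := by positivity
    have e4 : 2 * B ≤ 4 * K ^ Cj * N ^ ((999 : ℝ) / 1000) := by linarith
    calc N ^ ((1 : ℝ) / 25000) * (2 * B) ≤ N ^ ((1 : ℝ) / 25000) * (4 * K ^ Cj * N ^ ((999 : ℝ) / 1000)) :=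
          mul_le_mul_of_nonneg_left e4 p3.le
      _ = _ := by ring
  refine h5.trans ?_
  rw [div_div, le_div_iff₀ (by positivity)]
  have h6 : 4 * K ^ Cj * N ^ ((1 : ℝ) / 25000 + 999 / 1000) * (K ^ A * 2) =
      8 * K ^ (Cj + A) * N ^ ((1 : ℝ) / 25000 + 999 / 1000) := by
    rw [pow_add]
    ring
  rw [h6]
  refine le_trans ?_ (h4.trans h3)
  have p4 : 0 ≤ K ^ (Cj + A) * N ^ ((1 : ℝ) / 25000 + 999 / 1000) := by positivity
  nlinarith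

open Classical in
theorem sidG1 (P : Prm) (hP : P.Ok) (W : ℕ) (hW : 0 < W) (A Cj : ℕ) : ∃ N0 : ℕ, ∀ N : ℕ, N0 ≤ N → Even N →
    ∀ (y0 n1 n2 : ℕ) (B1 : Fin n1 → Finset ℕ) (B2 : Fin n2 → Finset ℕ), FamOk P (W ^ 2 * N) y0 B1 → FamOk P (W ^ 2 * N) y0 B2 →
    JJ (W ^ 2 * N) * MM P (W ^ 2 * N) ≤ y0 → (N : ℝ) ^ (-(1 / 10000) : ℝ) ≤ rho B1 → (N : ℝ) ^ (-(1 / 10000) : ℝ) ≤ rho B2 →
    ∀ D' : ℕ, 0 < D' → D' ≤ y0 → ∀ H : ℤ, (H = ((D' * (W ^ 2 * N) : ℕ) : ℤ) ∨ H = -((D' * (W ^ 2 * N) : ℕ) : ℤ)) →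
    ∀ a b r : ℕ, a ≤ b → (b : ℝ) ≤ (Real.log N) ^ Cj * N →
    ∑ g ∈ TUP B1, ∑ m ∈ TUP B2, |∑ Z ∈ (Ioc a b).filter (fun Z => g ∣ Z ∧ (m : ℤ) ∣ (Z : ℤ) + H ∧ Z ≡ r [MOD W ^ 2] ∧
      Z.Coprime (W ^ 2 * N) ∧ Rough (MM P (W ^ 2 * N)) Z ∧ RZ (MM P (W ^ 2 * N)) ((Z : ℤ) + H)), lam Z| ≤
      rho B1 * rho B2 * N / (Real.log N) ^ A := by
  have hW2 : 1 ≤ W ^ 2 := Nat.one_le_pow _ _ hW
  obtain ⟨C0, hC0, hC⟩ := sidF1 (W ^ 2) hW2 (A + Cj + 3)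
  obtain ⟨N0a, hN0a⟩ := hC C0 le_rfl 1 one_pos
  obtain ⟨N0, hN0⟩ := s3_num P hP W hW A Cj N0a C0 (by linarith)
  refine ⟨max N0 1, ?_⟩
  intro N hNN hev y0 n1 n2 B1 B2 hF1 hF2 hJM hr1 hr2 D' hD'0 hD'y H hH a b r hab hb
  obtain ⟨q1, q2, q3, q4, q5, q6, q7, q8, q9⟩ := hN0 N ((le_max_left _ _).trans hNN)
  have hNpos : 0 < N := lt_of_lt_of_le one_pos ((le_max_right _ _).trans hNN)
  have hNr : (0 : ℝ) < N := by exact_mod_cast hNpos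
  have hNr1 : (1 : ℝ) ≤ N := by exact_mod_cast hNpos
  obtain ⟨m1, m2, m3, m4, m5, m6⟩ := s3_M P hP hW q2 q3 q4 q5 q6
  have hKj : 1 ≤ (Real.log N) ^ Cj := one_le_pow₀ (by linarith)
  obtain ⟨N1, hN1pos, hNN1, hxN, hN1le, hN1p, hN1d⟩ := s3_N1 hNpos hev _ hKj
  have hNN1r : (N : ℝ) ≤ N1 := by exact_mod_cast hNN1
  have hcop := s3_cop hN1d hN1p
  have hKK1 : Real.log N ≤ Real.log N1 := Real.log_le_log hNr hNN1r
  have hbN1 : b ≤ N1 := by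
    have : (b : ℝ) ≤ N1 := hb.trans hxN
    exact_mod_cast this
  -- sizes of `y0`
  have hMy : MM P (W ^ 2 * N) ≤ y0 := (Nat.le_mul_of_pos_left _ m5).trans hJM
  have hy6 : (Real.log ((W ^ 2 * N : ℕ) : ℝ)) ^ 6 ≤ y0 := by
    have h1 : JJ (W ^ 2 * N) ≤ y0 := (Nat.le_mul_of_pos_right _ (by omega)).trans hJM
    have h2 : (JJ (W ^ 2 * N) : ℝ) ≤ y0 := by exact_mod_cast h1
    exact m4.trans h2
  have hMW : ∀ n : ℕ, Rough (MM P (W ^ 2 * N)) n → n.Coprime (W ^ 2) := by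
    intro n hn
    by_contra hc
    obtain ⟨p, hp1, hp2, hp3⟩ := Nat.Prime.not_coprime_iff_dvd.1 hc
    have h1 := hn p hp1 hp2
    have h2 := Nat.le_of_dvd hW (hp1.dvd_of_dvd_pow hp3)
    omega
  have hzC : MM P (W ^ 2 * N) ≤ Pool.Agent.Lib.TE.zC C0 N1 := by
    have h1 : (MM P (W ^ 2 * N) : ℝ) ≤ (Pool.Agent.Lib.TE.zC C0 N1 : ℝ) := by
      refine m3.trans (le_trans ?_ (q7 N1 hNN1))
      exact pow_le_pow_left₀ (by linarith) hKK1 _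
    exact_mod_cast h1
  have hHN : HN N1 H := by
    intro p hp hd
    have h1 : (p : ℤ) ∣ ((D' * (W ^ 2 * N) : ℕ) : ℤ) := by
      apply Int.natCast_dvd_natCast.2
      exact Dvd.dvd.mul_left (Dvd.dvd.mul_left (hN1p p hp hd) _) _
    rcases hH with h2 | h2
    · rw [h2]
      exact h1
    · rw [h2]
      exact (dvd_neg).2 h1
  have hrho1 := Pool.Agent.Lib.TCF.rho_pos hF1 m6
  have hrho2 := Pool.Agent.Lib.TCF.rho_pos hF2 m6
  -- facts on the members of the families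
  have hf1 : ∀ g ∈ TUP B1, 1 ≤ g ∧ g.Coprime (W ^ 2 * N) ∧ (∀ p : ℕ, p.Prime → p ∣ g → y0 < p) := by
    intro g hg
    obtain ⟨f1, -, -, f4, f5, -, -⟩ := Pool.Agent.Lib.TCF.tup_facts hF1 hg
    exact ⟨by omega, f4, fun p hp hd => f5 p hp hd⟩
  have hf2 : ∀ m ∈ TUP B2, 1 ≤ m ∧ m.Coprime (W ^ 2 * N) ∧ (∀ p : ℕ, p.Prime → p ∣ m → y0 < p) := by
    intro g hg
    obtain ⟨f1, -, -, f4, f5, -, -⟩ := Pool.Agent.Lib.TCF.tup_facts hF2 hg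
    exact ⟨by omega, f4, fun p hp hd => f5 p hp hd⟩
  have hpowR := s3_pow (P := P) hP hNpos q3 hW2
  -- the pairs
  obtain ⟨X, hX⟩ : ∃ X : Finset (ℕ × ℕ), X = ((TUP B1) ×ˢ (TUP B2)).filter (fun x => x.1.Coprime x.2) := ⟨_, rfl⟩
  have hXm : ∀ x ∈ X, x.1 ∈ TUP B1 ∧ x.2 ∈ TUP B2 ∧ x.1.Coprime x.2 := by
    intro x hx
    rw [hX, mem_filter, mem_product] at hx
    exact ⟨hx.1.1, hx.1.2, hx.2⟩
  rw [← sum_product']
  have hnone : ∀ x ∈ (TUP B1) ×ˢ (TUP B2), (¬ r.Coprime (W ^ 2) ∨ ¬ x.1.Coprime x.2) →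
      |∑ Z ∈ (Ioc a b).filter (fun Z => x.1 ∣ Z ∧ (x.2 : ℤ) ∣ (Z : ℤ) + H ∧ Z ≡ r [MOD W ^ 2] ∧
      Z.Coprime (W ^ 2 * N) ∧ Rough (MM P (W ^ 2 * N)) Z ∧ RZ (MM P (W ^ 2 * N)) ((Z : ℤ) + H)), lam Z| = 0 := by
    intro x hx h
    rw [mem_product] at hx
    rw [filter_false_of_mem, sum_empty, abs_zero]
    intro Z _
    exact s3_none (hf2 _ hx.2).2.1 (hf1 _ hx.1).2.2 hD'0 hD'y hH h Z
  have hRHS : 0 ≤ rho B1 * rho B2 * N / (Real.log N) ^ A := by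
    have : 0 < Real.log N := by linarith
    positivity
  by_cases hr : r.Coprime (W ^ 2)
  swap
  · refine le_trans (le_of_eq (sum_eq_zero fun x hx => hnone x hx (Or.inl hr))) hRHS
  have hsub : ∑ x ∈ (TUP B1) ×ˢ (TUP B2), |∑ Z ∈ (Ioc a b).filter (fun Z => x.1 ∣ Z ∧ (x.2 : ℤ) ∣ (Z : ℤ) + H ∧
      Z ≡ r [MOD W ^ 2] ∧ Z.Coprime (W ^ 2 * N) ∧ Rough (MM P (W ^ 2 * N)) Z ∧ RZ (MM P (W ^ 2 * N)) ((Z : ℤ) + H)),
        lam Z| =
      ∑ x ∈ X, |∑ Z ∈ (Ioc a b).filter (fun Z => x.1 ∣ Z ∧ (x.2 : ℤ) ∣ (Z : ℤ) + H ∧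
      Z ≡ r [MOD W ^ 2] ∧ Z.Coprime (W ^ 2 * N) ∧ Rough (MM P (W ^ 2 * N)) Z ∧ RZ (MM P (W ^ 2 * N)) ((Z : ℤ) + H)),
        lam Z| := by
    refine (sum_subset ?_ ?_).symm
    · rw [hX]
      exact filter_subset _ _
    · intro x hx hnx
      refine hnone x hx (Or.inr fun hc => hnx ?_)
      rw [hX, mem_filter]
      exact ⟨hx, hc⟩
  rw [hsub]
  -- the classes
  have hex : ∀ x ∈ X, ∃ cl : ℕ, cl.Coprime (W ^ 2 * x.2) ∧
      |∑ Z ∈ (Ioc a b).filter (fun Z => x.1 ∣ Z ∧ (x.2 : ℤ) ∣ (Z : ℤ) + H ∧ Z ≡ r [MOD W ^ 2] ∧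
        Z.Coprime (W ^ 2 * N) ∧ Rough (MM P (W ^ 2 * N)) Z ∧ RZ (MM P (W ^ 2 * N)) ((Z : ℤ) + H)), lam Z| ≤
      |∑ n ∈ (Icc 1 (b / x.1)).filter (fun n => n ≡ cl [MOD W ^ 2 * x.2] ∧ n.Coprime N1 ∧
        Rough (MM P (W ^ 2 * N)) n ∧ RZ (MM P (W ^ 2 * N)) ((x.1 : ℤ) * n + H)), (lam n - 0)| +
      |∑ n ∈ (Icc 1 (a / x.1)).filter (fun n => n ≡ cl [MOD W ^ 2 * x.2] ∧ n.Coprime N1 ∧
        Rough (MM P (W ^ 2 * N)) n ∧ RZ (MM P (W ^ 2 * N)) ((x.1 : ℤ) * n + H)), (lam n - 0)| := by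
    intro x hx
    obtain ⟨hx1, hx2, hx3⟩ := hXm x hx
    obtain ⟨g1, g2, g3⟩ := hf1 _ hx1
    obtain ⟨k1, k2, k3⟩ := hf2 _ hx2
    obtain ⟨cl, c1, c2⟩ := s3_split (c := fun _ : ℕ => (0 : ℝ)) g1 k1 hab hW2 g2 k2 hx3
      (fun p hp hd => lt_of_le_of_lt hMy (g3 p hp hd)) hcop hMW hr (s3_isc k2 k3 hD'0 hD'y hH)
      (fun _ => (mul_zero (lam x.1)).symm)
    refine ⟨cl, c1, le_trans (le_of_eq ?_) c2⟩
    refine congrArg _ (sum_congr rfl fun Z _ => ?_)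
    exact (sub_zero (lam Z)).symm
  choose! cl hcl1 hcl2 using hex
  -- both ends
  have hB : ∀ B : ℕ, B ≤ N1 → ∑ x ∈ X, |∑ n ∈ (Icc 1 (B / x.1)).filter (fun n => n ≡ cl x [MOD W ^ 2 * x.2] ∧
        n.Coprime N1 ∧ Rough (MM P (W ^ 2 * N)) n ∧ RZ (MM P (W ^ 2 * N)) ((x.1 : ℤ) * n + H)),
          (lam n - 0)| ≤ 1 * (rho B1 * rho B2 * N) / (Real.log N) ^ A / 2 := by
    intro B hBN
    rcases le_or_gt ((N1 : ℝ) ^ ((999 : ℝ) / 1000)) B with hc | hc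
    · have h1 := hN0a N1 (q1.trans hNN1) (MM P (W ^ 2 * N)) (MM P (W ^ 2 * N)) hzC hzC H hHN B hc hBN
        1 le_rfl ?_ (Nat.coprime_one_left N1) (ℕ × ℕ) X Prod.fst Prod.snd cl
        (rho B1 * rho B2) (by positivity) ?_ ?_
      · refine le_trans (le_of_eq ?_) (h1.trans ?_)
        · refine sum_congr rfl fun x _ => congrArg _ ?_
          simp only [one_mul, sub_zero]
          have e0 : ((Icc 1 (B / x.1)).filter (fun n => n ≡ cl x [MOD W ^ 2 * x.2] ∧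
              n.Coprime N1 ∧ Rough (MM P (W ^ 2 * N)) n ∧ RZ (MM P (W ^ 2 * N)) ((x.1 : ℤ) * n + H))) =
              ((Icc 1 (B / x.1)).filter (fun n => n ≡ cl x [MOD W ^ 2 * x.2] ∧
              Rough (MM P (W ^ 2 * N)) n ∧ RZ (MM P (W ^ 2 * N)) ((x.1 : ℤ) * n + H))).filter
                (fun n => n.Coprime N1) := by
            ext n
            simp only [mem_filter]
            tauto
          rw [e0, sum_filter]
          exact sum_congr rfl fun n _ => rfl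
        · have h2 := s3_n1 (A := A) (Cj := Cj) (σ := 1) (Th := rho B1 * rho B2) hNr zero_le_one (by positivity) q5
            hKK1 hN1le (by positivity)
          rw [Nat.cast_one, div_one]
          rwa [one_mul] at h2
      · rw [Nat.cast_one]
        exact Real.one_le_rpow (hNr1.trans hNN1r) (by norm_num)
      · intro x hx
        obtain ⟨hx1, hx2, hx3⟩ := hXm x hx
        obtain ⟨g1, g2, g3⟩ := hf1 _ hx1
        obtain ⟨k1, k2, k3⟩ := hf2 _ hx2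
        obtain ⟨-, -, -, -, -, -, f7⟩ := Pool.Agent.Lib.TCF.tup_facts hF1 hx1
        obtain ⟨-, -, -, -, -, -, f8⟩ := Pool.Agent.Lib.TCF.tup_facts hF2 hx2
        refine ⟨g1, k1, ?_, ?_, hcl1 x hx, ?_⟩
        · push_cast
          calc (x.1 : ℝ) * x.2 ≤ (N : ℝ) ^ ((1 : ℝ) / 50000) * (N : ℝ) ^ ((1 : ℝ) / 50000) :=
                mul_le_mul (f7.trans hpowR) (f8.trans hpowR) (by positivity) (by positivity)
            _ = (N : ℝ) ^ ((1 : ℝ) / 25000) := by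
                rw [← Real.rpow_add hNr]
                norm_num
            _ ≤ (N : ℝ) ^ ((1 : ℝ) / 2000) := Real.rpow_le_rpow_of_exponent_le hNr1 (by norm_num)
            _ ≤ (N1 : ℝ) ^ ((1 : ℝ) / 2000) := Real.rpow_le_rpow hNr.le hNN1r (by norm_num)
        · exact (hcop _).2 (Nat.Coprime.coprime_mul_left_right g2)
        · intro p hp hpM _ _
          refine ⟨hpM, ?_⟩
          rw [one_mul]
          intro hd
          have := g3 p hp hd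
          omega
      · intro j hj
        rw [hX]
        exact s3_wt hF1 hF2 m6 hy6 N1 j hj
    · have h1 : ∑ x ∈ X, |∑ n ∈ (Icc 1 (B / x.1)).filter (fun n => n ≡ cl x [MOD W ^ 2 * x.2] ∧
          n.Coprime N1 ∧ Rough (MM P (W ^ 2 * N)) n ∧ RZ (MM P (W ^ 2 * N)) ((x.1 : ℤ) * n + H)),
            (lam n - 0)| ≤ ∑ _x ∈ X, (2 * B : ℝ) :=
        sum_le_sum fun x _ => s3_triv _ B x.1 (filter_subset _ _) (fun _ => 0) (fun _ => by rw [abs_zero]; exact zero_le_one)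
      refine h1.trans ?_
      rw [sum_const, nsmul_eq_mul]
      have h2 : (X.card : ℝ) ≤ (N : ℝ) ^ ((1 : ℝ) / 50000) * (N : ℝ) ^ ((1 : ℝ) / 50000) := by
        have h3 : X.card ≤ (TUP B1).card * (TUP B2).card := by
          rw [hX, ← card_product]
          exact card_filter_le _ _
        have h4 : (X.card : ℝ) ≤ ((TUP B1).card : ℝ) * (TUP B2).card := by exact_mod_cast h3
        exact h4.trans (mul_le_mul ((s3_card hF1).trans hpowR) ((s3_card hF2).trans hpowR) (by positivity)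
          (by positivity))
      refine (mul_le_mul_of_nonneg_right h2 (by positivity)).trans ?_
      exact s3_n2 hNr1 (Real.rpow_le_one_of_one_le_of_nonpos hNr1 (by norm_num)) hr1 hr2 q5 hN1le (by positivity) hc.le q9
  calc _ ≤ ∑ x ∈ X, (|∑ n ∈ (Icc 1 (b / x.1)).filter (fun n => n ≡ cl x [MOD W ^ 2 * x.2] ∧ n.Coprime N1 ∧
        Rough (MM P (W ^ 2 * N)) n ∧ RZ (MM P (W ^ 2 * N)) ((x.1 : ℤ) * n + H)), (lam n - 0)| +
      |∑ n ∈ (Icc 1 (a / x.1)).filter (fun n => n ≡ cl x [MOD W ^ 2 * x.2] ∧ n.Coprime N1 ∧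
        Rough (MM P (W ^ 2 * N)) n ∧ RZ (MM P (W ^ 2 * N)) ((x.1 : ℤ) * n + H)), (lam n - 0)|) :=
        sum_le_sum fun x hx => hcl2 x hx
    _ ≤ 1 * (rho B1 * rho B2 * N) / (Real.log N) ^ A := by
        rw [sum_add_distrib]
        have h1 := hB b hbN1
        have h2 := hB a (hab.trans hbN1)
        linarith
    _ = rho B1 * rho B2 * N / (Real.log N) ^ A := by rw [one_mul]

end Pool.Agent.Lib.T3E
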